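import Mathlib

set_option autoImplicit false

/-!
Definitions for the `C^k`-smooth bounded domains that are not Kobayashi complete.
-/

namespace Helper112.Kc

open Finset

/-- The Kobayashi distance of `Ω ⊆ ℂⁿ`, by chains of holomorphic discs
(the same formula as in the frozen statement S04363). -/
noncomputable def kob {n : ℕ} (Ω : Set (EuclideanSpace ℂ (Fin n)))
    (p q : EuclideanSpace ℂ (Fin n)) : ℝ :=
  sInf {s : ℝ | ∃ (m : ℕ) (z : Fin (m + 1) → EuclideanSpace ℂ (Fin n))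
        (f : Fin m → ℂ → EuclideanSpace ℂ (Fin n)) (b : Fin m → ℂ),
        z 0 = p ∧ z (Fin.last m) = q ∧
        (∀ j, DifferentiableOn ℂ (f j) (Metric.ball (0 : ℂ) 1) ∧
              Set.MapsTo (f j) (Metric.ball (0 : ℂ) 1) Ω ∧
              ‖b j‖ < 1 ∧ f j 0 = z (Fin.castSucc j) ∧ f j (b j) = z (Fin.succ j)) ∧
        s = ∑ j, Real.log ((1 + ‖b j‖) / (1 - ‖b j‖))}

/-- The data of a truncated logarithm on `ℂ`. -/
structure IsLam (Λ : ℂ → ℝ) : Prop where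
  smooth : ContDiff ℝ ((⊤ : ℕ∞) : WithTop ℕ∞) Λ
  eq_log : ∀ w, 1 ≤ ‖w‖ → Λ w = Real.log ‖w‖
  min0 : ∀ w, Λ 0 ≤ Λ w
  lo : -1 ≤ Λ 0
  le0 : ∀ w, ‖w‖ ≤ 1 → Λ w ≤ 0
  sh : ∀ w v, 0 ≤ fderiv ℝ (fderiv ℝ Λ) w v v
        + fderiv ℝ (fderiv ℝ Λ) w (Complex.I * v) (Complex.I * v)
  bdd : ∀ i : ℕ, 1 ≤ i → ∃ C : ℝ, 0 ≤ C ∧ ∀ w, ‖iteratedFDeriv ℝ i Λ w‖ ≤ C

/-! ### Sequences -/

/-- `N j = j + 10000` -/
noncomputable def NN (j : ℕ) : ℝ := (j : ℝ) + 10000
/-- reduction factor of the depth -/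
noncomputable def KK (j : ℕ) : ℝ := Real.sqrt (NN j)
/-- relative length of the `j`-th step -/
noncomputable def cc (j : ℕ) : ℝ := 1 / (NN j) ^ 2
/-- `LL j = log (1 / cc j)` -/
noncomputable def LL (j : ℕ) : ℝ := 2 * Real.log (NN j)
/-- depth scale -/
noncomputable def GG (j : ℕ) : ℝ := ∏ i ∈ range j, 1 / KK i
/-- masses -/
noncomputable def mm (j : ℕ) : ℝ := GG j / (8 * KK j * LL j)
/-- radii of the discs; `RR d (j+d) = cc j / 2 * RR d j` -/
noncomputable def RR (d j : ℕ) : ℝ := ∏ l ∈ (range j).filter (fun l => l % d = j % d), cc l / 2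
/-- truncation radii -/
noncomputable def rr (d j : ℕ) : ℝ := cc j * RR d j * Real.exp (-(8 * LL j * KK j))
/-- position of the `j`-th pole (a real number), in coordinate `j % d` -/
noncomputable def pp (d j : ℕ) : ℝ := ∑ l ∈ (range j).filter (fun l => l % d = j % d), cc l * RR d l
/-- error terms -/
noncomputable def EE (d j : ℕ) : ℝ := mm j * (1 - Real.log (rr d j))

/-! ### The potential -/

/-- scalar truncated logarithm with pole `pp d j` -/
noncomputable def FF (Λ : ℂ → ℝ) (d j : ℕ) (w : ℂ) : ℝ :=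
  mm j * (Λ ((w - (pp d j : ℂ)) / (rr d j : ℂ)) + Real.log (rr d j))

/-- coordinate used by step `j` -/
def ix (d j : ℕ) (hd : 0 < d) : Fin (d + 1) := ⟨j % d, (Nat.mod_lt j hd).trans (Nat.lt_succ_self d)⟩

/-- the potential on `ℂ^{d+1}` (it does not depend on the last coordinate) -/
noncomputable def UU (Λ : ℂ → ℝ) (d : ℕ) (hd : 0 < d) (p : EuclideanSpace ℂ (Fin (d + 1))) : ℝ :=
  ∑' j, FF Λ d j (p (ix d j hd))

/-- the part of the potential due to the poles `j, j+d, j+2d, …`, normalised at `pp d j` -/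
noncomputable def VV (Λ : ℂ → ℝ) (d j : ℕ) (w : ℂ) : ℝ :=
  ∑' q : ℕ, (FF Λ d (j + q * d) w - FF Λ d (j + q * d) (pp d j : ℂ))

/-- depth reduction in step `j` -/
noncomputable def Dl (Λ : ℂ → ℝ) (d j : ℕ) : ℝ := VV Λ d j (pp d (j + d) : ℂ)

/-- depth before step `j` -/
noncomputable def dep (Λ : ℂ → ℝ) (d j : ℕ) : ℝ := ∑' l : ℕ, Dl Λ d (j + l)

/-- coordinates of the base point before step `j` (real) -/
noncomputable def ZZ (d j : ℕ) (i : Fin (d + 1)) : ℝ :=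
  ∑ l ∈ (range j).filter (fun l => l % d = (i : ℕ)), cc l * RR d l

/-- base point before step `j`, last coordinate `0` -/
noncomputable def bz (d j : ℕ) : EuclideanSpace ℂ (Fin (d + 1)) :=
  WithLp.toLp 2 (fun i => (ZZ d j i : ℂ))

/-- the smooth convex cap `max(t,0)^N` -/
noncomputable def QQ (N : ℕ) (t : ℝ) : ℝ := (max t 0) ^ N

/-- the defining function -/
noncomputable def rho {d : ℕ} (u : EuclideanSpace ℂ (Fin (d + 1)) → ℝ) (B : ℝ) (N : ℕ)
    (p : EuclideanSpace ℂ (Fin (d + 1))) : ℝ :=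
  (p (Fin.last d)).re + u p + QQ N (‖p‖ ^ 2 - B ^ 2)

end Helper112.Kc
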