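import Pool.Agent.Helper112.Kc.Defs

set_option autoImplicit false

/-! More definitions: the discs. -/

namespace Helper112.Kc

open Finset

/-- point with last coordinate `ζ`, coordinate `ix d j` equal to `w`, the others as in `bz d j` -/
noncomputable def pt (d j : ℕ) (hd : 0 < d) (w ζ : ℂ) : EuclideanSpace ℂ (Fin (d + 1)) :=
  WithLp.toLp 2 (fun i => if i = Fin.last d then ζ else if i = ix d j hd then w else (ZZ d j i : ℂ))

/-- last coordinate along the `j`-th disc, before scaling by `ε` -/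
noncomputable def zt (Λ : ℂ → ℝ) (d j : ℕ) (hd : 0 < d) (lam : ℂ) : ℂ :=
  -(UU Λ d hd (bz d j) : ℂ) - (dep Λ d j : ℂ)
    - ∑ l ∈ (range j).filter (fun l => l % d = j % d),
      (mm l : ℂ) * Complex.log (1 + (RR d j : ℂ) * lam / ((pp d j - pp d l : ℝ) : ℂ))

/-- the `j`-th disc -/
noncomputable def disc (Λ : ℂ → ℝ) (d : ℕ) (hd : 0 < d) (ε : ℝ) (j : ℕ) (lam : ℂ) :
    EuclideanSpace ℂ (Fin (d + 1)) :=
  pt d j hd ((pp d j : ℂ) + (RR d j : ℂ) * lam) ((ε : ℂ) * zt Λ d j hd lam)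

/-- the Cauchy sequence -/
noncomputable def xx (Λ : ℂ → ℝ) (d : ℕ) (hd : 0 < d) (ε : ℝ) (j : ℕ) :
    EuclideanSpace ℂ (Fin (d + 1)) :=
  pt d j hd (pp d j : ℂ) ((ε : ℂ) * (-(UU Λ d hd (bz d j) : ℂ) - (dep Λ d j : ℂ)))

end Helper112.Kc
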