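import Pool.Agent.Helper112.Kc.Defs

set_option autoImplicit false

namespace Helper112.Kc

open Finset Filter Topology

/-! TO PROVE -/

noncomputable def phiG (t : ℝ) : ℝ := Real.smoothTransition (2 * t - 1) / (2 * t)

theorem phiG_contDiff : ContDiff ℝ ((⊤ : ℕ∞) : WithTop ℕ∞) phiG := by
  rw [contDiff_iff_contDiffAt]
  intro x
  by_cases hx : x < 1/2
  · have h0 : phiG =ᶠ[𝓝 x] fun _ => (0:ℝ) := by
      filter_upwards [Iio_mem_nhds hx] with t ht
      have ht' : t < 1/2 := ht
      unfold phiG
      rw [Real.smoothTransition.zero_of_nonpos (by linarith)]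
      simp
    exact contDiffAt_const.congr_of_eventuallyEq h0
  · have hx' : 0 < x := by
      push Not at hx
      linarith
    unfold phiG
    have h1 : ContDiffAt ℝ ((⊤ : ℕ∞) : WithTop ℕ∞) (fun t : ℝ => Real.smoothTransition (2 * t - 1)) x := by
      have hc : ContDiff ℝ ((⊤ : ℕ∞) : WithTop ℕ∞) (fun t : ℝ => Real.smoothTransition (2 * t - 1)) :=
        Real.smoothTransition.contDiff.comp ((contDiff_const.mul contDiff_id).sub contDiff_const)
      exact hc.contDiffAt
    have h2 : ContDiffAt ℝ ((⊤ : ℕ∞) : WithTop ℕ∞) (fun t : ℝ => 2 * t) x :=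
      (contDiff_const.mul contDiff_id).contDiffAt
    exact h1.div h2 (by positivity)

theorem phiG_nonneg (t : ℝ) : 0 ≤ phiG t := by
  unfold phiG
  by_cases ht : t ≤ 1/2
  · rw [Real.smoothTransition.zero_of_nonpos (by linarith)]
    simp
  · push Not at ht
    exact div_nonneg (Real.smoothTransition.nonneg _) (by linarith)

theorem phiG_le_one (t : ℝ) : phiG t ≤ 1 := by
  unfold phiG
  by_cases ht : t ≤ 1/2
  · rw [Real.smoothTransition.zero_of_nonpos (by linarith)]
    simp
  · push Not at ht
    rw [div_le_one (by linarith)]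
    have := Real.smoothTransition.le_one (2 * t - 1)
    linarith

theorem mul_phiG (s : ℝ) : s * phiG s = Real.smoothTransition (2 * s - 1) / 2 := by
  unfold phiG
  by_cases hs : s = 0
  · subst hs
    rw [Real.smoothTransition.zero_of_nonpos (by norm_num)]
    simp
  · field_simp

theorem exists_phi : ∃ φ : ℝ → ℝ, ContDiff ℝ ((⊤ : ℕ∞) : WithTop ℕ∞) φ ∧
    (∀ s, 1 ≤ s → φ s = Real.log s / 2) ∧ Monotone φ ∧ (-1 ≤ φ 0) ∧
    (∀ s, 0 ≤ s → 0 ≤ deriv φ s + s * deriv (deriv φ) s) := by
  have hgc : Continuous phiG := phiG_contDiff.continuous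
  have hd : ∀ s, HasDerivAt (fun s => ∫ t in (1:ℝ)..s, phiG t) (phiG s) s := fun s =>
    hgc.integral_hasStrictDerivAt 1 s |>.hasDerivAt
  have hderiv : deriv (fun s => ∫ t in (1:ℝ)..s, phiG t) = phiG := funext fun s => (hd s).deriv
  refine ⟨fun s => ∫ t in (1:ℝ)..s, phiG t, ?_, ?_, ?_, ?_, ?_⟩
  · rw [contDiff_infty_iff_deriv]
    refine ⟨fun s => (hd s).differentiableAt, ?_⟩
    rw [hderiv]
    exact phiG_contDiff
  · intro s hs
    have h1 : ∫ t in (1:ℝ)..s, phiG t = ∫ t in (1:ℝ)..s, (1/2) * t⁻¹ := by
      apply intervalIntegral.integral_congr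
      intro t ht
      rw [Set.uIcc_of_le hs] at ht
      have ht1 := ht.1
      show phiG t = (1/2) * t⁻¹
      unfold phiG
      rw [Real.smoothTransition.one_of_one_le (by linarith)]
      have : t ≠ 0 := by linarith
      field_simp
    show ∫ t in (1:ℝ)..s, phiG t = Real.log s / 2
    rw [h1, intervalIntegral.integral_const_mul, integral_inv_of_pos (by norm_num) (by linarith), div_one]
    ring
  · apply monotone_of_deriv_nonneg (fun s => (hd s).differentiableAt)
    intro x
    rw [hderiv]
    exact phiG_nonneg x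
  · show -1 ≤ ∫ t in (1:ℝ)..0, phiG t
    rw [intervalIntegral.integral_symm]
    have h1 : ∫ t in (0:ℝ)..1, phiG t ≤ ∫ t in (0:ℝ)..1, (1:ℝ) := by
      apply intervalIntegral.integral_mono_on (by norm_num) (hgc.intervalIntegrable _ _)
        (continuous_const.intervalIntegrable _ _)
      intro x _
      exact phiG_le_one x
    rw [intervalIntegral.integral_const] at h1
    simp at h1
    linarith
  · intro s _
    rw [hderiv]
    have hgd : HasDerivAt phiG (deriv phiG s) s :=
      ((phiG_contDiff.differentiable (by simp)) s).hasDerivAt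
    have h1 : HasDerivAt (fun s => s * phiG s) (1 * phiG s + s * deriv phiG s) s :=
      (hasDerivAt_id s).mul hgd
    have h2 : (fun s => s * phiG s) = fun s => Real.smoothTransition (2 * s - 1) / 2 :=
      funext mul_phiG
    have hmono : Monotone (fun s => s * phiG s) := by
      rw [h2]
      intro a b hab
      have := Real.smoothTransition.monotone (show 2 * a - 1 ≤ 2 * b - 1 by linarith)
      show Real.smoothTransition (2 * a - 1) / 2 ≤ Real.smoothTransition (2 * b - 1) / 2
      linarith
    have h3 := h1.nonneg_of_monotone hmono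
    linarith

end Helper112.Kc
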