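import Pool.Agent.Helper112.Kc.Defs

set_option autoImplicit false

namespace Helper112.Kc

open Finset Filter Topology

/-! TO PROVE -/

theorem Lam_of_phi (φ : ℝ → ℝ) (hφ : ContDiff ℝ ((⊤ : ℕ∞) : WithTop ℕ∞) φ)
    (hm : Monotone φ) (hD : ∀ s, 0 ≤ s → 0 ≤ deriv φ s + s * deriv (deriv φ) s) :
    ContDiff ℝ ((⊤ : ℕ∞) : WithTop ℕ∞) (fun w : ℂ => φ (‖w‖ ^ 2)) ∧
    (∀ w v : ℂ, 0 ≤ fderiv ℝ (fderiv ℝ (fun w : ℂ => φ (‖w‖ ^ 2))) w v v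
        + fderiv ℝ (fderiv ℝ (fun w : ℂ => φ (‖w‖ ^ 2))) w (Complex.I * v) (Complex.I * v)) := by
  have hf : ContDiff ℝ ((⊤ : ℕ∞) : WithTop ℕ∞) (fun w : ℂ => φ (‖w‖ ^ 2)) :=
    hφ.comp (contDiff_norm_sq ℝ)
  refine ⟨hf, ?_⟩
  set f : ℂ → ℝ := fun w : ℂ => φ (‖w‖ ^ 2) with hfdef
  have hn : ∀ w : ℂ, HasFDerivAt (fun w : ℂ => ‖w‖ ^ 2) ((2 : ℝ) • innerSL ℝ w) w := by
    intro w
    have h := (hasStrictFDerivAt_norm_sq w).hasFDerivAt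
    refine h.congr_fderiv ?_
    rw [two_smul, two_smul]
  have h1 : ∀ w, HasFDerivAt f (deriv φ (‖w‖ ^ 2) • ((2 : ℝ) • innerSL ℝ w)) w := by
    intro w
    exact ((hφ.differentiable (by simp) _).hasDerivAt).comp_hasFDerivAt w (hn w)
  have h2 : ∀ w v : ℂ, fderiv ℝ f w v = deriv φ (‖w‖ ^ 2) * (2 * inner ℝ w v) := by
    intro w v
    rw [(h1 w).fderiv]
    simp
  have hφ1 : ContDiff ℝ ((⊤ : ℕ∞) : WithTop ℕ∞) (deriv φ) :=
    (contDiff_infty_iff_deriv.mp hφ).2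
  have h3 : ∀ w v : ℂ, fderiv ℝ (fderiv ℝ f) w v v
      = deriv (deriv φ) (‖w‖ ^ 2) * (2 * inner ℝ w v) ^ 2
        + deriv φ (‖w‖ ^ 2) * (2 * ‖v‖ ^ 2) := by
    intro w v
    have hd : DifferentiableAt ℝ (fderiv ℝ f) w := by
      have h4 : ContDiff ℝ ((⊤ : ℕ∞) : WithTop ℕ∞) (fderiv ℝ f) :=
        ContDiff.fderiv_right (m := ((⊤ : ℕ∞) : WithTop ℕ∞)) hf (by simp)
      exact h4.differentiable (by simp) w
    have e1 : HasFDerivAt (fun w => fderiv ℝ f w v)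
        ((ContinuousLinearMap.apply ℝ ℝ v).comp (fderiv ℝ (fderiv ℝ f) w)) w :=
      (ContinuousLinearMap.apply ℝ ℝ v).hasFDerivAt.comp w hd.hasFDerivAt
    have e3 : HasFDerivAt (fun w : ℂ => deriv φ (‖w‖ ^ 2))
        (deriv (deriv φ) (‖w‖ ^ 2) • ((2 : ℝ) • innerSL ℝ w)) w :=
      ((hφ1.differentiable (by simp) _).hasDerivAt).comp_hasFDerivAt w (hn w)
    have e4 : HasFDerivAt (fun w : ℂ => (2 : ℝ) * inner ℝ w v) ((2 : ℝ) • innerSL ℝ v) w := by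
      have e5 : (fun w : ℂ => (2 : ℝ) * inner ℝ w v) = fun w : ℂ => ((2 : ℝ) • innerSL ℝ v) w := by
        funext w
        simp [real_inner_comm]
      rw [e5]
      exact ((2 : ℝ) • innerSL ℝ v).hasFDerivAt
    have e2 := e3.mul e4
    have e6 : (fun w => fderiv ℝ f w v) = fun w : ℂ => deriv φ (‖w‖ ^ 2) * (2 * inner ℝ w v) := by
      funext w
      exact h2 w v
    rw [e6] at e1
    have e7 := e1.unique e2
    have e8 := congrArg (fun L : ℂ →L[ℝ] ℝ => L v) e7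
    have e9 : ((ContinuousLinearMap.apply ℝ ℝ v).comp (fderiv ℝ (fderiv ℝ f) w)) v
        = fderiv ℝ (fderiv ℝ f) w v v := rfl
    rw [← e9]
    refine e8.trans ?_
    simp only [add_apply, smul_apply, innerSL_apply_apply, smul_eq_mul,
      real_inner_self_eq_norm_sq]
    ring
  intro w v
  rw [h3, h3]
  have h4 : ‖Complex.I * v‖ = ‖v‖ := by rw [norm_mul, Complex.norm_I, one_mul]
  have h5 : (inner ℝ w v : ℝ) ^ 2 + (inner ℝ w (Complex.I * v) : ℝ) ^ 2 = ‖w‖ ^ 2 * ‖v‖ ^ 2 := by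
    rw [Complex.inner, Complex.inner, ← Complex.normSq_eq_norm_sq, ← Complex.normSq_eq_norm_sq,
      Complex.normSq_apply, Complex.normSq_apply]
    simp only [Complex.mul_re, Complex.conj_re, Complex.conj_im, Complex.I_re, Complex.I_im,
      Complex.mul_im]
    ring
  have h6 := hD (‖w‖ ^ 2) (by positivity)
  rw [h4]
  have h7 : deriv (deriv φ) (‖w‖ ^ 2) * (2 * inner ℝ w v) ^ 2 + deriv φ (‖w‖ ^ 2) * (2 * ‖v‖ ^ 2)
      + (deriv (deriv φ) (‖w‖ ^ 2) * (2 * inner ℝ w (Complex.I * v)) ^ 2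
        + deriv φ (‖w‖ ^ 2) * (2 * ‖v‖ ^ 2))
      = 4 * ‖v‖ ^ 2 * (deriv φ (‖w‖ ^ 2) + ‖w‖ ^ 2 * deriv (deriv φ) (‖w‖ ^ 2)) := by
    linear_combination (4 * deriv (deriv φ) (‖w‖ ^ 2)) * h5
  rw [h7]
  positivity

end Helper112.Kc
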