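import Pool.Agent.Helper112.Kc.Defs

set_option autoImplicit false

namespace Helper112.Kc

open Finset Filter Topology

theorem Lam_bdd_scale (Λ : ℂ → ℝ) (hs : ContDiff ℝ ((⊤ : ℕ∞) : WithTop ℕ∞) Λ)
    (hl : ∀ w, 1 ≤ ‖w‖ → Λ w = Real.log ‖w‖) (i : ℕ) (hi : 1 ≤ i) (w : ℂ) (hw : 2 < ‖w‖) :
    ∃ w0 : ℂ, ‖w0‖ = 2 ∧ ‖iteratedFDeriv ℝ i Λ w‖ ≤ ‖iteratedFDeriv ℝ i Λ w0‖ := by
  set t : ℝ := ‖w‖ / 2 with ht
  have ht1 : 1 < t := by rw [ht]; linarith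
  have ht0 : 0 < t := by linarith
  set g : ℂ →L[ℝ] ℂ := t⁻¹ • ContinuousLinearMap.id ℝ ℂ with hg
  have hgw : ∀ v, g v = t⁻¹ • v := fun v => rfl
  refine ⟨g w, ?_, ?_⟩
  · rw [hgw, norm_smul, norm_inv, Real.norm_of_nonneg ht0.le, ht]
    have : ‖w‖ ≠ 0 := by linarith
    field_simp
  · have hev : Λ =ᶠ[𝓝 w] fun v => (Λ ∘ g) v + Real.log t := by
      have h1 : ∀ᶠ v in 𝓝 w, t < ‖v‖ := by
        apply (continuous_norm.tendsto w).eventually
        exact lt_mem_nhds (by rw [ht]; linarith)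
      filter_upwards [h1] with v hv
      have hv1 : 1 ≤ ‖v‖ := by linarith
      have hgv : ‖g v‖ = t⁻¹ * ‖v‖ := by
        rw [hgw, norm_smul, norm_inv, Real.norm_of_nonneg ht0.le]
      have hgv1 : 1 ≤ ‖g v‖ := by
        rw [hgv, inv_mul_eq_div, le_div_iff₀ ht0]
        linarith
      rw [hl v hv1, Function.comp_apply, hl _ hgv1, hgv, Real.log_mul (by positivity)
        (by linarith), Real.log_inv]
      ring
    have hi0 : i ≠ 0 := by omega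
    have hle : (i : WithTop ℕ∞) ≤ ((⊤ : ℕ∞) : WithTop ℕ∞) := by exact_mod_cast le_top
    have hc : ContDiff ℝ i (Λ ∘ g) := (hs.of_le hle).comp g.contDiff
    rw [(hev.iteratedFDeriv ℝ i).self_of_nhds]
    have e1 : iteratedFDeriv ℝ i (fun v => (Λ ∘ g) v + Real.log t) w
        = iteratedFDeriv ℝ i (Λ ∘ g) w := by
      have h2 := iteratedFDeriv_add_apply (𝕜 := ℝ) (i := i) (f := Λ ∘ g)
        (g := fun _ => Real.log t) (x := w) hc.contDiffAt contDiffAt_const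
      rw [iteratedFDeriv_const_of_ne hi0] at h2
      rw [Pi.zero_apply, add_zero] at h2
      exact h2
    rw [e1, g.iteratedFDeriv_comp_right hs w hle]
    refine (ContinuousMultilinearMap.norm_compContinuousLinearMap_le _ _).trans ?_
    have hgn : ‖g‖ ≤ 1 := by
      refine ContinuousLinearMap.opNorm_le_bound _ (by norm_num) fun v => ?_
      rw [hgw, norm_smul, norm_inv, Real.norm_of_nonneg ht0.le]
      have : t⁻¹ ≤ 1 := inv_le_one_of_one_le₀ ht1.le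
      exact mul_le_mul_of_nonneg_right this (norm_nonneg _)
    have hp : ∏ _j : Fin i, ‖g‖ ≤ 1 :=
      Finset.prod_le_one (fun _ _ => norm_nonneg _) (fun _ _ => hgn)
    calc _ ≤ ‖iteratedFDeriv ℝ i Λ (g w)‖ * 1 := mul_le_mul_of_nonneg_left hp (norm_nonneg _)
      _ = _ := mul_one _

/-! TO PROVE -/

theorem Lam_bdd (Λ : ℂ → ℝ) (hs : ContDiff ℝ ((⊤ : ℕ∞) : WithTop ℕ∞) Λ)
    (hl : ∀ w, 1 ≤ ‖w‖ → Λ w = Real.log ‖w‖) (i : ℕ) (hi : 1 ≤ i) :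
    ∃ C : ℝ, 0 ≤ C ∧ ∀ w, ‖iteratedFDeriv ℝ i Λ w‖ ≤ C := by
  have hle : (i : WithTop ℕ∞) ≤ ((⊤ : ℕ∞) : WithTop ℕ∞) := by exact_mod_cast le_top
  have hc : Continuous (fun w => iteratedFDeriv ℝ i Λ w) := hs.continuous_iteratedFDeriv hle
  obtain ⟨C, hC⟩ := (isCompact_closedBall (0 : ℂ) 2).exists_bound_of_continuousOn hc.continuousOn
  have h0 : 0 ≤ C := (norm_nonneg _).trans (hC 0 (by simp))
  refine ⟨C, h0, fun w => ?_⟩
  by_cases hw : ‖w‖ ≤ 2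
  · exact hC w (by simpa using hw)
  · rw [not_le] at hw
    obtain ⟨w0, h1, h2⟩ := Lam_bdd_scale Λ hs hl i hi w hw
    exact h2.trans (hC w0 (by simp [h1]))

end Helper112.Kc
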