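import Pool.Agent.Helper112.Kc.Defs

set_option autoImplicit false

namespace Helper112.Kc

open Finset Filter Topology

/-! TO PROVE -/

theorem KC1_NN_ge (j : ℕ) : (10000 : ℝ) ≤ NN j := by
  unfold NN
  have : (0 : ℝ) ≤ (j : ℝ) := Nat.cast_nonneg j
  linarith

theorem KK_ge (j : ℕ) : 100 ≤ KK j := by
  unfold KK
  have h := KC1_NN_ge j
  refine Real.le_sqrt_of_sq_le ?_
  linarith

theorem KK_succ (j : ℕ) : KK (j + 1) ≤ 2 * KK j := by
  unfold KK
  have h := KC1_NN_ge j
  refine Real.sqrt_le_iff.2 ⟨by positivity, ?_⟩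
  rw [mul_pow, Real.sq_sqrt (by linarith)]
  unfold NN at h ⊢
  push_cast
  linarith

theorem LL_ge (j : ℕ) : 18 ≤ LL j := by
  unfold LL
  have h := KC1_NN_ge j
  have h2 : (9 : ℝ) ≤ Real.log (NN j) := by
    rw [Real.le_log_iff_exp_le (by linarith)]
    refine le_trans ?_ h
    have h3 : Real.exp 9 = Real.exp 1 ^ 9 := by
      rw [← Real.exp_nat_mul]; norm_num
    rw [h3]
    refine (pow_le_pow_left₀ (Real.exp_pos 1).le Real.exp_one_lt_d9.le 9).trans ?_
    norm_num
  linarith

theorem LL_mono {i j : ℕ} (h : i ≤ j) : LL i ≤ LL j := by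
  unfold LL
  have h1 := KC1_NN_ge i
  have h2 : NN i ≤ NN j := by
    unfold NN
    have : (i : ℝ) ≤ (j : ℝ) := Nat.cast_le.2 h
    linarith
  have h3 := Real.log_le_log (by linarith) h2
  linarith

theorem cc_pos (j : ℕ) : 0 < cc j := by
  unfold cc
  have h := KC1_NN_ge j
  have : 0 < NN j := by linarith
  positivity

theorem cc_le (j : ℕ) : cc j ≤ 1 / 100000000 := by
  unfold cc
  have h := KC1_NN_ge j
  refine one_div_le_one_div_of_le (by norm_num) ?_
  have := pow_le_pow_left₀ (by norm_num) h 2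
  linarith

theorem log_cc (j : ℕ) : Real.log (cc j) = - LL j := by
  unfold cc LL
  rw [one_div, Real.log_inv, Real.log_pow]
  norm_num

theorem summable_cc : Summable cc := by
  have h := (Real.summable_one_div_nat_pow (p := 2)).2 one_lt_two
  have h2 := (summable_nat_add_iff (f := fun n : ℕ => 1 / (n : ℝ) ^ 2) 10000).2 h
  refine h2.congr fun j => ?_
  unfold cc NN
  push_cast
  rfl

end Helper112.Kc
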