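import Pool.Agent.Helper112.Kc.Defs
import Pool.Agent.Helper112.Kc.JB1

set_option autoImplicit false

namespace Helper112.Kc

open Finset Filter Topology

/-! TO PROVE -/

theorem GG_pos (j : ℕ) : 0 < GG j := by
  unfold GG
  refine Finset.prod_pos fun i _ => ?_
  have := KK_ge i
  positivity

theorem GG_succ (j : ℕ) : GG (j + 1) = GG j / KK j := by
  unfold GG
  rw [Finset.prod_range_succ, mul_one_div]

theorem GG_le (j q : ℕ) : GG (j + q) ≤ GG j * (1 / 100) ^ q := by
  induction q with
  | zero => simp
  | succ q ih =>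
    rw [← add_assoc, GG_succ, pow_succ, ← mul_assoc]
    have h1 := KK_ge (j + q)
    have h2 := GG_pos (j + q)
    have h3 : GG (j + q) / KK (j + q) ≤ GG (j + q) / 100 :=
      div_le_div_of_nonneg_left h2.le (by norm_num) h1
    refine h3.trans ?_
    rw [div_eq_mul_one_div]
    exact mul_le_mul_of_nonneg_right ih (by norm_num)

theorem mm_pos (j : ℕ) : 0 < mm j := by
  unfold mm
  have h1 := KK_ge j
  have h2 := LL_ge j
  have h3 := GG_pos j
  positivity

theorem mm_LL (j : ℕ) : mm j * LL j = GG (j + 1) / 8 := by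
  have h1 := KK_ge j
  have h2 := LL_ge j
  have h1' : KK j ≠ 0 := by linarith
  have h2' : LL j ≠ 0 := by linarith
  rw [GG_succ]
  unfold mm
  field_simp

theorem mm_le (j : ℕ) : mm j ≤ GG j := by
  unfold mm
  have h1 := KK_ge j
  have h2 := LL_ge j
  have h3 := GG_pos j
  apply div_le_self h3.le
  nlinarith

end Helper112.Kc
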