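import Pool.Agent.Helper112.Kc.Defs
import Pool.Agent.Helper112.Kc.JB1

set_option autoImplicit false

namespace Helper112.Kc

open Finset Filter Topology

/-! TO PROVE -/

theorem RR_pos (d j : ℕ) : 0 < RR d j := by
  unfold RR
  exact Finset.prod_pos fun l _ => half_pos (cc_pos l)

theorem RR_fac_le (l : ℕ) : cc l / 2 ≤ 1 := by
  have := cc_le l
  linarith

theorem RR_le_one (d j : ℕ) : RR d j ≤ 1 := by
  unfold RR
  exact Finset.prod_le_one (fun l _ => (half_pos (cc_pos l)).le) fun l _ => RR_fac_le l

theorem RR_lt {d l j : ℕ} (h : l < j) (hc : l % d = j % d) : RR d j ≤ cc l / 2 * RR d l := by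
  unfold RR
  have hsub : insert l ((range l).filter (fun i => i % d = l % d)) ⊆
      (range j).filter (fun i => i % d = j % d) := by
    intro i hi
    rw [mem_insert] at hi
    rw [mem_filter, mem_range]
    rcases hi with rfl | hi
    · exact ⟨h, hc⟩
    · rw [mem_filter, mem_range] at hi
      exact ⟨hi.1.trans h, hi.2.trans hc⟩
  have hnot : l ∉ (range l).filter (fun i => i % d = l % d) := by
    rw [mem_filter, mem_range]
    intro h1
    exact lt_irrefl _ h1.1
  have e := Finset.prod_insert (f := fun i => cc i / 2) hnot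
  rw [← Finset.prod_sdiff hsub, e]
  have h1 : ∏ i ∈ (range j).filter (fun i => i % d = j % d) \
      insert l ((range l).filter (fun i => i % d = l % d)), cc i / 2 ≤ 1 :=
    Finset.prod_le_one (fun l _ => (half_pos (cc_pos l)).le) fun l _ => RR_fac_le l
  have h2 : 0 ≤ cc l / 2 * ∏ i ∈ (range l).filter (fun i => i % d = l % d), cc i / 2 :=
    mul_nonneg (half_pos (cc_pos l)).le (Finset.prod_nonneg fun l _ => (half_pos (cc_pos l)).le)
  exact mul_le_of_le_one_left h2 h1

/-- crude lower bound for the radii -/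
theorem log_RR {d : ℕ} (hd : 3 ≤ d) (j : ℕ) :
    - Real.log (RR d j) ≤ ((j : ℝ) / 3 + 1) * (LL j + 1) := by
  unfold RR
  rw [Real.log_prod fun l _ => (half_pos (cc_pos l)).ne', ← Finset.sum_neg_distrib]
  have hL := LL_ge j
  have h1 : ∑ l ∈ (range j).filter (fun l => l % d = j % d), -Real.log (cc l / 2) ≤
      ∑ l ∈ (range j).filter (fun l => l % d = j % d), (LL j + 1) := by
    refine Finset.sum_le_sum fun l hl => ?_
    rw [mem_filter, mem_range] at hl
    rw [Real.log_div (cc_pos l).ne' (by norm_num), log_cc]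
    have := LL_mono hl.1.le
    have := Real.log_two_lt_d9
    linarith
  rw [Finset.sum_const, nsmul_eq_mul] at h1
  have hcard : ((range j).filter (fun l => l % d = j % d)).card = j / d := by
    have h2 := Nat.count_modEq_card j (show 0 < d by omega) j
    rw [Nat.count_eq_card_filter_range, if_neg (lt_irrefl _), add_zero] at h2
    exact h2
  rw [hcard] at h1
  have h3 : ((j / d : ℕ) : ℝ) ≤ (j : ℝ) / 3 := by
    have h4 : j / d ≤ j / 3 := Nat.div_le_div_left hd (by norm_num)
    calc ((j / d : ℕ) : ℝ) ≤ ((j / 3 : ℕ) : ℝ) := by exact_mod_cast h4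
      _ ≤ (j : ℝ) / 3 := Nat.cast_div_le
  refine h1.trans ?_
  apply mul_le_mul_of_nonneg_right _ (by linarith)
  linarith

end Helper112.Kc
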