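import Pool.Agent.Helper112.Kc.Defs
import Pool.Agent.Helper112.Kc.JB3

set_option autoImplicit false

namespace Helper112.Kc

open Finset Filter Topology

/-! TO PROVE -/

theorem pp_add {d : ℕ} (hd : 0 < d) (j : ℕ) : pp d (j + d) = pp d j + cc j * RR d j := by
  unfold pp
  have h : (range (j + d)).filter (fun l => l % d = (j + d) % d) =
      insert j ((range j).filter (fun l => l % d = j % d)) := by
    ext l
    simp only [mem_filter, mem_range, mem_insert, Nat.add_mod_right]
    constructor
    · rintro ⟨h1, h2⟩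
      by_cases hl : l < j
      · exact Or.inr ⟨hl, h2⟩
      · left
        have hjl : j ≤ l := not_lt.mp hl
        have h3 : d ∣ l - j := (Nat.modEq_iff_dvd' hjl).mp h2.symm
        have h4 : l - j = 0 := Nat.eq_zero_of_dvd_of_lt h3 (by omega)
        omega
    · rintro (rfl | ⟨h1, h2⟩)
      · exact ⟨by omega, rfl⟩
      · exact ⟨by omega, h2⟩
  have hn : j ∉ (range j).filter (fun l => l % d = j % d) := by simp
  have h5 : ∀ x ∈ insert j ((range j).filter (fun l => l % d = j % d)),
      cc x * RR d x = cc x * RR d x := fun _ _ => rfl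
  rw [h, sum_insert hn]
  ring

theorem pp_sub_aux {d : ℕ} (hd : 0 < d) (l : ℕ) : ∀ q : ℕ,
    cc l * RR d l ≤ pp d (l + (q + 1) * d) - pp d l ∧
    pp d (l + (q + 1) * d) - pp d l ≤ 2 * (cc l * RR d l) - 2 * RR d (l + (q + 1) * d) := by
  intro q
  induction q with
  | zero =>
    have h1 := pp_add hd l
    have h2 : RR d (l + (0 + 1) * d) ≤ cc l / 2 * RR d l := by
      apply RR_lt
      · omega
      · simp
    have h3 : l + (0 + 1) * d = l + d := by ring
    rw [h3] at h2 ⊢
    rw [h1]
    constructor
    · linarith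
    · linarith
  | succ q ih =>
    obtain ⟨ih1, ih2⟩ := ih
    set j := l + (q + 1) * d with hj
    have hjd : l + (q + 1 + 1) * d = j + d := by rw [hj]; ring
    rw [hjd]
    have h1 := pp_add hd j
    have h2 : RR d (j + d) ≤ cc j / 2 * RR d j := by
      apply RR_lt
      · omega
      · simp
    have h3 := cc_pos j
    have h4 := cc_le j
    have h5 := RR_pos d j
    have h6 : cc j * RR d j ≤ 1 * RR d j := by
      apply mul_le_mul_of_nonneg_right _ h5.le
      linarith
    have h7 : 0 < cc j * RR d j := mul_pos h3 h5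
    rw [h1]
    constructor
    · linarith
    · linarith

theorem pp_sub {d l j : ℕ} (hd : 0 < d) (h : l < j) (hc : l % d = j % d) :
    cc l * RR d l ≤ pp d j - pp d l ∧ pp d j - pp d l ≤ 2 * (cc l * RR d l) := by
  have h3 : d ∣ j - l := (Nat.modEq_iff_dvd' h.le).mp hc
  obtain ⟨k, hk⟩ := h3
  have hk0 : k ≠ 0 := by
    rintro rfl
    simp at hk
    omega
  obtain ⟨q, rfl⟩ := Nat.exists_eq_succ_of_ne_zero hk0
  have hj : j = l + (q + 1) * d := by
    have : j = l + d * (q + 1) := by
      have := Nat.add_sub_cancel' h.le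
      rw [← this, hk]
    rw [this]; ring
  have := pp_sub_aux hd l q
  rw [← hj] at this
  have h5 := RR_pos d j
  exact ⟨this.1, by linarith [this.2]⟩

end Helper112.Kc
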