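import Pool.Agent.Helper112.Kc.Defs
import Pool.Agent.Helper112.Kc.JB4

set_option autoImplicit false

namespace Helper112.Kc

open Finset Filter Topology

/-- the radius product of the class `i` -/
noncomputable def ZZ_mem_R (d j i : ℕ) : ℝ := ∏ l ∈ (range j).filter (fun l => l % d = i), cc l / 2

theorem ZZ_mem_R_eq (d j i : ℕ) (h : j % d = i) : RR d j = ZZ_mem_R d j i := by
  subst h
  rfl

theorem ZZ_mem_term (d l : ℕ) : 0 ≤ cc l * RR d l := mul_nonneg (cc_pos l).le (RR_pos d l).le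

theorem ZZ_mem_succ (d j : ℕ) (i : Fin (d + 1)) :
    ZZ d (j + 1) i = ZZ d j i + if j % d = (i : ℕ) then cc j * RR d j else 0 := by
  unfold ZZ
  rw [Finset.range_add_one, Finset.filter_insert]
  by_cases h : j % d = (i : ℕ)
  · rw [if_pos h, if_pos h, Finset.sum_insert (by simp), add_comm]
  · rw [if_neg h, if_neg h, add_zero]

theorem ZZ_mem_R_succ (d j i : ℕ) :
    ZZ_mem_R d (j + 1) i = if j % d = i then cc j / 2 * ZZ_mem_R d j i else ZZ_mem_R d j i := by
  unfold ZZ_mem_R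
  rw [Finset.range_add_one, Finset.filter_insert]
  by_cases h : j % d = i
  · rw [if_pos h, if_pos h, Finset.prod_insert (by simp)]
  · rw [if_neg h, if_neg h]

theorem ZZ_mem_R_nonneg (d j i : ℕ) : 0 ≤ ZZ_mem_R d j i := by
  unfold ZZ_mem_R
  apply Finset.prod_nonneg
  intro l _
  have := cc_pos l
  linarith

theorem ZZ_mem_inv (d j : ℕ) (i : Fin (d + 1)) : ZZ d j i + ZZ_mem_R d j i ≤ 1 := by
  induction j with
  | zero =>
    unfold ZZ ZZ_mem_R
    simp
  | succ j ih =>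
    rw [ZZ_mem_succ, ZZ_mem_R_succ]
    by_cases h : j % d = (i : ℕ)
    · rw [if_pos h, if_pos h, ZZ_mem_R_eq d j i h]
      have h1 := cc_le j
      have h2 := cc_pos j
      have h3 := ZZ_mem_R_nonneg d j i
      nlinarith
    · rw [if_neg h, if_neg h, add_zero]
      exact ih

/-! TO PROVE -/

theorem ZZ_mem (d j : ℕ) (i : Fin (d + 1)) : 0 ≤ ZZ d j i ∧ ZZ d j i ≤ 1 := by
  constructor
  · unfold ZZ
    exact Finset.sum_nonneg (fun l _ => ZZ_mem_term d l)
  · have h1 := ZZ_mem_inv d j i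
    have h2 := ZZ_mem_R_nonneg d j i
    linarith

theorem ZZ_mono {d j j' : ℕ} (h : j ≤ j') (i : Fin (d + 1)) : ZZ d j i ≤ ZZ d j' i := by
  unfold ZZ
  apply Finset.sum_le_sum_of_subset_of_nonneg
  · intro l hl
    rw [Finset.mem_filter, Finset.mem_range] at hl ⊢
    exact ⟨lt_of_lt_of_le hl.1 h, hl.2⟩
  · intro l _ _
    exact ZZ_mem_term d l

theorem ZZ_succ (d j : ℕ) (i : Fin (d + 1)) :
    ZZ d (j + 1) i = ZZ d j i + if j % d = (i : ℕ) then cc j * RR d j else 0 := by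
  exact ZZ_mem_succ d j i

theorem ZZ_ix {d j : ℕ} (hd : 0 < d) : ZZ d j (ix d j hd) = pp d j := by
  rfl

theorem ZZ_last {d j : ℕ} (hd : 0 < d) : ZZ d j (Fin.last d) = 0 := by
  unfold ZZ
  apply Finset.sum_eq_zero
  intro l hl
  rw [Finset.mem_filter] at hl
  have h1 := hl.2
  rw [Fin.val_last] at h1
  have h2 := Nat.mod_lt l hd
  omega

end Helper112.Kc
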