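import Pool.Agent.Helper112.Kc.Defs
import Pool.Agent.Helper112.Kc.JB2
import Pool.Agent.Helper112.Kc.JB3

set_option autoImplicit false

namespace Helper112.Kc

open Finset Filter Topology

/-! TO PROVE -/

theorem rr_pos (d j : ℕ) : 0 < rr d j := by
  unfold rr
  exact mul_pos (mul_pos (cc_pos j) (RR_pos d j)) (Real.exp_pos _)

theorem rr_le (d j : ℕ) : rr d j ≤ cc j * RR d j / 2 := by
  unfold rr
  have h0 : 0 < cc j * RR d j := mul_pos (cc_pos j) (RR_pos d j)
  have hK := KK_ge j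
  have hL := LL_ge j
  have h1 : 1 ≤ 8 * LL j * KK j := by nlinarith
  have h2 : 2 ≤ Real.exp (8 * LL j * KK j) := by
    have := Real.add_one_le_exp (8 * LL j * KK j)
    linarith
  have h3 : Real.exp (-(8 * LL j * KK j)) ≤ 1 / 2 := by
    rw [Real.exp_neg, inv_eq_one_div]
    exact one_div_le_one_div_of_le (by norm_num) h2
  have h4 := mul_le_mul_of_nonneg_left h3 h0.le
  linarith

theorem rr_log_aux (d j : ℕ) :
    Real.log (rr d j) = Real.log (cc j * RR d j) - 8 * LL j * KK j := by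
  unfold rr
  have h0 : 0 < cc j * RR d j := mul_pos (cc_pos j) (RR_pos d j)
  rw [Real.log_mul h0.ne' (Real.exp_pos _).ne', Real.log_exp]
  ring

theorem rr_mm_aux (j : ℕ) : mm j * (8 * LL j * KK j) = GG j := by
  unfold mm
  have hK := KK_ge j
  have hL := LL_ge j
  have hK' : KK j ≠ 0 := by linarith
  have hL' : LL j ≠ 0 := by linarith
  field_simp

theorem log_rr (d j : ℕ) :
    mm j * (Real.log (cc j * RR d j) - Real.log (rr d j)) = GG j := by
  rw [rr_log_aux, sub_sub_cancel, rr_mm_aux]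

theorem EE_aux (d l : ℕ) : EE d l = mm l * (1 - Real.log (cc l * RR d l)) + GG l := by
  unfold EE
  rw [rr_log_aux, ← rr_mm_aux l]
  ring

theorem EE_le {d : ℕ} (hd : 3 ≤ d) (l : ℕ) : EE d l ≤ GG l * KK l := by
  rw [EE_aux]
  have hK := KK_ge l
  have hL := LL_ge l
  have hG := GG_pos l
  have hm := mm_pos l
  have hlog : Real.log (cc l * RR d l) = - LL l + Real.log (RR d l) := by
    rw [Real.log_mul (cc_pos l).ne' (RR_pos d l).ne', log_cc]
  have hR := log_RR hd l
  rw [hlog]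
  have hl0 : (0:ℝ) ≤ l := Nat.cast_nonneg l
  have h1 : mm l * (1 - (- LL l + Real.log (RR d l))) ≤ mm l * ((LL l + 1) * ((l:ℝ) / 3 + 2)) := by
    apply mul_le_mul_of_nonneg_left _ hm.le
    nlinarith
  have h2 : mm l * (LL l + 1) * (4 * KK l) ≤ GG l := by
    rw [← rr_mm_aux l]
    have h3 : 0 ≤ mm l * KK l * (LL l - 1) := by
      have : 0 ≤ mm l * KK l := mul_nonneg hm.le (by linarith)
      exact mul_nonneg this (by linarith)
    nlinarith [h3]
  have hKK : KK l ^ 2 = (l:ℝ) + 10000 := by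
    unfold KK NN
    rw [Real.sq_sqrt (by positivity)]
  have h4 : (l:ℝ) / 3 + 2 ≤ KK l ^ 2 := by rw [hKK]; linarith
  have hmL : 0 ≤ mm l * (LL l + 1) := mul_nonneg hm.le (by linarith)
  have h5 : mm l * ((LL l + 1) * ((l:ℝ) / 3 + 2)) ≤ GG l * (KK l / 4) := by
    calc mm l * ((LL l + 1) * ((l:ℝ) / 3 + 2)) = (mm l * (LL l + 1)) * ((l:ℝ) / 3 + 2) := by ring
      _ ≤ (mm l * (LL l + 1)) * KK l ^ 2 := mul_le_mul_of_nonneg_left h4 hmL
      _ = (mm l * (LL l + 1) * (4 * KK l)) * (KK l / 4) := by ring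
      _ ≤ GG l * (KK l / 4) := mul_le_mul_of_nonneg_right h2 (by linarith)
  have h6 : GG l * (KK l / 4) + GG l ≤ GG l * KK l := by nlinarith
  linarith

theorem GG_le_EE (d l : ℕ) : GG l ≤ EE d l := by
  rw [EE_aux]
  have hm := mm_pos l
  have h1 : cc l * RR d l ≤ 1 := by
    have h2 := cc_le l
    have h3 := RR_le_one d l
    have h4 := cc_pos l
    have h5 := RR_pos d l
    nlinarith
  have h0 : 0 < cc l * RR d l := mul_pos (cc_pos l) (RR_pos d l)
  have h2 : Real.log (cc l * RR d l) ≤ 0 := Real.log_nonpos h0.le h1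
  have h3 : 0 ≤ mm l * (1 - Real.log (cc l * RR d l)) := mul_nonneg hm.le (by linarith)
  linarith

end Helper112.Kc
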