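import Pool.Agent.Helper112.Kc.Defs
import Pool.Agent.Helper112.Kc.JB6

set_option autoImplicit false

namespace Helper112.Kc

open Finset Filter Topology

/-! TO PROVE -/

theorem EE_aux_le {d : ℕ} (hd : 3 ≤ d) (l : ℕ) : EE d (l + 1) ≤ 2 * GG l := by
  have h1 := EE_le hd (l + 1)
  have h2 := KK_ge l
  have h3 := KK_succ l
  have h4 := GG_pos l
  have h5 : GG (l + 1) * KK (l + 1) ≤ 2 * GG l := by
    rw [GG_succ, div_mul_eq_mul_div, div_le_iff₀ (by linarith)]
    nlinarith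
  exact h1.trans h5

theorem EE_aux_pos (d l : ℕ) : 0 ≤ EE d l := (GG_pos l).le.trans (GG_le_EE d l)

theorem summable_EE {d : ℕ} (hd : 3 ≤ d) : Summable (EE d) := by
  rw [← summable_nat_add_iff 1]
  have hs : Summable (fun l : ℕ => 2 * (GG 0 * (1 / 100 : ℝ) ^ l)) :=
    ((summable_geometric_of_lt_one (by norm_num) (by norm_num)).mul_left _).mul_left _
  refine Summable.of_nonneg_of_le (fun l => EE_aux_pos d _) (fun l => ?_) hs
  have h1 := GG_le 0 l
  rw [zero_add] at h1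
  have h2 := EE_aux_le hd l
  linarith


theorem EE_tail {d : ℕ} (hd : 3 ≤ d) (j : ℕ) : ∑' l, EE d (l + (j + 3)) ≤ GG (j + 1) / 20 := by
  have hg : Summable (fun l : ℕ => (1 / 100 : ℝ) ^ l) :=
    summable_geometric_of_lt_one (by norm_num) (by norm_num)
  have hs : Summable (fun l : ℕ => (2 * GG (j + 1) / 100) * (1 / 100 : ℝ) ^ l) := hg.mul_left _
  have hsE : Summable (fun l => EE d (l + (j + 3))) :=
    (summable_nat_add_iff (j + 3)).2 (summable_EE hd)
  have hle : ∀ l, EE d (l + (j + 3)) ≤ (2 * GG (j + 1) / 100) * (1 / 100 : ℝ) ^ l := by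
    intro l
    have h1 := EE_aux_le hd (j + 1 + (l + 1))
    have h2 := GG_le (j + 1) (l + 1)
    have e1 : l + (j + 3) = j + 1 + (l + 1) + 1 := by ring
    rw [e1]
    have e2 : GG (j + 1) * (1 / 100 : ℝ) ^ (l + 1) = (GG (j + 1) / 100) * (1 / 100 : ℝ) ^ l := by
      rw [pow_succ]; ring
    rw [e2] at h2
    have e3 : (2 * GG (j + 1) / 100) * (1 / 100 : ℝ) ^ l =
        2 * ((GG (j + 1) / 100) * (1 / 100 : ℝ) ^ l) := by ring
    rw [e3]
    linarith
  have h1 := hsE.tsum_le_tsum hle hs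
  rw [tsum_mul_left, tsum_geometric_of_lt_one (by norm_num) (by norm_num)] at h1
  have h2 := GG_pos (j + 1)
  have e4 : 2 * GG (j + 1) / 100 * (1 - 1 / 100 : ℝ)⁻¹ = GG (j + 1) * (2 / 99) := by
    norm_num
    ring
  rw [e4] at h1
  linarith


end Helper112.Kc
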