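import Pool.Agent.Helper112.Kc.Defs
import Pool.Agent.Helper112.Kc.JB6

set_option autoImplicit false

namespace Helper112.Kc

open Finset Filter Topology

/-! TO PROVE -/

theorem sm_NN_pos (j : ℕ) : 0 < NN j := by
  unfold NN; positivity

theorem sm_logNN_ge (j : ℕ) : 9 ≤ Real.log (NN j) := by
  have := LL_ge j
  unfold LL at this
  linarith

theorem sm_logNN_mono {i j : ℕ} (h : i ≤ j) : Real.log (NN i) ≤ Real.log (NN j) := by
  apply Real.log_le_log (sm_NN_pos i)
  unfold NN
  have : (i : ℝ) ≤ j := by exact_mod_cast h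
  linarith

theorem sm_log_GG (j : ℕ) : Real.log (GG j) = -(1 / 2) * ∑ i ∈ range j, Real.log (NN i) := by
  induction j with
  | zero => simp [GG]
  | succ n ih =>
    rw [GG_succ, Real.log_div (GG_pos n).ne' (by have := KK_ge n; linarith), ih, sum_range_succ]
    have : Real.log (KK n) = Real.log (NN n) / 2 := by
      unfold KK
      rw [Real.log_sqrt (sm_NN_pos n).le]
    rw [this]; ring

theorem sm_log_RR (d j : ℕ) : - Real.log (RR d j) ≤
    3 * ∑ l ∈ (range j).filter (fun l => l % d = j % d), Real.log (NN l) := by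
  unfold RR
  rw [Real.log_prod (fun l _ => by have := cc_pos l; positivity), ← Finset.sum_neg_distrib, Finset.mul_sum]
  apply Finset.sum_le_sum
  intro l _
  rw [Real.log_div (cc_pos l).ne' (by norm_num), log_cc]
  have h2 : Real.log 2 ≤ 1 := by
    have := Real.log_two_lt_d9; linarith
  have := sm_logNN_ge l
  unfold LL
  linarith

theorem sm_filter_succ {d : ℕ} (hd : 0 < d) (a : ℕ → ℝ) (j : ℕ) :
    ∑ l ∈ (range (j + d)).filter (fun l => l % d = (j + d) % d), a l =
      (∑ l ∈ (range j).filter (fun l => l % d = j % d), a l) + a j := by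
  have hset : (range (j + d)).filter (fun l => l % d = (j + d) % d) =
      insert j ((range j).filter (fun l => l % d = j % d)) := by
    ext l
    simp only [mem_filter, mem_range, mem_insert, Nat.add_mod_right]
    constructor
    · rintro ⟨h1, h2⟩
      by_cases hlt : l < j
      · exact Or.inr ⟨hlt, h2⟩
      · left
        push Not at hlt
        obtain ⟨t, rfl⟩ := Nat.exists_eq_add_of_le hlt
        have ht : t < d := by omega
        have hmod : (j + t) ≡ j + 0 [MOD d] := by simpa [Nat.ModEq] using h2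
        have h3 : t ≡ 0 [MOD d] := Nat.ModEq.add_left_cancel' j hmod
        have h4 : t = 0 := by
          have h5 : t % d = 0 % d := h3
          rwa [Nat.mod_eq_of_lt ht, Nat.zero_mod] at h5
        omega
    · rintro (rfl | ⟨h1, h2⟩)
      · exact ⟨by omega, rfl⟩
      · exact ⟨by omega, h2⟩
  rw [hset, Finset.sum_insert (by simp)]
  ring

theorem sm_block {d : ℕ} (hd : 0 < d) (j : ℕ) :
    (d : ℝ) * ∑ l ∈ (range j).filter (fun l => l % d = j % d), Real.log (NN l) ≤
      ∑ l ∈ range j, Real.log (NN l) := by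
  induction j using Nat.strong_induction_on with
  | _ j ih =>
    by_cases hj : j < d
    · have : (range j).filter (fun l => l % d = j % d) = ∅ := by
        apply Finset.filter_eq_empty_iff.mpr
        intro l hl h
        rw [mem_range] at hl
        rw [Nat.mod_eq_of_lt hj, Nat.mod_eq_of_lt (by omega)] at h
        omega
      rw [this]
      simp only [sum_empty, mul_zero]
      exact Finset.sum_nonneg (fun l _ => by have := sm_logNN_ge l; linarith)
    · push Not at hj
      obtain ⟨t, rfl⟩ := Nat.exists_eq_add_of_le' hj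
      have h1 := ih t (by omega)
      rw [sm_filter_succ hd]
      have h2 : ∑ l ∈ range (t + d), Real.log (NN l) =
          ∑ l ∈ range t, Real.log (NN l) + ∑ x ∈ range d, Real.log (NN (t + x)) :=
        Finset.sum_range_add _ t d
      rw [h2]
      have h3 : (d : ℝ) * Real.log (NN t) ≤ ∑ x ∈ range d, Real.log (NN (t + x)) := by
        have : ∑ x ∈ range d, Real.log (NN t) ≤ ∑ x ∈ range d, Real.log (NN (t + x)) :=
          Finset.sum_le_sum (fun x _ => sm_logNN_mono (by omega))
        simpa using this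
      nlinarith

theorem sm_S_ge (j : ℕ) : 9 * (j : ℝ) ≤ ∑ l ∈ range j, Real.log (NN l) := by
  have : ∑ l ∈ range j, (9 : ℝ) ≤ ∑ l ∈ range j, Real.log (NN l) :=
    Finset.sum_le_sum (fun l _ => sm_logNN_ge l)
  simp only [sum_const, card_range, nsmul_eq_mul] at this
  linarith

theorem sm_log_rr (d j : ℕ) : - Real.log (rr d j) =
    LL j - Real.log (RR d j) + 8 * LL j * KK j := by
  unfold rr
  rw [Real.log_mul (by have := cc_pos j; have := RR_pos d j; positivity) (Real.exp_pos _).ne',
    Real.log_mul (cc_pos j).ne' (RR_pos d j).ne', log_cc, Real.log_exp]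
  ring

theorem sm_eventually (k : ℕ) : ∀ᶠ j : ℕ in atTop,
    (k : ℝ) * (LL j + 8 * LL j * KK j) ≤ j := by
  filter_upwards [eventually_ge_atTop ((72 * k + 22) ^ 4)] with j hj
  set t : ℝ := Real.sqrt (Real.sqrt (NN j)) with ht
  have hN := sm_NN_pos j
  have hs : 0 ≤ Real.sqrt (NN j) := Real.sqrt_nonneg _
  have ht0 : 0 ≤ t := Real.sqrt_nonneg _
  have ht2 : t ^ 2 = Real.sqrt (NN j) := Real.sq_sqrt hs
  have ht4 : t ^ 4 = NN j := by
    have : t ^ 4 = (t ^ 2) ^ 2 := by ring
    rw [this, ht2, Real.sq_sqrt hN.le]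
  have htpos : 0 < t := by
    rw [ht]; positivity
  have hlog : Real.log (NN j) ≤ 4 * t := by
    rw [← ht4, Real.log_pow]
    have := Real.log_le_sub_one_of_pos htpos
    push_cast
    linarith
  have hj' : ((72 * k + 22 : ℕ) : ℝ) ^ 4 ≤ j := by exact_mod_cast hj
  have hlarge : (72 * k + 22 : ℝ) ≤ t := by
    have h4 : (72 * k + 22 : ℝ) ^ 4 ≤ t ^ 4 := by
      rw [ht4]; unfold NN
      push_cast at hj'
      linarith
    exact le_of_pow_le_pow_left₀ (by norm_num) ht0 h4
  have hK : KK j = t ^ 2 := by unfold KK; rw [ht2]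
  have hjt : (j : ℝ) = t ^ 4 - 10000 := by
    rw [ht4]; unfold NN; ring
  rw [hK, hjt]
  unfold LL
  have hk0 : (0 : ℝ) ≤ k := Nat.cast_nonneg k
  have ht22 : 22 ≤ t := by nlinarith
  have h1 : (2 * Real.log (NN j) + 8 * (2 * Real.log (NN j)) * t ^ 2) ≤ 72 * t ^ 3 := by
    have h10 : (2 * Real.log (NN j) + 8 * (2 * Real.log (NN j)) * t ^ 2) =
      Real.log (NN j) * (2 + 16 * t ^ 2) := by ring
    rw [h10]
    calc Real.log (NN j) * (2 + 16 * t ^ 2) ≤ 4 * t * (2 + 16 * t ^ 2) := by
          apply mul_le_mul_of_nonneg_right hlog; positivity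
      _ ≤ 72 * t ^ 3 := by nlinarith [mul_nonneg ht0 (by nlinarith : (0:ℝ) ≤ t ^ 2 - 1)]
  have h2 : (k : ℝ) * (2 * Real.log (NN j) + 8 * (2 * Real.log (NN j)) * t ^ 2) ≤ k * (72 * t ^ 3) :=
    mul_le_mul_of_nonneg_left h1 hk0
  have h3 : t ^ 4 - k * (72 * t ^ 3) = t ^ 3 * (t - 72 * k) := by ring
  have h4 : (22 : ℝ) ^ 3 ≤ t ^ 3 := by
    apply pow_le_pow_left₀ (by norm_num) ht22
  have h5 : (22 : ℝ) ^ 3 * 22 ≤ t ^ 3 * (t - 72 * k) := by
    apply mul_le_mul h4 (by linarith) (by norm_num) (by positivity)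
  norm_num at h5
  linarith

theorem summable_mass {k d : ℕ} (hk : 12 * k ≤ d) (hd : 3 ≤ d) (i : ℕ) (hi : i ≤ k) :
    Summable (fun j => mm j / (rr d j) ^ i) := by
  apply Summable.of_norm_bounded_eventually_nat Real.summable_exp_neg_nat
  filter_upwards [sm_eventually k] with j hj
  have hpos : 0 < mm j / (rr d j) ^ i := by
    have := mm_pos j; have := rr_pos d j; positivity
  rw [Real.norm_of_nonneg hpos.le]
  rw [← Real.log_le_iff_le_exp hpos]
  rw [Real.log_div (mm_pos j).ne' (by have := rr_pos d j; positivity), Real.log_pow]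
  have h1 : Real.log (mm j) ≤ Real.log (GG j) := Real.log_le_log (mm_pos j) (mm_le j)
  rw [sm_log_GG] at h1
  have h2 := sm_log_RR d j
  have h3 := sm_block (d := d) (by omega) j
  have h4 := sm_S_ge j
  have h5 := sm_log_rr d j
  set S := ∑ l ∈ range j, Real.log (NN l) with hS
  set T := ∑ l ∈ (range j).filter (fun l => l % d = j % d), Real.log (NN l) with hT
  have hT0 : 0 ≤ T := Finset.sum_nonneg (fun l _ => by have := sm_logNN_ge l; linarith)
  have hL : 18 ≤ LL j := LL_ge j
  have hK : 100 ≤ KK j := KK_ge j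
  have hik : (i : ℝ) ≤ k := by exact_mod_cast hi
  have hi0 : (0 : ℝ) ≤ i := Nat.cast_nonneg i
  have hkd : 12 * (k : ℝ) ≤ d := by exact_mod_cast hk
  have hA0 : 0 ≤ LL j + 8 * LL j * KK j := by nlinarith
  have hlogrr : - Real.log (rr d j) ≤ (LL j + 8 * LL j * KK j) + 3 * T := by linarith
  have h6 : (i : ℝ) * (- Real.log (rr d j)) ≤ k * ((LL j + 8 * LL j * KK j) + 3 * T) := by
    calc (i : ℝ) * (- Real.log (rr d j)) ≤ i * ((LL j + 8 * LL j * KK j) + 3 * T) :=
          mul_le_mul_of_nonneg_left hlogrr hi0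
      _ ≤ k * ((LL j + 8 * LL j * KK j) + 3 * T) :=
          mul_le_mul_of_nonneg_right hik (by positivity)
  have h7 : 12 * (k : ℝ) * T ≤ S := le_trans (mul_le_mul_of_nonneg_right hkd hT0) h3
  have h8 : (k : ℝ) * ((LL j + 8 * LL j * KK j) + 3 * T) =
    k * (LL j + 8 * LL j * KK j) + (12 * (k : ℝ) * T) / 4 := by ring
  rw [h8] at h6
  have hj0 : (0 : ℝ) ≤ j := Nat.cast_nonneg j
  linarith

end Helper112.Kc
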