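import Pool.Agent.Helper112.Kc.Defs

set_option autoImplicit false

namespace Helper112.Kc

open Finset Filter Topology

/-! TO PROVE -/

theorem nrm1_23163 {E : Type*} [NormedAddCommGroup E] [NormedSpace ℝ E] (f : E → ℝ) (x : E) :
    ‖fderiv ℝ f x‖ = ‖iteratedFDeriv ℝ 1 f x‖ := by
  rw [norm_iteratedFDeriv_one]

theorem nrm2_23163 {E : Type*} [NormedAddCommGroup E] [NormedSpace ℝ E] (f : E → ℝ) (x : E) :
    ‖fderiv ℝ (fderiv ℝ f) x‖ = ‖iteratedFDeriv ℝ 2 f x‖ := by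
  rw [← norm_iteratedFDeriv_fderiv, norm_iteratedFDeriv_one]

theorem gen_23163 {G : Type*} [NormedAddCommGroup G] [NormedSpace ℝ G] [CompleteSpace G]
    (f : ℕ → G) (u : ℕ → ℝ) (hu : Summable u) (hb : ∀ j, ‖f j‖ ≤ u j) : Summable f :=
  Summable.of_norm_bounded hu hb

theorem sum_23163 {E : Type*} [NormedAddCommGroup E] [NormedSpace ℝ E]
    (G : ℕ → (E →L[ℝ] E →L[ℝ] ℝ)) (u : ℕ → ℝ) (hu : Summable u)
    (hb : ∀ j, ‖G j‖ ≤ u j) : Summable G := by
  exact gen_23163 G u hu hb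

theorem app_23163 {E : Type*} [NormedAddCommGroup E] [NormedSpace ℝ E]
    (G : ℕ → (E →L[ℝ] E →L[ℝ] ℝ)) (hG : Summable G) (w : E) :
    Summable (fun j => G j w w) ∧ (∑' j, G j) w w = ∑' j, G j w w := by
  have h1 := hG.hasSum.mapL (ContinuousLinearMap.apply ℝ (E →L[ℝ] ℝ) w)
  have h2 := h1.mapL (ContinuousLinearMap.apply ℝ ℝ w)
  exact ⟨h2.summable, h2.tsum_eq.symm⟩

theorem aux_23163 {E : Type*} [NormedAddCommGroup E] [NormedSpace ℝ E]
    (F : ℕ → E → (E →L[ℝ] ℝ)) (hd : ∀ j, Differentiable ℝ (F j)) (u : ℕ → ℝ) (hu : Summable u)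
    (hb : ∀ j x, ‖fderiv ℝ (F j) x‖ ≤ u j) (h0 : Summable fun j => F j 0) (x w : E) :
    Summable (fun j => fderiv ℝ (F j) x w w) ∧
      fderiv ℝ (fun x => ∑' j, F j x) x w w = ∑' j, fderiv ℝ (F j) x w w := by
  have hC := fderiv_tsum_apply hu hd hb h0 x
  have h1 : ∀ j, ‖(fun j => fderiv ℝ (F j) x) j‖ ≤ u j := fun j => hb j x
  have hS := sum_23163 _ u hu h1
  rw [hC]
  exact app_23163 _ hS w

theorem tsum_contDiff {E : Type*} [NormedAddCommGroup E] [NormedSpace ℝ E] (k : ℕ) (hk : 2 ≤ k)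
    (f : ℕ → E → ℝ) (v : ℕ → ℕ → ℝ)
    (hf : ∀ j, ContDiff ℝ k (f j)) (h0 : Summable (fun j => f j 0))
    (hv : ∀ i, 1 ≤ i → i ≤ k → Summable (v i))
    (hb : ∀ i j x, 1 ≤ i → i ≤ k → ‖iteratedFDeriv ℝ i (f j) x‖ ≤ v i j) :
    (∀ x, Summable (fun j => f j x)) ∧ ContDiff ℝ k (fun x => ∑' j, f j x) ∧
    (∀ x, ‖fderiv ℝ (fun x => ∑' j, f j x) x‖ ≤ ∑' j, v 1 j) ∧
    (∀ x w, Summable (fun j => fderiv ℝ (fderiv ℝ (f j)) x w w) ∧
      fderiv ℝ (fderiv ℝ (fun x => ∑' j, f j x)) x w w = ∑' j, fderiv ℝ (fderiv ℝ (f j)) x w w) := by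
  obtain ⟨n, rfl⟩ : ∃ n, k = n + 1 := ⟨k - 1, by omega⟩
  have hf' : ∀ j, ContDiff ℝ ((n : WithTop ℕ∞) + 1) (f j) := by
    intro j
    have := hf j
    rw [Nat.cast_add, Nat.cast_one] at this
    exact this
  have hdiff : ∀ j, Differentiable ℝ (f j) := fun j => (contDiff_succ_iff_fderiv.1 (hf' j)).1
  have hfd : ∀ j, ContDiff ℝ (n : WithTop ℕ∞) (fderiv ℝ (f j)) := fun j =>
    (contDiff_succ_iff_fderiv.1 (hf' j)).2.2
  have hn : 1 ≤ n := by omega
  have hdiff2 : ∀ j, Differentiable ℝ (fderiv ℝ (f j)) := by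
    intro j
    apply (hfd j).differentiable
    have : n ≠ 0 := by omega
    exact_mod_cast this
  have hb1 : ∀ j x, ‖fderiv ℝ (f j) x‖ ≤ v 1 j := by
    intro j x
    rw [nrm1_23163]
    exact hb 1 j x le_rfl (by omega)
  have hb2 : ∀ j x, ‖fderiv ℝ (fderiv ℝ (f j)) x‖ ≤ v 2 j := by
    intro j x
    rw [nrm2_23163]
    exact hb 2 j x (by omega) hk
  have hv1 := hv 1 le_rfl (by omega)
  have hv2 := hv 2 (by omega) hk
  have hA : ∀ x, HasFDerivAt (fun x => ∑' j, f j x) (∑' j, fderiv ℝ (f j) x) x :=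
    hasFDerivAt_tsum hv1 (fun j x => (hdiff j x).hasFDerivAt) hb1 h0
  have hB : fderiv ℝ (fun x => ∑' j, f j x) = fun x => ∑' j, fderiv ℝ (f j) x := by
    funext x
    exact (hA x).fderiv
  refine ⟨?_, ?_, ?_, ?_⟩
  · exact summable_of_summable_hasFDerivAt hv1 (fun j x => (hdiff j x).hasFDerivAt) hb1 h0
  · rw [Nat.cast_add, Nat.cast_one]
    rw [contDiff_succ_iff_fderiv]
    refine ⟨fun x => (hA x).differentiableAt, ?_, ?_⟩
    · intro h
      exact absurd h (by simp)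
    · rw [hB]
      have h1 := contDiff_tsum (𝕜 := ℝ) (N := (n : ℕ∞)) (f := fun j x => fderiv ℝ (f j) x)
        (v := fun i j => v (i + 1) j) ?_ ?_ ?_
      · exact_mod_cast h1
      · intro j
        exact_mod_cast hfd j
      · intro i hi
        have hi' : i ≤ n := by exact_mod_cast hi
        exact hv (i + 1) (by omega) (by omega)
      · intro i j x hi
        have hi' : i ≤ n := by exact_mod_cast hi
        have h2 := hb (i + 1) j x (by omega) (by omega)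
        rw [← norm_iteratedFDeriv_fderiv] at h2
        exact h2
  · intro x
    rw [hB]
    exact tsum_of_norm_bounded hv1.hasSum (hb1 · x)
  · intro x w
    have hs0 : Summable (fun j => fderiv ℝ (f j) 0) := Summable.of_norm_bounded hv1 (hb1 · 0)
    rw [hB]
    exact aux_23163 (fun j => fderiv ℝ (f j)) hdiff2 (v 2) hv2 hb2 hs0 x w

end Helper112.Kc
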