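import Pool.Agent.Helper112.Kc.Defs

set_option autoImplicit false

namespace Helper112.Kc

open Finset Filter Topology

/-! TO PROVE -/

/-- one term: smoothness, bounds, Levi form -/
theorem term_facts (Λ : ℂ → ℝ) (hΛ : IsLam Λ) {n : ℕ} (i0 : Fin n) (a : ℂ) (r m b : ℝ)
    (hr : 0 < r) (hm : 0 ≤ m) :
    let F : EuclideanSpace ℂ (Fin n) → ℝ := fun p => m * (Λ ((p i0 - a) / (r : ℂ)) + b)
    ContDiff ℝ ((⊤ : ℕ∞) : WithTop ℕ∞) F ∧
    (∀ (i : ℕ) (C : ℝ), 1 ≤ i → 0 ≤ C → (∀ w, ‖iteratedFDeriv ℝ i Λ w‖ ≤ C) →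
      ∀ p, ‖iteratedFDeriv ℝ i F p‖ ≤ C * (m / r ^ i)) ∧
    (∀ p w, 0 ≤ fderiv ℝ (fderiv ℝ F) p w w
        + fderiv ℝ (fderiv ℝ F) p (Complex.I • w) (Complex.I • w)) := by
  intro F
  -- the real linear map `p ↦ p i0 / r`
  let L0 : EuclideanSpace ℂ (Fin n) →ₗ[ℝ] ℂ :=
    { toFun := fun p => p i0 / (r : ℂ)
      map_add' := by intro p q; simp [add_div]
      map_smul' := by
        intro c p
        simp only [PiLp.smul_apply, RingHom.id_apply, Complex.real_smul]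
        ring }
  have hL0 : ∀ p, ‖L0 p‖ ≤ (1 / r) * ‖p‖ := by
    intro p
    show ‖p i0 / (r : ℂ)‖ ≤ (1 / r) * ‖p‖
    rw [norm_div, Complex.norm_real, Real.norm_eq_abs, abs_of_pos hr, div_eq_mul_one_div, mul_comm]
    exact mul_le_mul_of_nonneg_left (PiLp.norm_apply_le p i0) (by positivity)
  let L : EuclideanSpace ℂ (Fin n) →L[ℝ] ℂ := L0.mkContinuous (1 / r) hL0
  have hLapp : ∀ p, L p = p i0 / (r : ℂ) := fun p => rfl
  have hLn : ‖L‖ ≤ 1 / r := LinearMap.mkContinuous_norm_le _ (by positivity) _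
  set c0 : ℂ := -a / (r : ℂ) with hc0
  have hA : ∀ p : EuclideanSpace ℂ (Fin n), (p i0 - a) / (r : ℂ) = L p + c0 := by
    intro p
    rw [hLapp, hc0]; ring
  have hF : F = fun p => m * (Λ (L p + c0) + b) := by
    funext p
    show m * (Λ ((p i0 - a) / (r : ℂ)) + b) = _
    rw [hA]
  have hAs : ContDiff ℝ ((⊤ : ℕ∞) : WithTop ℕ∞) (fun p : EuclideanSpace ℂ (Fin n) => L p + c0) :=
    L.contDiff.add contDiff_const
  refine ⟨?_, ?_, ?_⟩
  · rw [hF]
    exact contDiff_const.mul ((hΛ.smooth.comp hAs).add contDiff_const)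
  · intro i C hi hC hb p
    -- `F = G ∘ L`
    let G : ℂ → ℝ := m • ((fun w : ℂ => Λ (w + c0)) + fun _ => b)
    have hFG : F = G ∘ L := by rw [hF]; rfl
    have hG0 : ContDiff ℝ ((⊤ : ℕ∞) : WithTop ℕ∞) (fun w : ℂ => Λ (w + c0)) :=
      hΛ.smooth.comp (contDiff_id.add contDiff_const)
    have hG1 : ContDiff ℝ ((⊤ : ℕ∞) : WithTop ℕ∞) ((fun w : ℂ => Λ (w + c0)) + fun _ => b) :=
      hG0.add contDiff_const
    have hGs : ContDiff ℝ ((⊤ : ℕ∞) : WithTop ℕ∞) G := hG1.const_smul m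
    have hle : ((i : ℕ) : WithTop ℕ∞) ≤ ((⊤ : ℕ∞) : WithTop ℕ∞) := by
      exact_mod_cast le_top
    have hGn : ‖iteratedFDeriv ℝ i G (L p)‖ ≤ m * C := by
      have h1 : iteratedFDeriv ℝ i G (L p) = m • iteratedFDeriv ℝ i Λ (L p + c0) := by
        have e1 : iteratedFDeriv ℝ i G (L p) =
            m • iteratedFDeriv ℝ i ((fun w : ℂ => Λ (w + c0)) + fun _ => b) (L p) :=
          iteratedFDeriv_const_smul_apply ((hG1.of_le hle).contDiffAt)
        rw [e1, iteratedFDeriv_add_apply ((hG0.of_le hle).contDiffAt)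
          (contDiff_const.contDiffAt), iteratedFDeriv_const_of_ne (by omega)]
        have e2 := iteratedFDeriv_comp_add_right (𝕜 := ℝ) (f := Λ) i c0 (L p)
        rw [e2]
        simp
      rw [h1, norm_smul, Real.norm_eq_abs, abs_of_nonneg hm]
      exact mul_le_mul_of_nonneg_left (hb _) hm
    rw [hFG, L.iteratedFDeriv_comp_right hGs p hle]
    refine (ContinuousMultilinearMap.norm_compContinuousLinearMap_le _ _).trans ?_
    rw [Finset.prod_const, Finset.card_univ, Fintype.card_fin]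
    calc ‖iteratedFDeriv ℝ i G (L p)‖ * ‖L‖ ^ i ≤ (m * C) * (1 / r) ^ i :=
          mul_le_mul hGn (pow_le_pow_left₀ (norm_nonneg _) hLn i) (by positivity) (by positivity)
      _ = C * (m / r ^ i) := by rw [one_div, inv_pow]; ring
  · intro p w
    let T : (ℂ →L[ℝ] ℝ) →L[ℝ] (EuclideanSpace ℂ (Fin n) →L[ℝ] ℝ) :=
      (ContinuousLinearMap.compL ℝ (EuclideanSpace ℂ (Fin n)) ℂ ℝ).flip L
    have hT : ∀ B v, T B v = B (L v) := fun B v => rfl
    have hΛd : Differentiable ℝ Λ := hΛ.smooth.differentiable (by simp)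
    have hΛs1 : ContDiff ℝ ((⊤ : ℕ∞) : WithTop ℕ∞) (fderiv ℝ Λ) :=
      hΛ.smooth.fderiv_right (m := ((⊤ : ℕ∞) : WithTop ℕ∞)) (by simp)
    have hΛd1 : Differentiable ℝ (fderiv ℝ Λ) := hΛs1.differentiable (by simp)
    have hAd : ∀ p, HasFDerivAt (fun p : EuclideanSpace ℂ (Fin n) => L p + c0) L p := fun p =>
      L.hasFDerivAt.add_const c0
    have h1 : fderiv ℝ F = fun p => m • T (fderiv ℝ Λ (L p + c0)) := by
      funext p
      rw [hF]
      have e1 : HasFDerivAt (fun p => Λ (L p + c0)) ((fderiv ℝ Λ (L p + c0)).comp L) p :=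
        ((hΛd (L p + c0)).hasFDerivAt).comp p (hAd p)
      have e2 : HasFDerivAt (fun p => m * (Λ (L p + c0) + b))
          (m • ((fderiv ℝ Λ (L p + c0)).comp L)) p := (e1.add_const b).const_mul m
      rw [e2.fderiv]
      rfl
    have h2 : ∀ p v v', fderiv ℝ (fderiv ℝ F) p v v' =
        m * (fderiv ℝ (fderiv ℝ Λ) (L p + c0) (L v)) (L v') := by
      intro p v v'
      rw [h1]
      have e1 : HasFDerivAt (fun p => fderiv ℝ Λ (L p + c0))
          ((fderiv ℝ (fderiv ℝ Λ) (L p + c0)).comp L) p :=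
        ((hΛd1 (L p + c0)).hasFDerivAt).comp p (hAd p)
      have e2 : HasFDerivAt (fun p => m • T (fderiv ℝ Λ (L p + c0)))
          (m • (T.comp ((fderiv ℝ (fderiv ℝ Λ) (L p + c0)).comp L))) p :=
        (T.hasFDerivAt.comp p e1).const_smul m
      rw [e2.fderiv]
      rfl
    rw [h2, h2, ← mul_add]
    have hI : L (Complex.I • w) = Complex.I * L w := by
      rw [hLapp, hLapp, PiLp.smul_apply, smul_eq_mul]
      ring
    rw [hI]
    exact mul_nonneg hm (hΛ.sh _ _)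

end Helper112.Kc
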