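import Pool.Agent.Helper112.Kc.Defs
import Pool.Agent.Helper112.Kc.JB4
import Pool.Agent.Helper112.Kc.JB7

set_option autoImplicit false

namespace Helper112.Kc

open Finset Filter Topology

/-! TO PROVE -/

theorem summable_FF_pp_nonneg (d j : ℕ) : 0 ≤ pp d j := by
  unfold pp
  exact Finset.sum_nonneg (fun l _ => mul_nonneg (cc_pos l).le (RR_pos d l).le)

theorem summable_FF_pp_le {d : ℕ} (hd : 0 < d) (j : ℕ) : pp d j ≤ 1 := by
  have hz : ∀ l, l < d → pp d l = 0 := by
    intro l hl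
    unfold pp
    apply Finset.sum_eq_zero
    intro i hi
    exfalso
    rw [Finset.mem_filter, Finset.mem_range] at hi
    rw [Nat.mod_eq_of_lt hl, Nat.mod_eq_of_lt (hi.1.trans hl)] at hi
    omega
  by_cases h : j < d
  · rw [hz j h]; norm_num
  · have hl : j % d < d := Nat.mod_lt j hd
    have h1 := (pp_sub (d := d) (l := j % d) (j := j) hd (by omega) (Nat.mod_mod j d)).2
    rw [hz _ hl] at h1
    have h2 : cc (j % d) * RR d (j % d) ≤ 1 / 100000000 * 1 :=
      mul_le_mul (cc_le _) (RR_le_one d _) (RR_pos d _).le (by norm_num)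
    linarith

theorem summable_FF (Λ : ℂ → ℝ) (hΛ : IsLam Λ) {d : ℕ} (hd : 3 ≤ d) (w : ℕ → ℂ) (M : ℝ)
    (hw : ∀ j, ‖w j‖ ≤ M) : Summable (fun j => FF Λ d j (w j)) := by
  have hM : 0 ≤ M := (norm_nonneg _).trans (hw 0)
  refine Summable.of_norm_bounded (g := fun j => (M + 1) * EE d j) ((summable_EE hd).mul_left _) ?_
  intro j
  have hr := rr_pos d j
  have hr1 : rr d j ≤ 1 := by
    have h2 : cc j * RR d j ≤ 1 / 100000000 * 1 :=
      mul_le_mul (cc_le _) (RR_le_one d _) (RR_pos d _).le (by norm_num)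
    have := rr_le d j
    linarith
  have hlog : Real.log (rr d j) ≤ 0 := Real.log_nonpos hr.le hr1
  have hp0 := summable_FF_pp_nonneg d j
  have hp1 := summable_FF_pp_le (d := d) (by omega) j
  have hm := mm_pos j
  have key : |Λ ((w j - (pp d j : ℂ)) / (rr d j : ℂ)) + Real.log (rr d j)|
      ≤ (M + 1) * (1 - Real.log (rr d j)) := by
    have hx : ‖(w j - (pp d j : ℂ)) / (rr d j : ℂ)‖ = ‖w j - (pp d j : ℂ)‖ / rr d j := by
      rw [norm_div, Complex.norm_real, Real.norm_eq_abs, abs_of_pos hr]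
    have hMl : 0 ≤ M * (1 - Real.log (rr d j)) := mul_nonneg hM (by linarith)
    by_cases hc : ‖(w j - (pp d j : ℂ)) / (rr d j : ℂ)‖ < 1
    · have h1 := hΛ.le0 _ hc.le
      have h2 := hΛ.min0 ((w j - (pp d j : ℂ)) / (rr d j : ℂ))
      have h3 := hΛ.lo
      rw [abs_le]
      constructor
      · nlinarith
      · nlinarith
    · have hc' : 1 ≤ ‖(w j - (pp d j : ℂ)) / (rr d j : ℂ)‖ := not_lt.mp hc
      have h1 := hΛ.eq_log _ hc'
      rw [hx] at hc' h1
      have hge : rr d j ≤ ‖w j - (pp d j : ℂ)‖ := by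
        rw [le_div_iff₀ hr] at hc'
        linarith
      have hpos : 0 < ‖w j - (pp d j : ℂ)‖ := hr.trans_le hge
      rw [Real.log_div hpos.ne' hr.ne'] at h1
      rw [h1]
      have h4 : Real.log ‖w j - (pp d j : ℂ)‖ - Real.log (rr d j) + Real.log (rr d j)
          = Real.log ‖w j - (pp d j : ℂ)‖ := by ring
      rw [h4]
      have h5 : Real.log (rr d j) ≤ Real.log ‖w j - (pp d j : ℂ)‖ := Real.log_le_log hr hge
      have h6 : Real.log ‖w j - (pp d j : ℂ)‖ ≤ ‖w j - (pp d j : ℂ)‖ - 1 :=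
        Real.log_le_sub_one_of_pos hpos
      have h7 : ‖w j - (pp d j : ℂ)‖ ≤ M + 1 := by
        refine (norm_sub_le _ _).trans ?_
        rw [Complex.norm_real, Real.norm_eq_abs, abs_of_nonneg hp0]
        exact add_le_add (hw j) hp1
      rw [abs_le]
      constructor
      · nlinarith
      · nlinarith
  unfold FF EE
  rw [Real.norm_eq_abs, abs_mul, abs_of_pos hm]
  calc mm j * |Λ ((w j - (pp d j : ℂ)) / (rr d j : ℂ)) + Real.log (rr d j)|
      ≤ mm j * ((M + 1) * (1 - Real.log (rr d j))) := mul_le_mul_of_nonneg_left key hm.le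
    _ = (M + 1) * (mm j * (1 - Real.log (rr d j))) := by ring

end Helper112.Kc
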