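import Pool.Agent.Helper112.Kc.Defs
import Pool.Agent.Helper112.Kc.JB7

set_option autoImplicit false

namespace Helper112.Kc

open Finset Filter Topology

/-! TO PROVE -/

/-- sums over a class are bounded by tails -/
theorem class_sums {d : ℕ} (hd : 3 ≤ d) (j : ℕ) :
    Summable (fun q : ℕ => EE d (j + (q + 1) * d)) ∧
    Summable (fun q : ℕ => mm (j + (q + 1) * d) * (LL j + Real.log 2)) ∧
    ∑' q : ℕ, EE d (j + (q + 1) * d) ≤ GG (j + 1) / 20 ∧
    ∑' q : ℕ, mm (j + (q + 1) * d) * (LL j + Real.log 2) ≤ GG (j + 1) / 20 := by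
  have hinj : Function.Injective (fun q : ℕ => (q + 1) * d - 3) := by
    intro a b hab
    simp only at hab
    have h1 : 3 ≤ (a + 1) * d := le_trans hd (Nat.le_mul_of_pos_left d (by omega))
    have h2 : 3 ≤ (b + 1) * d := le_trans hd (Nat.le_mul_of_pos_left d (by omega))
    have h3 : (a + 1) * d = (b + 1) * d := by omega
    have h4 := Nat.eq_of_mul_eq_mul_right (by omega : 0 < d) h3
    omega
  have hidx : ∀ q : ℕ, ((q + 1) * d - 3) + (j + 3) = j + (q + 1) * d := by
    intro q
    have h1 : 3 ≤ (q + 1) * d := le_trans hd (Nat.le_mul_of_pos_left d (by omega))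
    omega
  have hE0 : ∀ l, 0 ≤ EE d l := fun l => (GG_pos l).le.trans (GG_le_EE d l)
  have hs : Summable (fun l => EE d (l + (j + 3))) := (summable_nat_add_iff (j + 3)).2 (summable_EE hd)
  have hs1 : Summable (fun q : ℕ => EE d (j + (q + 1) * d)) := by
    have := hs.comp_injective hinj
    refine this.congr (fun q => ?_)
    show EE d (((q + 1) * d - 3) + (j + 3)) = _
    rw [hidx]
  have ht1 : ∑' q : ℕ, EE d (j + (q + 1) * d) ≤ GG (j + 1) / 20 := by
    have h1 := tsum_comp_le_tsum_of_inj hs (fun l => hE0 _) hinj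
    have h2 : (∑' q : ℕ, EE d (j + (q + 1) * d)) = tsum ((fun l => EE d (l + (j + 3))) ∘ (fun q : ℕ => (q + 1) * d - 3)) := by
      refine tsum_congr (fun q => ?_)
      show _ = EE d (((q + 1) * d - 3) + (j + 3))
      rw [hidx]
    rw [h2]
    exact h1.trans (EE_tail hd j)
  have hlog : Real.log 2 ≤ 18 := by
    have := Real.log_two_lt_d9
    linarith
  have hlog0 : 0 ≤ Real.log 2 := Real.log_nonneg (by norm_num)
  have hle : ∀ q : ℕ, mm (j + (q + 1) * d) * (LL j + Real.log 2) ≤ EE d (j + (q + 1) * d) := by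
    intro q
    set l := j + (q + 1) * d with hl
    have h1 : LL j + Real.log 2 ≤ 2 * LL l := by
      have := LL_mono (show j ≤ l by omega)
      have := LL_ge l
      linarith
    have h2 := mm_LL l
    have h3 := GG_le l 1
    have h4 := GG_pos l
    have h5 := mul_le_mul_of_nonneg_left h1 (mm_pos l).le
    have h6 : mm l * (2 * LL l) = GG (l + 1) / 4 := by
      linarith
    rw [h6] at h5
    refine (h5.trans ?_).trans (GG_le_EE d l)
    norm_num at h3
    linarith
  have h0 : ∀ q : ℕ, 0 ≤ mm (j + (q + 1) * d) * (LL j + Real.log 2) := by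
    intro q
    have := LL_ge j
    exact mul_nonneg (mm_pos _).le (by linarith)
  have hs2 : Summable (fun q : ℕ => mm (j + (q + 1) * d) * (LL j + Real.log 2)) :=
    Summable.of_nonneg_of_le h0 hle hs1
  exact ⟨hs1, hs2, ht1, (hs2.tsum_le_tsum hle hs1).trans ht1⟩
end Helper112.Kc
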