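import Pool.Agent.Helper112.Kc.Defs
import Pool.Agent.Helper112.Kc.JC3
import Pool.Agent.Helper112.Kc.JD4

set_option autoImplicit false

namespace Helper112.Kc

open Finset Filter Topology

/-! TO PROVE -/

theorem VV_upper_lam (Λ : ℂ → ℝ) (hΛ : IsLam Λ) (z : ℂ) (M : ℝ) (hM : 1 ≤ M) (hz : ‖z‖ ≤ M) :
    Λ z ≤ Real.log M := by
  rcases le_total ‖z‖ 1 with h | h
  · exact (hΛ.le0 z h).trans (Real.log_nonneg hM)
  · rw [hΛ.eq_log z h]
    exact Real.log_le_log (by linarith) hz

theorem VV_upper_first (Λ : ℂ → ℝ) (hΛ : IsLam Λ) {d : ℕ} (j : ℕ) (lam : ℂ)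
    (hl : ‖lam‖ ≤ 1) :
    FF Λ d j ((pp d j : ℂ) + (RR d j : ℂ) * lam) - FF Λ d j (pp d j : ℂ) ≤
      mm j * (Real.log (RR d j) - Real.log (rr d j) - Λ 0) := by
  have hR := RR_pos d j
  have hr := rr_pos d j
  have hrR : rr d j ≤ RR d j := by
    have h1 := rr_le d j
    have h2 := cc_le j
    have h3 := cc_pos j
    nlinarith
  unfold FF
  rw [← mul_sub]
  apply mul_le_mul_of_nonneg_left _ (mm_pos j).le
  rw [sub_self, zero_div, add_sub_cancel_left]
  have h1 : Λ ((RR d j : ℂ) * lam / (rr d j : ℂ)) ≤ Real.log (RR d j / rr d j) := by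
    apply VV_upper_lam Λ hΛ
    · rw [one_le_div hr]
      exact hrR
    · rw [norm_div, norm_mul, Complex.norm_real, Complex.norm_real, Real.norm_of_nonneg hR.le,
        Real.norm_of_nonneg hr.le]
      apply div_le_div_of_nonneg_right _ hr.le
      nlinarith
  rw [Real.log_div hR.ne' hr.ne'] at h1
  linarith

theorem VV_upper_next (Λ : ℂ → ℝ) (hΛ : IsLam Λ) {d : ℕ} (hd : 0 < d) (j l : ℕ) (hjl : j < l)
    (hc : j % d = l % d) (lam : ℂ) (hl : ‖lam‖ ≤ 1) :
    FF Λ d l ((pp d j : ℂ) + (RR d j : ℂ) * lam) - FF Λ d l (pp d j : ℂ) ≤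
      mm l * (LL j + Real.log 2) := by
  have hR := RR_pos d j
  have hRl := RR_pos d l
  have hr := rr_pos d l
  have hcj := cc_pos j
  have hcj1 := cc_le j
  have hcl := cc_pos l
  have hcl1 := cc_le l
  have hRR := RR_lt hjl hc
  obtain ⟨hp1, hp2⟩ := pp_sub hd hjl hc
  have hrl := rr_le d l
  have hcR : 0 < cc j * RR d j := mul_pos hcj hR
  have hrc : rr d l ≤ cc j * RR d j := by
    have h1 : cc l * RR d l / 2 ≤ RR d l := by nlinarith
    linarith
  have hcRR : cc j * RR d j ≤ RR d j / 4 := by nlinarith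
  have hpabs : |pp d l - pp d j| ≤ 2 * (cc j * RR d j) := by
    rw [abs_of_nonneg (by linarith)]
    exact hp2
  unfold FF
  rw [← mul_sub]
  apply mul_le_mul_of_nonneg_left _ (mm_pos l).le
  have h1 : Λ (((pp d j : ℂ) + (RR d j : ℂ) * lam - (pp d l : ℂ)) / (rr d l : ℂ))
      ≤ Real.log (2 * RR d j / rr d l) := by
    apply VV_upper_lam Λ hΛ
    · rw [one_le_div hr]
      linarith
    · rw [norm_div, Complex.norm_real, Real.norm_of_nonneg hr.le]
      apply div_le_div_of_nonneg_right _ hr.le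
      have e1 : (pp d j : ℂ) + (RR d j : ℂ) * lam - (pp d l : ℂ)
          = (RR d j : ℂ) * lam - ((pp d l - pp d j : ℝ) : ℂ) := by
        push_cast
        ring
      rw [e1]
      calc ‖(RR d j : ℂ) * lam - ((pp d l - pp d j : ℝ) : ℂ)‖
          ≤ ‖(RR d j : ℂ) * lam‖ + ‖((pp d l - pp d j : ℝ) : ℂ)‖ := norm_sub_le _ _
        _ ≤ RR d j * 1 + 2 * (cc j * RR d j) := by
            rw [norm_mul, Complex.norm_real, Complex.norm_real, Real.norm_of_nonneg hR.le,
              Real.norm_eq_abs]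
            exact add_le_add (mul_le_mul_of_nonneg_left hl hR.le) hpabs
        _ ≤ 2 * RR d j := by linarith
  have h2 : Real.log (cc j * RR d j / rr d l) ≤ Λ (((pp d j : ℂ) - (pp d l : ℂ)) / (rr d l : ℂ)) := by
    have hn : cc j * RR d j / rr d l ≤ ‖((pp d j : ℂ) - (pp d l : ℂ)) / (rr d l : ℂ)‖ := by
      rw [norm_div, Complex.norm_real, Real.norm_of_nonneg hr.le]
      apply div_le_div_of_nonneg_right _ hr.le
      rw [← Complex.ofReal_sub, Complex.norm_real, Real.norm_eq_abs, abs_sub_comm,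
        abs_of_nonneg (by linarith)]
      exact hp1
    have hone : 1 ≤ cc j * RR d j / rr d l := by
      rw [one_le_div hr]
      exact hrc
    rw [hΛ.eq_log _ (hone.trans hn)]
    exact Real.log_le_log (by linarith) hn
  rw [Real.log_div (by positivity) hr.ne', Real.log_mul (by norm_num) hR.ne'] at h1
  rw [Real.log_div hcR.ne' hr.ne', Real.log_mul hcj.ne' hR.ne', log_cc] at h2
  linarith

theorem VV_upper (Λ : ℂ → ℝ) (hΛ : IsLam Λ) {d : ℕ} (hd : 3 ≤ d) (j : ℕ) (lam : ℂ)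
    (hl : ‖lam‖ ≤ 1) :
    VV Λ d j ((pp d j : ℂ) + (RR d j : ℂ) * lam) ≤
      mm j * (Real.log (RR d j) - Real.log (rr d j) - Λ 0)
        + ∑' q : ℕ, mm (j + (q + 1) * d) * (LL j + Real.log 2) := by
  have hd0 : 0 < d := by omega
  have hinj : Function.Injective (fun q : ℕ => j + q * d) := by
    intro a b h
    have h1 : a * d = b * d := by
      have : j + a * d = j + b * d := h
      omega
    exact Nat.eq_of_mul_eq_mul_right hd0 h1
  have hs1 : Summable (fun q : ℕ => FF Λ d (j + q * d) ((pp d j : ℂ) + (RR d j : ℂ) * lam)) :=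
    (summable_FF Λ hΛ hd (fun _ => (pp d j : ℂ) + (RR d j : ℂ) * lam) _
      (fun _ => le_rfl)).comp_injective hinj
  have hs2 : Summable (fun q : ℕ => FF Λ d (j + q * d) (pp d j : ℂ)) :=
    (summable_FF Λ hΛ hd (fun _ => (pp d j : ℂ)) _ (fun _ => le_rfl)).comp_injective hinj
  have hs := hs1.sub hs2
  obtain ⟨-, hc2, -, -⟩ := class_sums hd j
  unfold VV
  rw [hs.tsum_eq_zero_add]
  apply add_le_add
  · rw [zero_mul, add_zero]
    exact VV_upper_first Λ hΛ j lam hl
  · apply Summable.tsum_le_tsum _ ((summable_nat_add_iff 1).mpr hs) hc2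
    intro q
    apply VV_upper_next Λ hΛ hd0 j (j + (q + 1) * d) _ _ lam hl
    · have : 0 < (q + 1) * d := by positivity
      omega
    · rw [Nat.add_mul_mod_self_right]

end Helper112.Kc
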