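import Pool.Agent.Helper112.Kc.Defs
import Pool.Agent.Helper112.Kc.JC3
import Pool.Agent.Helper112.Kc.JD4

set_option autoImplicit false

namespace Helper112.Kc

open Finset Filter Topology

/-! TO PROVE -/

theorem Dl_lower (Λ : ℂ → ℝ) (hΛ : IsLam Λ) {d : ℕ} (hd : 3 ≤ d) (j : ℕ) :
    mm j * (Real.log (cc j * RR d j) - Real.log (rr d j) - Λ 0)
      - ∑' q : ℕ, EE d (j + (q + 1) * d) ≤ Dl Λ d j := by
  have hd0 : 0 < d := by omega
  have hinj : Function.Injective (fun q : ℕ => j + q * d) := by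
    intro a b hab
    have h1 : a * d = b * d := by simpa using hab
    exact Nat.eq_of_mul_eq_mul_right hd0 h1
  -- summability
  have hS : ∀ c : ℂ, Summable (fun q : ℕ => FF Λ d (j + q * d) c) := by
    intro c
    exact (summable_FF Λ hΛ hd (fun _ => c) ‖c‖ (fun _ => le_refl _)).comp_injective hinj
  have hT : Summable (fun q : ℕ => FF Λ d (j + q * d) ((pp d (j + d) : ℝ) : ℂ)
      - FF Λ d (j + q * d) ((pp d j : ℝ) : ℂ)) := (hS _).sub (hS _)
  have hccp := cc_pos j
  have hRRp := RR_pos d j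
  have hrrp := rr_pos d j
  have hcRp : 0 < cc j * RR d j := mul_pos hccp hRRp
  -- zeroth term
  have h0 : FF Λ d (j + 0 * d) ((pp d (j + d) : ℝ) : ℂ)
      - FF Λ d (j + 0 * d) ((pp d j : ℝ) : ℂ)
      = mm j * (Real.log (cc j * RR d j) - Real.log (rr d j) - Λ 0) := by
    have hj : j + 0 * d = j := by ring
    rw [hj]
    unfold FF
    have e1 : (((pp d (j + d) : ℝ) : ℂ) - ((pp d j : ℝ) : ℂ)) / ((rr d j : ℝ) : ℂ)
        = (((cc j * RR d j) / rr d j : ℝ) : ℂ) := by
      rw [pp_add hd0 j]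
      push_cast
      ring
    have e2 : (((pp d j : ℝ) : ℂ) - ((pp d j : ℝ) : ℂ)) / ((rr d j : ℝ) : ℂ) = 0 := by
      rw [sub_self, zero_div]
    have hge : 1 ≤ (cc j * RR d j) / rr d j := by
      rw [le_div_iff₀ hrrp]
      have := rr_le d j
      linarith
    have e3 : Λ (((cc j * RR d j) / rr d j : ℝ) : ℂ)
        = Real.log (cc j * RR d j) - Real.log (rr d j) := by
      have hn : ‖(((cc j * RR d j) / rr d j : ℝ) : ℂ)‖ = (cc j * RR d j) / rr d j := by
        rw [Complex.norm_real, Real.norm_eq_abs, abs_of_nonneg (by linarith)]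
      rw [hΛ.eq_log _ (by rw [hn]; exact hge), hn, Real.log_div hcRp.ne' hrrp.ne']
    rw [e1, e2, e3]
    ring
  -- other terms
  have h1 : ∀ q : ℕ, - EE d (j + (q + 1) * d) ≤
      FF Λ d (j + (q + 1) * d) ((pp d (j + d) : ℝ) : ℂ)
      - FF Λ d (j + (q + 1) * d) ((pp d j : ℝ) : ℂ) := by
    intro q
    have hlt : j < j + (q + 1) * d := by
      have : 0 < (q + 1) * d := Nat.mul_pos (Nat.succ_pos q) hd0
      omega
    have hmod : j % d = (j + (q + 1) * d) % d := by
      rw [Nat.add_mul_mod_self_right]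
    have hRlt := RR_lt hlt hmod
    obtain ⟨hp1, hp2⟩ := pp_sub hd0 hlt hmod
    generalize j + (q + 1) * d = l at hlt hmod hRlt hp1 hp2 ⊢
    have hml := mm_pos l
    have hrl := rr_pos d l
    have hrl2 := rr_le d l
    have hcl := cc_le l
    have hclp := cc_pos l
    have hRl := RR_pos d l
    have hcj := cc_le j
    have hRj := RR_le_one d j
    have hA : -EE d l ≤ FF Λ d l ((pp d (j + d) : ℝ) : ℂ) := by
      unfold EE FF
      have m1 := hΛ.min0 ((((pp d (j + d) : ℝ) : ℂ) - ((pp d l : ℝ) : ℂ)) / ((rr d l : ℝ) : ℂ))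
      have m2 := hΛ.lo
      have : mm l * (-1 + Real.log (rr d l)) ≤
        mm l * (Λ ((((pp d (j + d) : ℝ) : ℂ) - ((pp d l : ℝ) : ℂ)) / ((rr d l : ℝ) : ℂ))
          + Real.log (rr d l)) := by
        apply mul_le_mul_of_nonneg_left _ hml.le
        linarith
      linarith
    have hB : FF Λ d l ((pp d j : ℝ) : ℂ) ≤ 0 := by
      unfold FF
      have hpos : 0 < pp d l - pp d j := by linarith
      have hle1 : pp d l - pp d j ≤ 1 := by
        have : cc j * RR d j ≤ (1 / 100000000) * 1 :=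
          mul_le_mul hcj hRj hRRp.le (by norm_num)
        linarith
      have hrle : rr d l ≤ pp d l - pp d j := by
        have g1 : cc l * RR d l ≤ 1 * RR d l :=
          mul_le_mul_of_nonneg_right (by linarith) hRl.le
        have g2 : cc j / 2 * RR d j = cc j * RR d j / 2 := by ring
        rw [g2] at hRlt
        linarith
      have hn : ‖(((pp d j : ℝ) : ℂ) - ((pp d l : ℝ) : ℂ)) / ((rr d l : ℝ) : ℂ)‖
          = (pp d l - pp d j) / rr d l := by
        rw [← Complex.ofReal_sub, ← Complex.ofReal_div, Complex.norm_real, Real.norm_eq_abs,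
          abs_div, abs_of_pos hrl, abs_sub_comm, abs_of_pos hpos]
      have hge : 1 ≤ (pp d l - pp d j) / rr d l := by
        rw [le_div_iff₀ hrl]; linarith
      rw [hΛ.eq_log _ (by rw [hn]; exact hge), hn, Real.log_div hpos.ne' hrl.ne']
      have hlog : Real.log (pp d l - pp d j) ≤ 0 := Real.log_nonpos hpos.le hle1
      have : mm l * (Real.log (pp d l - pp d j) - Real.log (rr d l) + Real.log (rr d l))
          = mm l * Real.log (pp d l - pp d j) := by ring
      rw [this]
      exact mul_nonpos_of_nonneg_of_nonpos hml.le hlog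
    linarith
  have hE := (class_sums hd j).1
  have hT1 : Summable (fun q : ℕ => FF Λ d (j + (q + 1) * d) ((pp d (j + d) : ℝ) : ℂ)
      - FF Λ d (j + (q + 1) * d) ((pp d j : ℝ) : ℂ)) := (summable_nat_add_iff 1).mpr hT
  have hsum : ∑' q : ℕ, - EE d (j + (q + 1) * d) ≤
      ∑' q : ℕ, (FF Λ d (j + (q + 1) * d) ((pp d (j + d) : ℝ) : ℂ)
      - FF Λ d (j + (q + 1) * d) ((pp d j : ℝ) : ℂ)) :=
    hE.neg.tsum_le_tsum h1 hT1
  rw [tsum_neg] at hsum
  unfold Dl VV
  rw [hT.tsum_eq_zero_add, h0]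
  linarith

end Helper112.Kc
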