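import Pool.Agent.Helper112.Kc.Defs
import Pool.Agent.Helper112.Kc.JD1

set_option autoImplicit false

namespace Helper112.Kc

open Finset Filter Topology

/-! TO PROVE -/

theorem Dl_upper (Λ : ℂ → ℝ) (hΛ : IsLam Λ) {d : ℕ} (hd : 3 ≤ d) (j : ℕ) :
    Dl Λ d j ≤ 3 * GG j := by
  have hd0 : 0 < d := by omega
  have hc := cc_pos j
  have hR := RR_pos d j
  have h1 : (pp d (j + d) : ℂ) = (pp d j : ℂ) + (RR d j : ℂ) * ((cc j : ℝ) : ℂ) := by
    rw [pp_add hd0 j]
    push_cast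
    ring
  have hn : ‖((cc j : ℝ) : ℂ)‖ ≤ 1 := by
    rw [Complex.norm_real, Real.norm_eq_abs, abs_of_pos hc]
    have := cc_le j
    linarith
  have h2 := VV_upper Λ hΛ hd j ((cc j : ℝ) : ℂ) hn
  rw [← h1] at h2
  obtain ⟨-, -, -, h3⟩ := class_sums hd j
  have h4 := log_rr d j
  rw [Real.log_mul hc.ne' hR.ne', log_cc] at h4
  have h5 := mm_LL j
  have h6 := mm_le j
  have h7 := mm_pos j
  have h8 := GG_le j 1
  have h9 := hΛ.lo
  have h10 : mm j * (-Λ 0) ≤ mm j * 1 := mul_le_mul_of_nonneg_left (by linarith) h7.le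
  have h11 := GG_pos j
  have h12 : mm j * (Real.log (RR d j) - Real.log (rr d j) - Λ 0) =
      mm j * (-LL j + Real.log (RR d j) - Real.log (rr d j)) + mm j * LL j + mm j * (-Λ 0) := by
    ring
  rw [h12, h4, h5] at h2
  rw [pow_one] at h8
  unfold Dl
  linarith

end Helper112.Kc
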