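import Pool.Agent.Helper112.Kc.Defs2
import Pool.Agent.Helper112.Kc.JC3
import Pool.Agent.Helper112.Kc.JB5

set_option autoImplicit false

namespace Helper112.Kc

open Finset Filter Topology

/-! TO PROVE -/

theorem FF_far (Λ : ℂ → ℝ) (hΛ : IsLam Λ) {d l j : ℕ} (hd : 0 < d) (h : l < j)
    (hc : l % d = j % d) (z : ℂ) (hz : ‖z‖ ≤ 1) :
    FF Λ d l ((pp d j : ℂ) + (RR d j : ℂ) * z) =
      mm l * Real.log ‖(pp d j : ℂ) + (RR d j : ℂ) * z - (pp d l : ℂ)‖ ∧
    (pp d j : ℂ) + (RR d j : ℂ) * z - (pp d l : ℂ) ≠ 0 := by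
  have h1 := (pp_sub hd h hc).1
  have h2 := RR_lt h hc
  have h3 := rr_le d l
  have h4 := rr_pos d l
  have h5 := RR_pos d j
  have h6 : rr d l ≤ ‖(pp d j : ℂ) + (RR d j : ℂ) * z - (pp d l : ℂ)‖ := by
    have h7 : (pp d j : ℂ) + (RR d j : ℂ) * z - (pp d l : ℂ) =
        ((pp d j - pp d l : ℝ) : ℂ) - (-((RR d j : ℂ) * z)) := by
      push_cast; ring
    rw [h7]
    have h8 : ‖((pp d j - pp d l : ℝ) : ℂ)‖ - ‖-((RR d j : ℂ) * z)‖ ≤
        ‖((pp d j - pp d l : ℝ) : ℂ) - (-((RR d j : ℂ) * z))‖ := norm_sub_norm_le _ _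
    have h9 : ‖-((RR d j : ℂ) * z)‖ ≤ RR d j := by
      rw [norm_neg, norm_mul, Complex.norm_real, Real.norm_eq_abs, abs_of_pos h5]
      nlinarith [norm_nonneg z]
    have h10 : pp d j - pp d l ≤ ‖((pp d j - pp d l : ℝ) : ℂ)‖ := by
      rw [Complex.norm_real, Real.norm_eq_abs]
      exact le_abs_self _
    nlinarith
  have hne : (pp d j : ℂ) + (RR d j : ℂ) * z - (pp d l : ℂ) ≠ 0 := by
    intro h0
    rw [h0, norm_zero] at h6
    linarith
  refine ⟨?_, hne⟩
  unfold FF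
  have h7 : 1 ≤ ‖((pp d j : ℂ) + (RR d j : ℂ) * z - (pp d l : ℂ)) / (rr d l : ℂ)‖ := by
    rw [norm_div, Complex.norm_real, Real.norm_eq_abs, abs_of_pos h4, le_div_iff₀ h4, one_mul]
    exact h6
  rw [hΛ.eq_log _ h7, norm_div, Complex.norm_real, Real.norm_eq_abs, abs_of_pos h4,
    Real.log_div (norm_ne_zero_iff.mpr hne) h4.ne']
  ring

theorem FF_diff (Λ : ℂ → ℝ) (hΛ : IsLam Λ) {d l j : ℕ} (hd : 0 < d) (h : l < j)
    (hc : l % d = j % d) (z : ℂ) (hz : ‖z‖ ≤ 1) :
    FF Λ d l ((pp d j : ℂ) + (RR d j : ℂ) * z) - FF Λ d l (pp d j : ℂ) =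
      mm l * Real.log ‖1 + (RR d j : ℂ) * z / ((pp d j - pp d l : ℝ) : ℂ)‖ := by
  obtain ⟨h1, h2⟩ := FF_far Λ hΛ hd h hc z hz
  obtain ⟨h3, h4⟩ := FF_far Λ hΛ hd h hc 0 (by simp)
  rw [mul_zero, add_zero] at h3 h4
  have h5 : 1 + (RR d j : ℂ) * z / ((pp d j - pp d l : ℝ) : ℂ) =
      ((pp d j : ℂ) + (RR d j : ℂ) * z - (pp d l : ℂ)) / ((pp d j : ℂ) - (pp d l : ℂ)) := by
    rw [Complex.ofReal_sub]
    field_simp
    ring
  rw [h1, h3, h5, norm_div, Real.log_div (norm_ne_zero_iff.mpr h2) (norm_ne_zero_iff.mpr h4)]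
  ring

theorem UU_pt (Λ : ℂ → ℝ) (hΛ : IsLam Λ) {d : ℕ} (hd3 : 3 ≤ d) (hd : 0 < d) (j : ℕ) (ζ lam : ℂ)
    (hl : ‖lam‖ ≤ 1) :
    UU Λ d hd (pt d j hd ((pp d j : ℂ) + (RR d j : ℂ) * lam) ζ) =
      UU Λ d hd (bz d j)
      + ∑ l ∈ (range j).filter (fun l => l % d = j % d),
          mm l * Real.log ‖1 + (RR d j : ℂ) * lam / ((pp d j - pp d l : ℝ) : ℂ)‖
      + VV Λ d j ((pp d j : ℂ) + (RR d j : ℂ) * lam) := by
  have hlam := hl
  clear hl
  set w : ℂ := (pp d j : ℂ) + (RR d j : ℂ) * lam with hw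
  -- coordinates
  have hlast : ∀ l, ix d l hd ≠ Fin.last d := by
    intro l h
    have h1 := congrArg Fin.val h
    simp only [ix, Fin.val_last] at h1
    exact (Nat.mod_lt l hd).ne h1
  have hix : ∀ l, l % d = j % d → ix d l hd = ix d j hd := by
    intro l h
    exact Fin.ext h
  have hix' : ∀ l, l % d ≠ j % d → ix d l hd ≠ ix d j hd := by
    intro l h h1
    exact h (congrArg Fin.val h1)
  have hP1 : ∀ l, l % d = j % d → pt d j hd w ζ (ix d l hd) = w := by
    intro l h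
    show (if ix d l hd = Fin.last d then ζ else if ix d l hd = ix d j hd then w
      else (ZZ d j (ix d l hd) : ℂ)) = w
    rw [if_neg (hlast l), if_pos (hix l h)]
  have hP2 : ∀ l, l % d ≠ j % d → pt d j hd w ζ (ix d l hd) = (ZZ d j (ix d l hd) : ℂ) := by
    intro l h
    show (if ix d l hd = Fin.last d then ζ else if ix d l hd = ix d j hd then w
      else (ZZ d j (ix d l hd) : ℂ)) = _
    rw [if_neg (hlast l), if_neg (hix' l h)]
  have hB : ∀ l, bz d j (ix d l hd) = (ZZ d j (ix d l hd) : ℂ) := fun l => rfl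
  have hB1 : ∀ l, l % d = j % d → bz d j (ix d l hd) = (pp d j : ℂ) := by
    intro l h
    rw [hB, hix l h, ZZ_ix hd]
  -- bounds
  have hZn : ∀ l, ‖(ZZ d j (ix d l hd) : ℂ)‖ ≤ 2 := by
    intro l
    obtain ⟨h1, h2⟩ := ZZ_mem d j (ix d l hd)
    rw [Complex.norm_real, Real.norm_eq_abs, abs_of_nonneg h1]
    linarith
  have hwn : ‖w‖ ≤ 2 := by
    obtain ⟨h1, h2⟩ := ZZ_mem d j (ix d j hd)
    rw [ZZ_ix hd] at h1 h2
    have h3 : ‖(pp d j : ℂ)‖ ≤ 1 := by
      rw [Complex.norm_real, Real.norm_eq_abs, abs_of_nonneg h1]; exact h2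
    have h4 : ‖(RR d j : ℂ) * lam‖ ≤ 1 := by
      rw [norm_mul, Complex.norm_real, Real.norm_eq_abs, abs_of_pos (RR_pos d j)]
      have h5 := RR_le_one d j
      have h6 := RR_pos d j
      nlinarith [norm_nonneg lam]
    calc ‖w‖ ≤ ‖(pp d j : ℂ)‖ + ‖(RR d j : ℂ) * lam‖ := norm_add_le _ _
      _ ≤ 2 := by linarith
  have hPn : ∀ l, ‖pt d j hd w ζ (ix d l hd)‖ ≤ 2 := by
    intro l
    by_cases h : l % d = j % d
    · rw [hP1 l h]; exact hwn
    · rw [hP2 l h]; exact hZn l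
  have hBn : ∀ l, ‖bz d j (ix d l hd)‖ ≤ 2 := by
    intro l
    rw [hB]; exact hZn l
  have hS1 : Summable (fun l => FF Λ d l (pt d j hd w ζ (ix d l hd))) :=
    summable_FF Λ hΛ hd3 _ 2 hPn
  have hS2 : Summable (fun l => FF Λ d l (bz d j (ix d l hd))) :=
    summable_FF Λ hΛ hd3 _ 2 hBn
  let D : ℕ → ℝ := fun l => FF Λ d l (pt d j hd w ζ (ix d l hd)) - FF Λ d l (bz d j (ix d l hd))
  have hD : Summable D := hS1.sub hS2
  have hD0 : ∀ l, l % d ≠ j % d → D l = 0 := by
    intro l h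
    show FF Λ d l (pt d j hd w ζ (ix d l hd)) - FF Λ d l (bz d j (ix d l hd)) = 0
    rw [hP2 l h, hB l, sub_self]
  have hD1 : ∀ l, l % d = j % d → D l = FF Λ d l w - FF Λ d l (pp d j : ℂ) := by
    intro l h
    show FF Λ d l (pt d j hd w ζ (ix d l hd)) - FF Λ d l (bz d j (ix d l hd)) = _
    rw [hP1 l h, hB1 l h]
  have hmain : UU Λ d hd (pt d j hd w ζ) = UU Λ d hd (bz d j) + ∑' l, D l := by
    have h1 : ∑' l, D l = UU Λ d hd (pt d j hd w ζ) - UU Λ d hd (bz d j) :=
      hS1.tsum_sub hS2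
    rw [h1]; ring
  -- splitting
  let D1 : ℕ → ℝ := fun l => if l < j then D l else 0
  let D2 : ℕ → ℝ := fun l => if l < j then 0 else D l
  have hD1s : Summable D1 := by
    apply summable_of_ne_finset_zero (s := range j)
    intro l hl
    show (if l < j then D l else 0) = 0
    rw [if_neg]
    rwa [mem_range] at hl
  have hD2s : Summable D2 := by
    have h1 : D2 = fun l => D l - D1 l := by
      funext l
      show (if l < j then 0 else D l) = D l - (if l < j then D l else 0)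
      split_ifs <;> ring
    rw [h1]
    exact hD.sub hD1s
  have hsplit : ∑' l, D l = ∑' l, D1 l + ∑' l, D2 l := by
    rw [← hD1s.tsum_add hD2s]
    congr 1
    funext l
    show D l = (if l < j then D l else 0) + (if l < j then 0 else D l)
    split_ifs <;> ring
  have hfirst : ∑' l, D1 l = ∑ l ∈ (range j).filter (fun l => l % d = j % d),
      mm l * Real.log ‖1 + (RR d j : ℂ) * lam / ((pp d j - pp d l : ℝ) : ℂ)‖ := by
    rw [tsum_eq_sum (s := (range j).filter (fun l => l % d = j % d))]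
    · apply sum_congr rfl
      intro l hl
      rw [mem_filter, mem_range] at hl
      show (if l < j then D l else 0) = _
      rw [if_pos hl.1, hD1 l hl.2, hw]
      exact FF_diff Λ hΛ hd hl.1 hl.2 lam hlam
    · intro l hl
      show (if l < j then D l else 0) = 0
      by_cases h : l < j
      · rw [if_pos h]
        apply hD0
        intro h2
        exact hl (mem_filter.mpr ⟨mem_range.mpr h, h2⟩)
      · rw [if_neg h]
  have hinj : Function.Injective (fun q : ℕ => j + q * d) := by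
    intro a b h
    have h1 : a * d = b * d := Nat.add_left_cancel h
    exact Nat.eq_of_mul_eq_mul_right hd h1
  have hsecond : ∑' l, D2 l = VV Λ d j w := by
    have hsupp : Function.support D2 ⊆ Set.range (fun q : ℕ => j + q * d) := by
      intro l hl
      rw [Function.mem_support] at hl
      have h1 : ¬ l < j := by
        intro h
        apply hl
        show (if l < j then 0 else D l) = 0
        rw [if_pos h]
      have h2 : l % d = j % d := by
        by_contra h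
        apply hl
        show (if l < j then 0 else D l) = 0
        rw [if_neg h1]
        exact hD0 l h
      have h3 : j ≤ l := not_lt.mp h1
      have h4 : d ∣ l - j := (Nat.modEq_iff_dvd' h3).mp h2.symm
      obtain ⟨q, hq⟩ := h4
      refine ⟨q, ?_⟩
      show j + q * d = l
      rw [mul_comm q d, ← hq]
      omega
    rw [← hinj.tsum_eq hsupp]
    unfold VV
    congr 1
    funext q
    show (if j + q * d < j then 0 else D (j + q * d)) = _
    rw [if_neg (by omega)]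
    exact hD1 _ (Nat.add_mul_mod_self_right j q d)
  rw [hmain, hsplit, hfirst, hsecond]
  ring

end Helper112.Kc
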