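import Pool.Agent.Helper112.Kc.Defs2

set_option autoImplicit false

namespace Helper112.Kc

open Finset Filter Topology

/-! TO PROVE -/

theorem QQ_hasDerivAt (N : ℕ) (hN : 2 ≤ N) (t : ℝ) :
    HasDerivAt (QQ N) (N * QQ (N - 1) t) t := by
  unfold QQ
  rcases lt_trichotomy t 0 with h | h | h
  · have h1 : (fun t : ℝ => (max t 0) ^ N) =ᶠ[𝓝 t] fun _ => 0 := by
      filter_upwards [isOpen_Iio.mem_nhds h] with s hs
      rw [max_eq_right (le_of_lt hs), zero_pow (by omega)]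
    rw [max_eq_right h.le, zero_pow (by omega), mul_zero]
    exact (hasDerivAt_const t (0 : ℝ)).congr_of_eventuallyEq h1
  · subst h
    rw [max_self, zero_pow (by omega), mul_zero]
    rw [hasDerivAt_iff_isLittleO_nhds_zero]
    simp only [zero_add, max_self, smul_zero, sub_zero]
    rw [zero_pow (by omega)]
    simp only [sub_zero]
    have h1 : (fun h : ℝ => (max h 0) ^ N) =O[𝓝 0] fun h : ℝ => h ^ N := by
      apply Asymptotics.IsBigO.of_bound 1
      apply Eventually.of_forall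
      intro s
      rw [one_mul, norm_pow, norm_pow]
      apply pow_le_pow_left₀ (norm_nonneg _)
      rw [Real.norm_eq_abs, Real.norm_eq_abs]
      rcases le_total s 0 with hs | hs
      · rw [max_eq_right hs, abs_zero]; exact abs_nonneg _
      · rw [max_eq_left hs]
    exact h1.trans_isLittleO (Asymptotics.isLittleO_pow_id (by omega))
  · have h1 : (fun t : ℝ => (max t 0) ^ N) =ᶠ[𝓝 t] fun t => t ^ N := by
      filter_upwards [isOpen_Ioi.mem_nhds h] with s hs
      rw [max_eq_left (le_of_lt hs)]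
    rw [max_eq_left h.le]
    exact (hasDerivAt_pow N t).congr_of_eventuallyEq h1

theorem QQ_nonneg (N : ℕ) (t : ℝ) : 0 ≤ QQ N t := pow_nonneg (le_max_right _ _) _

theorem QQ_contDiff (k N : ℕ) (h : k < N) : ContDiff ℝ k (QQ N) := by
  induction k generalizing N with
  | zero =>
    rw [Nat.cast_zero, contDiff_zero]
    unfold QQ
    fun_prop
  | succ k ih =>
    rw [Nat.cast_succ, contDiff_succ_iff_deriv]
    have hd : ∀ t, HasDerivAt (QQ N) (N * QQ (N - 1) t) t := fun t => QQ_hasDerivAt N (by omega) t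
    refine ⟨fun t => (hd t).differentiableAt, ?_, ?_⟩
    · intro h
      exact absurd h (by simp)
    · have e : deriv (QQ N) = fun t => N * QQ (N - 1) t := funext fun t => (hd t).deriv
      rw [e]
      exact contDiff_const.mul (ih (N - 1) (by omega))

theorem cap_levi {n : ℕ} (N : ℕ) (hN : 2 < N) (B : ℝ) (p w : EuclideanSpace ℂ (Fin n)) :
    0 ≤ fderiv ℝ (fderiv ℝ (fun p : EuclideanSpace ℂ (Fin n) => QQ N (‖p‖ ^ 2 - B ^ 2))) p w w := by
  set F : EuclideanSpace ℂ (Fin n) → ℝ := fun p => QQ N (‖p‖ ^ 2 - B ^ 2) with hF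
  have hC : ContDiff ℝ 2 F := by
    have h1 : ContDiff ℝ 2 (QQ N) := QQ_contDiff 2 N hN
    exact h1.comp ((contDiff_norm_sq ℂ).sub contDiff_const)
  have hC1 : ContDiff ℝ 1 (fderiv ℝ F) := hC.fderiv_right (by norm_num)
  set b : ℝ := 2 * RCLike.re (inner ℂ p w) with hb
  set c : ℝ := ‖w‖ ^ 2 with hc
  set a : ℝ := ‖p‖ ^ 2 - B ^ 2 with ha
  let g : ℝ → ℝ := fun τ => a + b * τ + c * τ ^ 2
  have hg : ∀ τ, HasDerivAt g (b + 2 * c * τ) τ := by
    intro τ
    have h1 := ((hasDerivAt_id τ).const_mul b).const_add a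
    have h2 := (hasDerivAt_pow 2 τ).const_mul c
    have h3 := h1.add h2
    have e : b * 1 + c * (((2 : ℕ) : ℝ) * τ ^ (2 - 1)) = b + 2 * c * τ := by
      norm_num; ring
    rw [e] at h3
    exact h3
  have hline : ∀ τ : ℝ, F (p + τ • w) = QQ N (g τ) := by
    intro τ
    show QQ N (‖p + τ • w‖ ^ 2 - B ^ 2) = QQ N (a + b * τ + c * τ ^ 2)
    congr 1
    rw [norm_add_sq (𝕜 := ℂ), norm_smul, mul_pow, Real.norm_eq_abs, sq_abs]
    have e : inner ℂ p (τ • w) = (τ : ℂ) * inner ℂ p w := by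
      rw [← inner_smul_right]
      congr 1
    rw [e, RCLike.re_eq_complex_re, Complex.re_ofReal_mul]
    rw [ha, hb, hc, RCLike.re_eq_complex_re]
    ring
  have hlin : ∀ τ : ℝ, HasDerivAt (fun τ : ℝ => p + τ • w) w τ := by
    intro τ
    simpa using ((hasDerivAt_id τ).smul_const w).const_add p
  have hφ1 : ∀ τ : ℝ, fderiv ℝ F (p + τ • w) w = N * QQ (N - 1) (g τ) * (b + 2 * c * τ) := by
    intro τ
    have h1 : HasDerivAt (fun τ : ℝ => F (p + τ • w)) (fderiv ℝ F (p + τ • w) w) τ := by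
      have hd : HasFDerivAt F (fderiv ℝ F (p + τ • w)) (p + τ • w) :=
        ((hC.differentiable (by norm_num)) _).hasFDerivAt
      exact hd.comp_hasDerivAt τ (hlin τ)
    have h2 : HasDerivAt (fun τ : ℝ => F (p + τ • w)) (N * QQ (N - 1) (g τ) * (b + 2 * c * τ)) τ := by
      have e : (fun τ : ℝ => F (p + τ • w)) = fun τ => QQ N (g τ) := funext hline
      rw [e]
      exact (QQ_hasDerivAt N (by omega) (g τ)).comp τ (hg τ)
    exact h1.unique h2
  have hφ2 : HasDerivAt (fun τ : ℝ => fderiv ℝ F (p + τ • w) w)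
      (fderiv ℝ (fderiv ℝ F) p w w) 0 := by
    have hd : HasFDerivAt (fderiv ℝ F) (fderiv ℝ (fderiv ℝ F) p) (p + (0 : ℝ) • w) := by
      rw [zero_smul, add_zero]
      exact ((hC1.differentiable (by norm_num)) _).hasFDerivAt
    have h1 : HasDerivAt (fun τ : ℝ => fderiv ℝ F (p + τ • w)) (fderiv ℝ (fderiv ℝ F) p w) 0 :=
      hd.comp_hasDerivAt 0 (hlin 0)
    exact h1.clm_apply (hasDerivAt_const 0 w) |>.congr_deriv (by simp)
  have hφ3 : HasDerivAt (fun τ : ℝ => N * QQ (N - 1) (g τ) * (b + 2 * c * τ))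
      ((N * (((N - 1 : ℕ) : ℝ) * QQ (N - 1 - 1) (g 0) * (b + 2 * c * 0))) * (b + 2 * c * 0) +
        N * QQ (N - 1) (g 0) * (2 * c)) 0 := by
    have h1 : HasDerivAt (fun τ : ℝ => QQ (N - 1) (g τ))
        (((N - 1 : ℕ) : ℝ) * QQ (N - 1 - 1) (g 0) * (b + 2 * c * 0)) 0 :=
      (QQ_hasDerivAt (N - 1) (by omega) (g 0)).comp 0 (hg 0)
    have h2 := h1.const_mul (N : ℝ)
    have h3 : HasDerivAt (fun τ : ℝ => b + 2 * c * τ) (2 * c) 0 := by
      simpa using ((hasDerivAt_id (0 : ℝ)).const_mul (2 * c)).const_add b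
    exact h2.mul h3
  have e : (fun τ : ℝ => fderiv ℝ F (p + τ • w) w) =
      fun τ : ℝ => N * QQ (N - 1) (g τ) * (b + 2 * c * τ) := funext hφ1
  rw [e] at hφ2
  rw [hφ2.unique hφ3]
  have q1 := QQ_nonneg (N - 1 - 1) (g 0)
  have q2 := QQ_nonneg (N - 1) (g 0)
  have hc0 : 0 ≤ c := by positivity
  have e2 : (N * (((N - 1 : ℕ) : ℝ) * QQ (N - 1 - 1) (g 0) * (b + 2 * c * 0))) * (b + 2 * c * 0) +
        N * QQ (N - 1) (g 0) * (2 * c) =
      N * ((N - 1 : ℕ) : ℝ) * QQ (N - 1 - 1) (g 0) * b ^ 2 + N * QQ (N - 1) (g 0) * (2 * c) := by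
    ring
  rw [e2]
  positivity

end Helper112.Kc
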