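import Pool.Agent.Helper112.Kc.Defs2
import Pool.Agent.Helper112.Kc.KA9

set_option autoImplicit false

namespace Helper112.Kc

open Finset Filter Topology

/-! TO PROVE -/

theorem rho_smooth {d : ℕ} (u : EuclideanSpace ℂ (Fin (d + 1)) → ℝ) (k N : ℕ) (hk : 2 ≤ k)
    (hN : k < N) (B : ℝ) (hu : ContDiff ℝ k u)
    (hL : ∀ p w, 0 ≤ fderiv ℝ (fderiv ℝ u) p w w
        + fderiv ℝ (fderiv ℝ u) p (Complex.I • w) (Complex.I • w)) :
    ContDiff ℝ k (rho u B N) ∧
    (∀ p w, 0 ≤ fderiv ℝ (fderiv ℝ (rho u B N)) p w w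
        + fderiv ℝ (fderiv ℝ (rho u B N)) p (Complex.I • w) (Complex.I • w)) := by
  set L : EuclideanSpace ℂ (Fin (d + 1)) →L[ℝ] ℝ := Complex.reCLM.comp
    ((EuclideanSpace.proj (Fin.last d) : EuclideanSpace ℂ (Fin (d + 1)) →L[ℂ] ℂ).restrictScalars ℝ)
    with hLdef
  set c : EuclideanSpace ℂ (Fin (d + 1)) → ℝ := fun p => QQ N (‖p‖ ^ 2 - B ^ 2) with hc
  have hrho : rho u B N = fun p => L p + u p + c p := by
    funext p
    rfl
  have hcs : ContDiff ℝ k c := by
    have h1 : ContDiff ℝ k (fun p : EuclideanSpace ℂ (Fin (d + 1)) => ‖p‖ ^ 2 - B ^ 2) :=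
      (contDiff_norm_sq ℂ).sub contDiff_const
    exact (QQ_contDiff k N hN).comp h1
  have hsm : ContDiff ℝ k (rho u B N) := by
    rw [hrho]
    exact (L.contDiff.add hu).add hcs
  refine ⟨hsm, ?_⟩
  have h1k : (1 : WithTop ℕ∞) + 1 ≤ (k : WithTop ℕ∞) := by
    have : ((2 : ℕ) : WithTop ℕ∞) ≤ (k : WithTop ℕ∞) := by exact_mod_cast hk
    have e : (1 : WithTop ℕ∞) + 1 = ((2 : ℕ) : WithTop ℕ∞) := by norm_num
    rw [e]; exact this
  have h0k : (k : WithTop ℕ∞) ≠ 0 := by
    have : k ≠ 0 := by omega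
    exact_mod_cast this
  have du : Differentiable ℝ u := hu.differentiable h0k
  have dc : Differentiable ℝ c := hcs.differentiable h0k
  have du2 : Differentiable ℝ (fderiv ℝ u) := (hu.fderiv_right h1k).differentiable (by norm_num)
  have dc2 : Differentiable ℝ (fderiv ℝ c) := (hcs.fderiv_right h1k).differentiable (by norm_num)
  have e1 : fderiv ℝ (rho u B N) = fun p => L + fderiv ℝ u p + fderiv ℝ c p := by
    funext p
    rw [hrho]
    have h := (L.hasFDerivAt (x := p)).add (du p).hasFDerivAt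
    exact (h.add (dc p).hasFDerivAt).fderiv
  have e2 : ∀ p, fderiv ℝ (fderiv ℝ (rho u B N)) p = fderiv ℝ (fderiv ℝ u) p + fderiv ℝ (fderiv ℝ c) p := by
    intro p
    rw [e1]
    have h := ((hasFDerivAt_const L p).add (du2 p).hasFDerivAt).add (dc2 p).hasFDerivAt
    rw [zero_add] at h
    exact h.fderiv
  intro p w
  rw [e2]
  have a1 := hL p w
  have a2 := cap_levi N (by omega) B p w
  have a3 := cap_levi N (by omega) B p (Complex.I • w)
  simp only [ContinuousLinearMap.add_apply]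
  have a2' : 0 ≤ fderiv ℝ (fderiv ℝ c) p w w := a2
  have a3' : 0 ≤ fderiv ℝ (fderiv ℝ c) p (Complex.I • w) (Complex.I • w) := a3
  linarith

end Helper112.Kc
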