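import Pool.Agent.Helper112.Kc.Defs2

set_option autoImplicit false

namespace Helper112.Kc

open Finset Filter Topology

/-! TO PROVE -/

/-- the convex part -/
theorem convex_part {d : ℕ} (B : ℝ) (N : ℕ) (hN : 1 ≤ N) :
    ConvexOn ℝ Set.univ (fun p : EuclideanSpace ℂ (Fin (d + 1)) =>
      (p (Fin.last d)).re + QQ N (‖p‖ ^ 2 - B ^ 2)) := by
  have h1 : ConvexOn ℝ Set.univ (fun p : EuclideanSpace ℂ (Fin (d + 1)) => (p (Fin.last d)).re) := by
    refine ⟨convex_univ, ?_⟩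
    intro x _ y _ a b _ _ _
    apply le_of_eq
    simp
  have h2 : ConvexOn ℝ Set.univ (fun p : EuclideanSpace ℂ (Fin (d + 1)) => ‖p‖ ^ 2) :=
    (convexOn_norm convex_univ).pow (fun _ _ => norm_nonneg _) 2
  have h3 : ConvexOn ℝ Set.univ (fun p : EuclideanSpace ℂ (Fin (d + 1)) => ‖p‖ ^ 2 - B ^ 2) := by
    have h4 := h2.add_const (-B ^ 2)
    have h5 : (fun p : EuclideanSpace ℂ (Fin (d + 1)) => ‖p‖ ^ 2 - B ^ 2) =
        (fun p : EuclideanSpace ℂ (Fin (d + 1)) => ‖p‖ ^ 2) + fun _ => (-B ^ 2) := by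
      funext p
      simp [sub_eq_add_neg]
    rw [h5]
    exact h4
  have h4 : ConvexOn ℝ Set.univ (fun p : EuclideanSpace ℂ (Fin (d + 1)) =>
      max (‖p‖ ^ 2 - B ^ 2) 0) := h3.sup (convexOn_const 0 convex_univ)
  have h5 : ConvexOn ℝ Set.univ (fun p : EuclideanSpace ℂ (Fin (d + 1)) =>
      QQ N (‖p‖ ^ 2 - B ^ 2)) := h4.pow (fun _ _ => le_max_right _ _) N
  exact h1.add h5

end Helper112.Kc
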