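import Pool.Agent.Helper112.Kc.Defs2
import Pool.Agent.Helper112.Kc.KA11

set_option autoImplicit false

namespace Helper112.Kc

open Finset Filter Topology

/-! TO PROVE -/

theorem rho_geom_lip {d : ℕ} (u : EuclideanSpace ℂ (Fin (d + 1)) → ℝ) (hu : ContDiff ℝ 1 u)
    (h1 : ∀ p, ‖fderiv ℝ u p‖ ≤ 1 / 20) (p q : EuclideanSpace ℂ (Fin (d + 1))) :
    |u p - u q| ≤ 1 / 20 * ‖p - q‖ := by
  have h := (convex_univ (𝕜 := ℝ) (E := EuclideanSpace ℂ (Fin (d + 1)))).norm_image_sub_le_of_norm_fderiv_le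
    (𝕜 := ℝ) (f := u) (C := 1 / 20) (x := q) (y := p)
    (fun x _ => (hu.differentiable one_ne_zero).differentiableAt) (fun x _ => h1 x)
    (Set.mem_univ _) (Set.mem_univ _)
  simpa [Real.norm_eq_abs] using h

theorem rho_geom {d : ℕ} (u : EuclideanSpace ℂ (Fin (d + 1)) → ℝ) (N : ℕ)
    (hN : 2 ≤ N) (B : ℝ) (hB : 2 ≤ B) (hu : ContDiff ℝ 1 u)
    (h1 : ∀ p, ‖fderiv ℝ u p‖ ≤ 1 / 20) (h0 : |u 0| ≤ 1 / 20)
    (hr : ContDiff ℝ 1 (rho u B N)) :
    Bornology.IsBounded {p | rho u B N p < 0} ∧ IsConnected {p | rho u B N p < 0} ∧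
    (∀ p, rho u B N p = 0 → fderiv ℝ (rho u B N) p ≠ 0) := by
  have hlip := rho_geom_lip u hu h1
  have hub : ∀ p, |u p| ≤ 1 / 20 + 1 / 20 * ‖p‖ := by
    intro p
    have h := hlip p 0
    rw [sub_zero] at h
    calc |u p| = |(u p - u 0) + u 0| := by ring_nf
      _ ≤ |u p - u 0| + |u 0| := abs_add_le _ _
      _ ≤ _ := by linarith
  have hre : ∀ p : EuclideanSpace ℂ (Fin (d + 1)), |(p (Fin.last d)).re| ≤ ‖p‖ := by
    intro p
    exact (Complex.abs_re_le_norm _).trans (PiLp.norm_apply_le p (Fin.last d))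
  -- (i)
  have hbd : ∀ p, rho u B N p ≤ 0 → ‖p‖ ≤ B + 1 := by
    intro p hp
    by_contra hlt
    push Not at hlt
    have ht : ‖p‖ + B ≤ ‖p‖ ^ 2 - B ^ 2 := by nlinarith
    have ht5 : 5 ≤ ‖p‖ ^ 2 - B ^ 2 := by linarith
    have hQ : (‖p‖ ^ 2 - B ^ 2) ^ 2 ≤ QQ N (‖p‖ ^ 2 - B ^ 2) := by
      unfold QQ
      rw [max_eq_left (by linarith)]
      exact pow_le_pow_right₀ (by linarith) hN
    have hQ2 : 5 * ‖p‖ ≤ (‖p‖ ^ 2 - B ^ 2) ^ 2 := by nlinarith
    have h2 := hub p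
    have h3 := hre p
    have h4 := neg_abs_le (u p)
    have h5 := neg_abs_le ((p (Fin.last d)).re)
    unfold rho at hp
    linarith
  obtain ⟨p0, hp0⟩ : ∃ p0 : EuclideanSpace ℂ (Fin (d + 1)),
      p0 = EuclideanSpace.single (Fin.last d) ((-(B / 2) : ℝ) : ℂ) := ⟨_, rfl⟩
  have hp0n : ‖p0‖ = B / 2 := by
    rw [hp0, PiLp.norm_single, Complex.norm_real, Real.norm_eq_abs, abs_neg,
      abs_of_pos (by linarith)]
  have hp0l : (p0 (Fin.last d)).re = -(B / 2) := by
    rw [hp0]; simp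
  have hQ0 : QQ N (‖p0‖ ^ 2 - B ^ 2) = 0 := by
    unfold QQ
    rw [hp0n, max_eq_right (by nlinarith), zero_pow (by omega)]
  have hcpos : ∀ p : EuclideanSpace ℂ (Fin (d + 1)), ‖p‖ ≤ B + 1 →
      0 < B / 2 - |u p| - 1 / 20 * ‖p - p0‖ := by
    intro p hp
    have h2 := hub p
    have h3 : ‖p - p0‖ ≤ ‖p‖ + ‖p0‖ := norm_sub_le _ _
    rw [hp0n] at h3
    linarith
  have key : ∀ p : EuclideanSpace ℂ (Fin (d + 1)), ∀ t : ℝ, 0 ≤ t → t ≤ 1 →
      rho u B N ((1 - t) • p + t • p0) ≤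
        (1 - t) * rho u B N p - t * (B / 2 - |u p| - 1 / 20 * ‖p - p0‖) := by
    intro p t ht0 ht1
    have hc := (convex_part (d := d) B N (by omega)).2 (Set.mem_univ p) (Set.mem_univ p0)
      (show 0 ≤ 1 - t by linarith) ht0 (by ring)
    simp only [smul_eq_mul] at hc
    have hl := hlip ((1 - t) • p + t • p0) p
    have e : (1 - t) • p + t • p0 - p = t • (p0 - p) := by
      rw [sub_smul, one_smul, smul_sub]; abel
    rw [e, norm_smul, Real.norm_eq_abs, abs_of_nonneg ht0, norm_sub_rev] at hl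
    have hl2 := le_of_abs_le hl
    have hu1 := le_abs_self (u p)
    rw [hp0l, hQ0] at hc
    have hr1 : rho u B N ((1 - t) • p + t • p0) =
      (((1 - t) • p + t • p0) (Fin.last d)).re + QQ N (‖(1 - t) • p + t • p0‖ ^ 2 - B ^ 2)
        + u ((1 - t) • p + t • p0) := by unfold rho; ring
    have hr2 : (p (Fin.last d)).re + QQ N (‖p‖ ^ 2 - B ^ 2) = rho u B N p - u p := by
      unfold rho; ring
    rw [hr2] at hc
    rw [hr1]
    have h6 : t * u p ≤ t * |u p| := mul_le_mul_of_nonneg_left hu1 ht0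
    nlinarith
  have hneg0 : rho u B N p0 < 0 := by
    have h2 := hub p0
    have h3 := le_abs_self (u p0)
    unfold rho
    rw [hp0l, hQ0]
    rw [hp0n] at h2
    linarith
  refine ⟨?_, ?_, ?_⟩
  · refine (Metric.isBounded_closedBall (x := (0 : EuclideanSpace ℂ (Fin (d + 1))))
      (r := B + 1)).subset ?_
    intro p hp
    rw [mem_closedBall_zero_iff]
    exact hbd p (le_of_lt hp)
  · have hstar : StarConvex ℝ p0 {p | rho u B N p < 0} := by
      intro p hp a b ha hb hab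
      have hp' : rho u B N p < 0 := hp
      have hb1 : b = 1 - a := by linarith
      have hk := key p a ha (by linarith)
      have hc := hcpos p (hbd p hp'.le)
      show rho u B N (a • p0 + b • p) < 0
      rw [hb1, add_comm]
      refine lt_of_le_of_lt hk ?_
      rcases ha.eq_or_lt with h | h
      · rw [← h]; linarith
      · have h7 : 0 < a * (B / 2 - |u p| - 1 / 20 * ‖p - p0‖) := mul_pos h hc
        have h8 : (1 - a) * rho u B N p ≤ 0 :=
          mul_nonpos_of_nonneg_of_nonpos (by linarith) hp'.le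
        linarith
    exact (hstar.isPathConnected hneg0).isConnected
  · intro p hp hfd
    have hc := hcpos p (hbd p hp.le)
    obtain ⟨c, hcdef⟩ : ∃ c : ℝ, c = B / 2 - |u p| - 1 / 20 * ‖p - p0‖ := ⟨_, rfl⟩
    rw [← hcdef] at hc
    have hF : HasFDerivAt (rho u B N) (0 : EuclideanSpace ℂ (Fin (d + 1)) →L[ℝ] ℝ) p := by
      have := ((hr.differentiable one_ne_zero).differentiableAt (x := p)).hasFDerivAt
      rwa [hfd] at this
    have hg : HasDerivAt (fun t : ℝ => rho u B N (p + t • (p0 - p))) 0 0 := by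
      have h2 : HasDerivAt (fun t : ℝ => p + t • (p0 - p)) (p0 - p) 0 := by
        have h3 := ((hasDerivAt_id (0 : ℝ)).smul_const (p0 - p)).const_add p
        simpa using h3
      have h4 : HasFDerivAt (rho u B N) (0 : EuclideanSpace ℂ (Fin (d + 1)) →L[ℝ] ℝ)
          (p + (0 : ℝ) • (p0 - p)) := by simpa using hF
      have h5 := h4.comp_hasDerivAt (0 : ℝ) h2
      exact h5
    have ho := hg.isLittleO.def (half_pos hc)
    have ho2 : ∀ᶠ t : ℝ in 𝓝 0, t < 1 := gt_mem_nhds one_pos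
    obtain ⟨ε, hε, hball⟩ := Metric.eventually_nhds_iff.mp (ho.and ho2)
    have hmem := hball (y := ε / 2) (by
      rw [Real.dist_eq, sub_zero, abs_of_pos (by linarith)]; linarith)
    obtain ⟨hm1, hm2⟩ := hmem
    have hk := key p (ε / 2) (by linarith) hm2.le
    rw [← hcdef] at hk
    have e2 : (1 - ε / 2) • p + (ε / 2) • p0 = p + (ε / 2) • (p0 - p) := by
      rw [sub_smul, one_smul, smul_sub]; abel
    rw [e2, hp] at hk
    simp only [zero_smul, add_zero, sub_zero, smul_zero, hp] at hm1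
    rw [Real.norm_eq_abs, Real.norm_eq_abs, abs_of_pos (show 0 < ε / 2 by linarith)] at hm1
    have h9 := neg_abs_le (rho u B N (p + (ε / 2) • (p0 - p)))
    nlinarith

end Helper112.Kc
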