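import Pool.Agent.Helper112.Kc.Defs2

set_option autoImplicit false

namespace Helper112.Kc

open Finset Filter Topology

/-! TO PROVE -/

theorem kc_log_nonneg {t : ℝ} (h0 : 0 ≤ t) (h1 : t < 1) : 0 ≤ Real.log ((1 + t) / (1 - t)) := by
  apply Real.log_nonneg
  rw [le_div_iff₀ (by linarith)]
  linarith

theorem kc_log_le {t : ℝ} (h0 : 0 ≤ t) (h1 : t ≤ 1 / 2) : Real.log ((1 + t) / (1 - t)) ≤ 4 * t := by
  have h2 : 0 < 1 - t := by linarith
  have h3 : 0 < (1 + t) / (1 - t) := div_pos (by linarith) h2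
  have h4 := Real.log_le_sub_one_of_pos h3
  have h5 : (1 + t) / (1 - t) - 1 ≤ 4 * t := by
    rw [sub_le_iff_le_add, div_le_iff₀ h2]
    nlinarith
  linarith

theorem kc_chain {n : ℕ} (Ω : Set (EuclideanSpace ℂ (Fin n))) (z : ℕ → EuclideanSpace ℂ (Fin n))
    (f : ℕ → ℂ → EuclideanSpace ℂ (Fin n)) (b : ℕ → ℝ) (m : ℕ)
    (hb : ∀ k < m, 0 ≤ b k ∧ b k ≤ 1 / 2)
    (hd : ∀ k < m, DifferentiableOn ℂ (f k) (Metric.ball (0 : ℂ) 1))
    (hm : ∀ k < m, Set.MapsTo (f k) (Metric.ball (0 : ℂ) 1) Ω)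
    (h0 : ∀ k < m, f k 0 = z k) (h1 : ∀ k < m, f k (b k : ℂ) = z (k + 1)) :
    kob Ω (z 0) (z m) ≤ ∑ k ∈ range m, 4 * b k := by
  unfold kob
  have hbn : ∀ k < m, ‖(b k : ℂ)‖ = b k := by
    intro k hk
    rw [Complex.norm_real, Real.norm_eq_abs, abs_of_nonneg (hb k hk).1]
  refine le_trans (csInf_le ⟨0, ?_⟩ ⟨m, fun k => z k, fun k => f k, fun k => (b k : ℂ), rfl, rfl,
    ?_, rfl⟩) ?_
  · rintro s ⟨m', z', f', b', _, _, h, rfl⟩
    apply Finset.sum_nonneg
    intro j _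
    exact kc_log_nonneg (norm_nonneg _) (h j).2.2.1
  · intro j
    refine ⟨hd j j.2, hm j j.2, ?_, h0 j j.2, ?_⟩
    · rw [hbn j j.2]
      linarith [(hb j j.2).2]
    · exact h1 j j.2
  · rw [Finset.sum_range]
    apply Finset.sum_le_sum
    intro j _
    rw [hbn j j.2]
    exact kc_log_le (hb j j.2).1 (hb j j.2).2

/-- Moebius involution -/
noncomputable def kcM (c : ℝ) (w : ℂ) : ℂ := ((c : ℂ) - w) / (1 - (c : ℂ) * w)

theorem kcM_ne {c : ℝ} (hc : 0 ≤ c ∧ c ≤ 1 / 2) {w : ℂ} (hw : w ∈ Metric.ball (0 : ℂ) 1) :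
    1 - (c : ℂ) * w ≠ 0 := by
  intro h
  rw [mem_ball_zero_iff] at hw
  have h1 : (c : ℂ) * w = 1 := (sub_eq_zero.mp h).symm
  have h2 : ‖(c : ℂ) * w‖ = 1 := by rw [h1, norm_one]
  rw [norm_mul, Complex.norm_real, Real.norm_eq_abs, abs_of_nonneg hc.1] at h2
  nlinarith [norm_nonneg w]

theorem kcM_diff {c : ℝ} (hc : 0 ≤ c ∧ c ≤ 1 / 2) :
    DifferentiableOn ℂ (kcM c) (Metric.ball (0 : ℂ) 1) := by
  intro w hw
  apply DifferentiableAt.differentiableWithinAt
  unfold kcM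
  apply DifferentiableAt.div
  · fun_prop
  · fun_prop
  · exact kcM_ne hc hw

theorem kcM_maps {c : ℝ} (hc : 0 ≤ c ∧ c ≤ 1 / 2) :
    Set.MapsTo (kcM c) (Metric.ball (0 : ℂ) 1) (Metric.ball (0 : ℂ) 1) := by
  intro w hw
  have hne := kcM_ne hc hw
  rw [mem_ball_zero_iff] at hw ⊢
  unfold kcM
  rw [norm_div, div_lt_one (norm_pos_iff.mpr hne)]
  have h1 : ‖w‖ ^ 2 < 1 := by nlinarith [norm_nonneg w]
  have hw2 : ‖w‖ ^ 2 = w.re * w.re + w.im * w.im := by
    rw [← Complex.normSq_eq_norm_sq, Complex.normSq_apply]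
  have h2 : ‖(c : ℂ) - w‖ ^ 2 < ‖1 - (c : ℂ) * w‖ ^ 2 := by
    rw [← Complex.normSq_eq_norm_sq, ← Complex.normSq_eq_norm_sq, Complex.normSq_apply,
      Complex.normSq_apply]
    simp only [Complex.sub_re, Complex.sub_im, Complex.mul_re, Complex.mul_im, Complex.ofReal_re,
      Complex.ofReal_im, Complex.one_re, Complex.one_im]
    have h3 : c ^ 2 < 1 := by nlinarith [hc.1, hc.2]
    have h4 : w.re * w.re + w.im * w.im < 1 := by rw [← hw2]; exact h1
    nlinarith [mul_pos (sub_pos.mpr h3) (sub_pos.mpr h4)]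
  exact lt_of_pow_lt_pow_left₀ 2 (norm_nonneg _) h2

theorem kcM_zero (c : ℝ) : kcM c 0 = c := by
  unfold kcM
  simp

theorem kcM_c (c : ℝ) : kcM c (c : ℂ) = 0 := by
  unfold kcM
  simp

theorem kob_cauchy {n : ℕ} (Ω : Set (EuclideanSpace ℂ (Fin n))) (x : ℕ → EuclideanSpace ℂ (Fin n))
    (g : ℕ → ℂ → EuclideanSpace ℂ (Fin n)) (c : ℕ → ℝ) (hc : ∀ j, 0 ≤ c j ∧ c j ≤ 1 / 2)
    (hs : Summable c) (hg : ∀ j, DifferentiableOn ℂ (g j) (Metric.ball (0 : ℂ) 1))
    (hm : ∀ j, Set.MapsTo (g j) (Metric.ball (0 : ℂ) 1) Ω) (h0 : ∀ j, g j 0 = x j)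
    (h1 : ∀ j, g j (c j : ℂ) = x (j + 1)) :
    ∀ ε > 0, ∃ N : ℕ, ∀ i ≥ N, ∀ j ≥ N, kob Ω (x i) (x j) < ε := by
  -- upward chains
  have hup : ∀ i m : ℕ, kob Ω (x i) (x (i + m)) ≤ ∑ k ∈ range m, 4 * c (i + k) := by
    intro i m
    have := kc_chain Ω (fun k => x (i + k)) (fun k => g (i + k)) (fun k => c (i + k)) m
      (fun k _ => hc _) (fun k _ => hg _) (fun k _ => hm _) (fun k _ => h0 _)
      (fun k _ => by
        show g (i + k) (c (i + k) : ℂ) = x (i + (k + 1))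
        rw [h1, add_assoc])
    exact this
  -- downward chains
  have hdown : ∀ i m : ℕ, kob Ω (x (i + m)) (x i) ≤ ∑ k ∈ range m, 4 * c (i + k) := by
    intro i m
    have h := kc_chain Ω (fun k => x (i + m - k))
      (fun k w => g (i + m - k - 1) (kcM (c (i + m - k - 1)) w))
      (fun k => c (i + m - k - 1)) m
      (fun k _ => hc _)
      (fun k _ => (hg _).comp (kcM_diff (hc _)) (kcM_maps (hc _)))
      (fun k _ => (hm _).comp (kcM_maps (hc _)))
      (fun k hk => by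
        show g (i + m - k - 1) (kcM (c (i + m - k - 1)) 0) = x (i + m - k)
        rw [kcM_zero, h1]
        congr 1
        omega)
      (fun k hk => by
        show g (i + m - k - 1) (kcM (c (i + m - k - 1)) (c (i + m - k - 1) : ℂ)) =
          x (i + m - (k + 1))
        rw [kcM_c, h0]
        congr 1)
    have e1 : x (i + m - 0) = x (i + m) := rfl
    have e2 : x (i + m - m) = x i := by
      congr 1
      omega
    rw [e1, e2] at h
    refine le_trans h (le_of_eq ?_)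
    rw [← Finset.sum_range_reflect]
    apply Finset.sum_congr rfl
    intro k hk
    rw [Finset.mem_range] at hk
    show 4 * c (i + m - (m - 1 - k) - 1) = 4 * c (i + k)
    congr 2
    omega
  have htail : ∀ i m : ℕ, ∑ k ∈ range m, 4 * c (i + k) ≤ 4 * ∑' k, c (k + i) := by
    intro i m
    rw [← Finset.mul_sum]
    apply mul_le_mul_of_nonneg_left _ (by norm_num)
    have hs' : Summable (fun k => c (k + i)) := (summable_nat_add_iff i).mpr hs
    have := hs'.sum_le_tsum (range m) (fun k _ => (hc _).1)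
    refine le_trans (le_of_eq ?_) this
    apply Finset.sum_congr rfl
    intro k _
    rw [add_comm]
  intro ε hε
  have ht : Tendsto (fun i => ∑' k, c (k + i)) atTop (𝓝 0) := tendsto_sum_nat_add c
  have hev : ∀ᶠ i in atTop, ∑' k, c (k + i) < ε / 4 := ht.eventually_lt_const (by positivity)
  obtain ⟨N, hN⟩ := Filter.eventually_atTop.mp hev
  refine ⟨N, fun i hi j hj => ?_⟩
  rcases le_total i j with h | h
  · obtain ⟨m, rfl⟩ := Nat.exists_eq_add_of_le h
    have h2 := hup i m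
    have h3 := htail i m
    have h4 := hN i hi
    linarith
  · obtain ⟨m, rfl⟩ := Nat.exists_eq_add_of_le h
    have h2 := hdown j m
    have h3 := htail j m
    have h4 := hN j hj
    linarith

end Helper112.Kc
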