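import Pool.Agent.Helper112.Kc.Defs2

set_option autoImplicit false

namespace Helper112.Kc

open Finset Filter Topology

/-! TO PROVE -/

/-- one disc from `p` to `q` -/
def kob_lower_S {n : ℕ} (Ω : Set (EuclideanSpace ℂ (Fin n)))
    (p q : EuclideanSpace ℂ (Fin n)) : Prop :=
  ∃ (f : ℂ → EuclideanSpace ℂ (Fin n)) (b : ℂ), DifferentiableOn ℂ f (Metric.ball (0 : ℂ) 1) ∧
    Set.MapsTo f (Metric.ball (0 : ℂ) 1) Ω ∧ ‖b‖ < 1 ∧ f 0 = p ∧ f b = q

theorem kob_lower_near {n : ℕ} (Ω : Set (EuclideanSpace ℂ (Fin n)))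
    (p q : EuclideanSpace ℂ (Fin n)) (r : ℝ) (hr : Metric.ball p (3 * r) ⊆ Ω)
    (h : ‖q - p‖ < r) : kob_lower_S Ω p q ∧ kob_lower_S Ω q p := by
  have hn : ∀ l ∈ Metric.ball (0 : ℂ) 1, ‖(2 * l) • (q - p)‖ ≤ 2 * ‖q - p‖ := by
    intro l hl
    rw [mem_ball_zero_iff] at hl
    rw [norm_smul, norm_mul, Complex.norm_ofNat]
    have : 0 ≤ ‖q - p‖ := norm_nonneg _
    nlinarith
  have hd : ∀ c v : EuclideanSpace ℂ (Fin n),
      DifferentiableOn ℂ (fun l : ℂ => c + (2 * l) • v) (Metric.ball (0 : ℂ) 1) := by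
    intro c v
    apply Differentiable.differentiableOn
    exact (differentiable_const c).add
      (((differentiable_const (2 : ℂ)).mul differentiable_id).smul (differentiable_const v))
  constructor
  · refine ⟨fun l => p + (2 * l) • (q - p), 1 / 2, hd _ _, ?_, by norm_num, by simp, ?_⟩
    · intro l hl
      apply hr
      rw [Metric.mem_ball, dist_eq_norm]
      have := hn l hl
      have e : p + (2 * l) • (q - p) - p = (2 * l) • (q - p) := by abel
      rw [e]
      have := norm_nonneg (q - p)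
      linarith
    · have : (2 * (1 / 2) : ℂ) = 1 := by norm_num
      simp only [this, one_smul]
      abel
  · refine ⟨fun l => q + (2 * l) • (p - q), 1 / 2, hd _ _, ?_, by norm_num, by simp, ?_⟩
    · intro l hl
      apply hr
      rw [Metric.mem_ball, dist_eq_norm]
      have := hn l hl
      have e : q + (2 * l) • (p - q) - p = (q - p) - (2 * l) • (q - p) := by
        rw [smul_sub, smul_sub]; abel
      rw [e]
      have h3 := norm_sub_le (q - p) ((2 * l) • (q - p))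
      linarith
    · have : (2 * (1 / 2) : ℂ) = 1 := by norm_num
      simp only [this, one_smul]
      abel

theorem kob_lower_chain {n : ℕ} (Ω : Set (EuclideanSpace ℂ (Fin n)))
    (p q : EuclideanSpace ℂ (Fin n)) (h : Relation.ReflTransGen (kob_lower_S Ω) p q) :
    ∃ (m : ℕ) (z : Fin (m + 1) → EuclideanSpace ℂ (Fin n))
        (f : Fin m → ℂ → EuclideanSpace ℂ (Fin n)) (b : Fin m → ℂ),
        z 0 = p ∧ z (Fin.last m) = q ∧
        (∀ j, DifferentiableOn ℂ (f j) (Metric.ball (0 : ℂ) 1) ∧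
              Set.MapsTo (f j) (Metric.ball (0 : ℂ) 1) Ω ∧
              ‖b j‖ < 1 ∧ f j 0 = z (Fin.castSucc j) ∧ f j (b j) = z (Fin.succ j)) := by
  induction h using Relation.ReflTransGen.head_induction_on with
  | refl => exact ⟨0, fun _ => q, Fin.elim0, Fin.elim0, rfl, rfl, fun j => j.elim0⟩
  | @head a c h1 _ ih =>
    obtain ⟨m, z, f, b, hz0, hz1, hj⟩ := ih
    obtain ⟨g, β, g1, g2, g3, g4, g5⟩ := h1
    refine ⟨m + 1, Fin.cons a z, Fin.cons g f, Fin.cons β b, rfl, ?_, ?_⟩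
    · rw [← Fin.succ_last, Fin.cons_succ]; exact hz1
    · intro j
      refine Fin.cases ?_ (fun i => ?_) j
      · refine ⟨g1, g2, g3, g4, ?_⟩
        rw [Fin.cons_zero, Fin.cons_zero, Fin.cons_succ, hz0]
        exact g5
      · obtain ⟨h1, h2, h3, h4, h5⟩ := hj i
        refine ⟨?_, ?_, ?_, ?_, ?_⟩
        · rw [Fin.cons_succ]; exact h1
        · rw [Fin.cons_succ]; exact h2
        · rw [Fin.cons_succ]; exact h3
        · rw [Fin.cons_succ, Fin.castSucc_succ, Fin.cons_succ]; exact h4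
        · rw [Fin.cons_succ, Fin.cons_succ, Fin.cons_succ]; exact h5

theorem kob_lower_tri {E : Type*} [NormedAddCommGroup E] : ∀ (m : ℕ) (z : Fin (m + 1) → E),
    ‖z 0 - z (Fin.last m)‖ ≤ ∑ j : Fin m, ‖z (Fin.succ j) - z (Fin.castSucc j)‖ := by
  intro m
  induction m with
  | zero => intro z; simp
  | succ m ih =>
    intro z
    have h := ih (fun i => z (Fin.castSucc i))
    rw [Fin.sum_univ_castSucc]
    have e : z 0 - z (Fin.last (m + 1))
        = (z (Fin.castSucc 0) - z (Fin.castSucc (Fin.last m)))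
          - (z (Fin.succ (Fin.last m)) - z (Fin.castSucc (Fin.last m))) := by
      rw [Fin.succ_last, Fin.castSucc_zero]; abel
    rw [e]
    refine (norm_sub_le _ _).trans ?_
    have h' : ‖z (Fin.castSucc 0) - z (Fin.castSucc (Fin.last m))‖
        ≤ ∑ j : Fin m, ‖z (Fin.succ (Fin.castSucc j)) - z (Fin.castSucc (Fin.castSucc j))‖ := h
    linarith

theorem kob_lower {n : ℕ} (Ω : Set (EuclideanSpace ℂ (Fin n))) (hb : Bornology.IsBounded Ω)
    (ho : IsOpen Ω) (hc : IsConnected Ω) :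
    ∃ C : ℝ, 0 < C ∧ ∀ p ∈ Ω, ∀ q ∈ Ω, ‖p - q‖ ≤ C * kob Ω p q := by
  obtain ⟨M0, hM0⟩ := hb.subset_ball (0 : EuclideanSpace ℂ (Fin n))
  set M := max M0 1 with hM
  have hM1 : 0 < M := lt_of_lt_of_le one_pos (le_max_right _ _)
  have hMb : ∀ x ∈ Ω, ‖x‖ < M := fun x hx =>
    lt_of_lt_of_le (mem_ball_zero_iff.mp (hM0 hx)) (le_max_left _ _)
  refine ⟨2 * M, by linarith, ?_⟩
  intro p hp q hq
  have hconn : Relation.ReflTransGen (kob_lower_S Ω) p q := by
    refine hc.isPreconnected.induction₂' (fun x y => Relation.ReflTransGen (kob_lower_S Ω) x y)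
      ?_ ?_ hp hq
    · intro x hx
      obtain ⟨r, hr, hr2⟩ := Metric.isOpen_iff.mp ho x hx
      have : ∀ᶠ y in 𝓝[Ω] x, y ∈ Metric.ball x (r / 3) :=
        mem_nhdsWithin_of_mem_nhds (Metric.ball_mem_nhds x (by linarith))
      filter_upwards [this] with y hy
      rw [Metric.mem_ball, dist_eq_norm] at hy
      have h2 := kob_lower_near Ω x y (r / 3) (by
        rw [mul_div_cancel₀ r (by norm_num : (3 : ℝ) ≠ 0)]; exact hr2) hy
      exact ⟨Relation.ReflTransGen.single h2.1, Relation.ReflTransGen.single h2.2⟩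
    · intro x y z _ _ _ h1 h2
      exact h1.trans h2
  obtain ⟨m0, z0, f0, b0, c1, c2, c3⟩ := kob_lower_chain Ω p q hconn
  have hne : {s : ℝ | ∃ (m : ℕ) (z : Fin (m + 1) → EuclideanSpace ℂ (Fin n))
        (f : Fin m → ℂ → EuclideanSpace ℂ (Fin n)) (b : Fin m → ℂ),
        z 0 = p ∧ z (Fin.last m) = q ∧
        (∀ j, DifferentiableOn ℂ (f j) (Metric.ball (0 : ℂ) 1) ∧
              Set.MapsTo (f j) (Metric.ball (0 : ℂ) 1) Ω ∧
              ‖b j‖ < 1 ∧ f j 0 = z (Fin.castSucc j) ∧ f j (b j) = z (Fin.succ j)) ∧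
        s = ∑ j, Real.log ((1 + ‖b j‖) / (1 - ‖b j‖))}.Nonempty :=
    ⟨_, m0, z0, f0, b0, c1, c2, c3, rfl⟩
  have hlow : ‖p - q‖ / (2 * M) ≤ kob Ω p q := by
    refine le_csInf hne ?_
    rintro s ⟨m, z, f, b, rfl, rfl, hj, rfl⟩
    rw [div_le_iff₀ (by linarith)]
    refine (kob_lower_tri m z).trans ?_
    rw [Finset.sum_mul]
    refine Finset.sum_le_sum fun j _ => ?_
    obtain ⟨h1, h2, h3, h4, h5⟩ := hj j
    have hb0 : 0 ≤ ‖b j‖ := norm_nonneg _
    have hball : b j ∈ Metric.ball (0 : ℂ) 1 := by rw [mem_ball_zero_iff]; exact h3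
    have h0ball : (0 : ℂ) ∈ Metric.ball (0 : ℂ) 1 := by simp
    have hmaps : Set.MapsTo (f j) (Metric.ball (0 : ℂ) 1) (Metric.closedBall (f j 0) (2 * M)) := by
      intro w hw
      rw [Metric.mem_closedBall, dist_eq_norm]
      have e1 := hMb _ (h2 hw)
      have e2 := hMb _ (h2 h0ball)
      have e3 := norm_sub_le (f j w) (f j 0)
      linarith
    have hS := Complex.dist_le_div_mul_dist_of_mapsTo_ball h1 hmaps hball
    rw [h4, h5, dist_eq_norm, dist_eq_norm, sub_zero, div_one] at hS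
    have hlog : ‖b j‖ ≤ Real.log ((1 + ‖b j‖) / (1 - ‖b j‖)) := by
      rw [Real.log_div (by linarith) (by linarith)]
      have e1 : 0 ≤ Real.log (1 + ‖b j‖) := Real.log_nonneg (by linarith)
      have e2 := Real.log_le_sub_one_of_pos (show (0 : ℝ) < 1 - ‖b j‖ by linarith)
      linarith
    calc ‖z (Fin.succ j) - z (Fin.castSucc j)‖ ≤ 2 * M * ‖b j‖ := hS
      _ ≤ 2 * M * Real.log ((1 + ‖b j‖) / (1 - ‖b j‖)) :=
          mul_le_mul_of_nonneg_left hlog (by linarith)
      _ = _ := by ring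
  rw [div_le_iff₀ (by linarith)] at hlow
  linarith

end Helper112.Kc
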