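import Pool.Agent.Helper112.Kc.Defs2
import Pool.Agent.Helper112.Kc.JB5

set_option autoImplicit false

namespace Helper112.Kc

open Finset Filter Topology

/-! TO PROVE -/

theorem pt_end_ix_ne {d : ℕ} (hd : 0 < d) (l : ℕ) : ix d l hd ≠ Fin.last d := by
  intro h
  have h1 := congrArg Fin.val h
  have h2 : l % d = d := h1
  have := Nat.mod_lt l hd
  omega

/-- moving to the end of the step changes the base point -/
theorem pt_end {d : ℕ} (hd : 0 < d) (j : ℕ) (ζ : ℂ) :
    pt d j hd ((pp d j : ℂ) + (RR d j : ℂ) * (cc j : ℂ)) ζ = pt d (j + 1) hd (pp d (j + 1) : ℂ) ζ := by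
  unfold pt
  congr 1
  funext i
  by_cases hi : i = Fin.last d
  · rw [if_pos hi, if_pos hi]
  · rw [if_neg hi, if_neg hi]
    have hR : (if i = ix d (j + 1) hd then ((pp d (j + 1) : ℝ) : ℂ) else (ZZ d (j + 1) i : ℂ)) =
        (ZZ d (j + 1) i : ℂ) := by
      by_cases h : i = ix d (j + 1) hd
      · rw [if_pos h, h, ZZ_ix hd]
      · rw [if_neg h]
    rw [hR, ZZ_succ]
    by_cases h : i = ix d j hd
    · have h2 : j % d = (i : ℕ) := by rw [h]; rfl
      rw [if_pos h, if_pos h2, h, ZZ_ix hd]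
      push_cast
      ring
    · have h2 : ¬ (j % d = (i : ℕ)) := by
        intro h3
        apply h
        apply Fin.ext
        exact h3.symm
      rw [if_neg h, if_neg h2, add_zero]

/-- `UU` does not see the last coordinate -/
theorem UU_base (Λ : ℂ → ℝ) {d : ℕ} (hd : 0 < d) (j : ℕ) (ζ : ℂ) :
    UU Λ d hd (pt d j hd (pp d j : ℂ) ζ) = UU Λ d hd (bz d j) := by
  unfold UU
  refine tsum_congr fun l => ?_
  have h : (pt d j hd (pp d j : ℂ) ζ) (ix d l hd) = (bz d j) (ix d l hd) := by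
    change (if ix d l hd = Fin.last d then ζ else if ix d l hd = ix d j hd then (pp d j : ℂ)
      else (ZZ d j (ix d l hd) : ℂ)) = (ZZ d j (ix d l hd) : ℂ)
    rw [if_neg (pt_end_ix_ne hd l)]
    by_cases h2 : ix d l hd = ix d j hd
    · rw [if_pos h2, h2, ZZ_ix hd]
    · rw [if_neg h2]
  rw [h]

/-- the ratio occurring in the logarithms is at most `1/2` -/
theorem ratio_le {d : ℕ} (hd : 0 < d) {l j : ℕ} (h : l < j) (hc : l % d = j % d) (lam : ℂ) :
    ‖(RR d j : ℂ) * lam / ((pp d j - pp d l : ℝ) : ℂ)‖ ≤ ‖lam‖ / 2 := by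
  have h1 := (pp_sub hd h hc).1
  have h2 := RR_lt h hc
  have h3 : 0 < cc l * RR d l := mul_pos (cc_pos l) (RR_pos d l)
  have h4 : 0 < pp d j - pp d l := lt_of_lt_of_le h3 h1
  have h5 := RR_pos d j
  rw [norm_div, norm_mul, Complex.norm_real, Complex.norm_real, Real.norm_of_nonneg h5.le,
    Real.norm_of_nonneg h4.le, div_le_iff₀ h4]
  have h6 : RR d j ≤ (pp d j - pp d l) / 2 := by linarith
  calc RR d j * ‖lam‖ ≤ (pp d j - pp d l) / 2 * ‖lam‖ :=
        mul_le_mul_of_nonneg_right h6 (norm_nonneg _)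
    _ = ‖lam‖ / 2 * (pp d j - pp d l) := by ring

end Helper112.Kc
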