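import Pool.Agent.Helper112.Kc.JD2
import Pool.Agent.Helper112.Kc.JD3

set_option autoImplicit false

namespace Helper112.Kc

open Finset Filter Topology

theorem Dl_pos (Λ : ℂ → ℝ) (hΛ : IsLam Λ) {d : ℕ} (hd : 3 ≤ d) (j : ℕ) :
    19 / 20 * GG j ≤ Dl Λ d j := by
  have h1 := Dl_lower Λ hΛ hd j
  have h2 := class_sums hd j
  have h3 := log_rr d j
  have h4 := hΛ.min0 1
  have h5 : Λ 1 = 0 := by rw [hΛ.eq_log 1 (by simp)]; simp
  have h6 := mm_pos j
  have h7 : GG (j + 1) ≤ GG j * (1 / 100) := by simpa using GG_le j 1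
  have h8 := GG_pos j
  nlinarith

theorem summable_Dl (Λ : ℂ → ℝ) (hΛ : IsLam Λ) {d : ℕ} (hd : 3 ≤ d) : Summable (Dl Λ d) := by
  have hG : Summable (fun j : ℕ => 3 * (GG 0 * (1 / 100 : ℝ) ^ j)) :=
    ((summable_geometric_of_lt_one (by norm_num) (by norm_num)).mul_left _).mul_left _
  refine Summable.of_nonneg_of_le (fun j => ?_) (fun j => ?_) hG
  · have := Dl_pos Λ hΛ hd j
    have := GG_pos j
    linarith
  · have h1 := Dl_upper Λ hΛ hd j
    have h2 := GG_le 0 j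
    rw [zero_add] at h2
    linarith

theorem dep_succ (Λ : ℂ → ℝ) (hΛ : IsLam Λ) {d : ℕ} (hd : 3 ≤ d) (j : ℕ) :
    dep Λ d j = Dl Λ d j + dep Λ d (j + 1) := by
  have hs : Summable (fun l => Dl Λ d (j + l)) := by
    have := (summable_nat_add_iff j).2 (summable_Dl Λ hΛ hd)
    simpa [add_comm] using this
  unfold dep
  rw [hs.tsum_eq_zero_add]
  simp only [add_zero]
  congr 1
  apply tsum_congr
  intro l
  congr 1
  ring

theorem dep_pos (Λ : ℂ → ℝ) (hΛ : IsLam Λ) {d : ℕ} (hd : 3 ≤ d) (j : ℕ) : 0 < dep Λ d j := by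
  have hs : Summable (fun l => Dl Λ d (j + l)) := by
    have := (summable_nat_add_iff j).2 (summable_Dl Λ hΛ hd)
    simpa [add_comm] using this
  have hp : ∀ l, 0 < Dl Λ d (j + l) := fun l => by
    have := Dl_pos Λ hΛ hd (j + l)
    have := GG_pos (j + l)
    linarith
  exact hs.tsum_pos (fun l => (hp l).le) 0 (hp 0)

end Helper112.Kc
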