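import Pool.Agent.Helper112.Kc.Defs2
import Pool.Agent.Helper112.Kc.KA1
import Pool.Agent.Helper112.Kc.KA2
import Pool.Agent.Helper112.Kc.M3

set_option autoImplicit false

namespace Helper112.Kc

open Finset Filter Topology

/-! TO PROVE -/

theorem disc_end_log {x : ℝ} (hx : 0 < x) :
    Complex.log (x : ℂ) = ((Real.log ‖(x : ℂ)‖ : ℝ) : ℂ) := by
  rw [Complex.norm_real, Real.norm_of_nonneg hx.le, Complex.ofReal_log hx.le]

theorem disc_end (Λ : ℂ → ℝ) (hΛ : IsLam Λ) {d : ℕ} (hd3 : 3 ≤ d) (hd : 0 < d) (ε : ℝ) (j : ℕ) :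
    disc Λ d hd ε j (cc j : ℂ) = xx Λ d hd ε (j + 1) := by
  have hc0 := cc_pos j
  have hc1 := cc_le j
  have hcn : ‖(cc j : ℂ)‖ = cc j := by
    rw [Complex.norm_real, Real.norm_of_nonneg hc0.le]
  unfold disc xx
  rw [pt_end]
  congr 2
  have h1 := UU_pt Λ hΛ hd3 hd j 0 (cc j : ℂ) (by rw [hcn]; linarith)
  rw [pt_end, UU_base] at h1
  have h2 : VV Λ d j ((pp d j : ℂ) + (RR d j : ℂ) * (cc j : ℂ)) = Dl Λ d j := by
    unfold Dl
    congr 1
    rw [pp_add hd j]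
    push_cast
    ring
  rw [h2] at h1
  have h3 := dep_succ Λ hΛ hd3 j
  have h4 : ∑ l ∈ (range j).filter (fun l => l % d = j % d),
      (mm l : ℂ) * Complex.log (1 + (RR d j : ℂ) * (cc j : ℂ) / ((pp d j - pp d l : ℝ) : ℂ)) =
      ((∑ l ∈ (range j).filter (fun l => l % d = j % d),
          mm l * Real.log ‖1 + (RR d j : ℂ) * (cc j : ℂ) / ((pp d j - pp d l : ℝ) : ℂ)‖ : ℝ) : ℂ) := by
    rw [Complex.ofReal_sum]
    apply Finset.sum_congr rfl
    intro l hl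
    rw [Finset.mem_filter, Finset.mem_range] at hl
    have h5 := ratio_le hd hl.1 hl.2 (cc j : ℂ)
    have h6 : (RR d j : ℂ) * (cc j : ℂ) / ((pp d j - pp d l : ℝ) : ℂ) =
        ((RR d j * cc j / (pp d j - pp d l) : ℝ) : ℂ) := by push_cast; ring
    rw [h6] at h5 ⊢
    rw [Complex.norm_real, hcn, Real.norm_eq_abs] at h5
    have h7 := (abs_le.1 h5).1
    have h8 : 0 < 1 + RR d j * cc j / (pp d j - pp d l) := by linarith
    have h9 : (1 : ℂ) + ((RR d j * cc j / (pp d j - pp d l) : ℝ) : ℂ) =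
        ((1 + RR d j * cc j / (pp d j - pp d l) : ℝ) : ℂ) := by push_cast; ring
    rw [h9, disc_end_log h8]
    push_cast
    ring
  unfold zt
  rw [h4, h1, h3]
  push_cast
  ring

end Helper112.Kc
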