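import Pool.Agent.Helper112.Kc.Defs2
import Pool.Agent.Helper112.Kc.KA2

set_option autoImplicit false

namespace Helper112.Kc

open Finset Filter Topology

/-! TO PROVE -/

theorem disc_hol_zt (Λ : ℂ → ℝ) {d : ℕ} (hd : 0 < d) (j : ℕ) :
    DifferentiableOn ℂ (zt Λ d j hd) (Metric.ball (0 : ℂ) 1) := by
  unfold zt
  apply DifferentiableOn.sub (differentiableOn_const _)
  apply DifferentiableOn.fun_sum
  intro l hl
  rw [Finset.mem_filter, Finset.mem_range] at hl
  apply DifferentiableOn.const_mul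
  intro lam hlam
  rw [mem_ball_zero_iff] at hlam
  apply DifferentiableAt.differentiableWithinAt
  apply DifferentiableAt.clog
  · fun_prop
  · have h1 := ratio_le hd hl.1 hl.2 lam
    have h2 : ‖(RR d j : ℂ) * lam / ((pp d j - pp d l : ℝ) : ℂ)‖ < 1 := by linarith
    left
    have h3 := (abs_le.mp (Complex.abs_re_le_norm
      ((RR d j : ℂ) * lam / ((pp d j - pp d l : ℝ) : ℂ)))).1
    rw [Complex.add_re, Complex.one_re]
    linarith

theorem disc_hol (Λ : ℂ → ℝ) {d : ℕ} (hd : 0 < d) (ε : ℝ) (j : ℕ) :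
    DifferentiableOn ℂ (disc Λ d hd ε j) (Metric.ball (0 : ℂ) 1) := by
  rw [differentiableOn_euclidean]
  intro i
  unfold disc pt
  simp only
  split_ifs with h1 h2
  · exact (disc_hol_zt Λ hd j).const_mul _
  · fun_prop
  · fun_prop

end Helper112.Kc
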