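import Pool.Agent.Helper112.Kc.M3
import Pool.Agent.Helper112.Kc.JD1

set_option autoImplicit false

namespace Helper112.Kc

open Finset Filter Topology

theorem star (Λ : ℂ → ℝ) (hΛ : IsLam Λ) {d : ℕ} (hd : 3 ≤ d) (j : ℕ) (lam : ℂ)
    (hl : ‖lam‖ ≤ 1) :
    VV Λ d j ((pp d j : ℂ) + (RR d j : ℂ) * lam) < dep Λ d j := by
  have h1 := VV_upper Λ hΛ hd j lam hl
  have h2 := class_sums hd j
  have h3 := Dl_lower Λ hΛ hd j
  have h4 := dep_succ Λ hΛ hd j
  have h5 := dep_succ Λ hΛ hd (j + 1)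
  have h6 := dep_pos Λ hΛ hd (j + 1 + 1)
  have h7 := Dl_pos Λ hΛ hd (j + 1)
  have h8 := GG_pos (j + 1)
  have h9 := mm_LL j
  have h10 : Real.log (cc j * RR d j) = Real.log (RR d j) - LL j := by
    rw [Real.log_mul (cc_pos j).ne' (RR_pos d j).ne', log_cc]; ring
  rw [h10] at h3
  nlinarith

end Helper112.Kc
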