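import Pool.Agent.Helper112.Kc.Defs2
import Pool.Agent.Helper112.Kc.KA1
import Pool.Agent.Helper112.Kc.KA2
import Pool.Agent.Helper112.Kc.M4

set_option autoImplicit false

namespace Helper112.Kc

open Finset Filter Topology

/-! TO PROVE -/

theorem disc_neg (Λ : ℂ → ℝ) (hΛ : IsLam Λ) {d : ℕ} (hd3 : 3 ≤ d) (hd : 0 < d) (ε : ℝ)
    (hε : 0 < ε) (j : ℕ) (lam : ℂ) (hl : ‖lam‖ < 1) :
    (disc Λ d hd ε j lam (Fin.last d)).re + ε * UU Λ d hd (disc Λ d hd ε j lam) < 0 := by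
  have h1 : (disc Λ d hd ε j lam (Fin.last d)) = (ε : ℂ) * zt Λ d j hd lam := by
    unfold disc pt
    simp
  have h2 : (zt Λ d j hd lam).re = - UU Λ d hd (bz d j) - dep Λ d j -
      ∑ l ∈ (range j).filter (fun l => l % d = j % d),
        mm l * Real.log ‖1 + (RR d j : ℂ) * lam / ((pp d j - pp d l : ℝ) : ℂ)‖ := by
    unfold zt
    rw [Complex.sub_re, Complex.sub_re, Complex.neg_re, Complex.ofReal_re, Complex.ofReal_re,
      Complex.re_sum]
    congr 1
    refine Finset.sum_congr rfl (fun l _ => ?_)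
    rw [Complex.re_ofReal_mul, Complex.log_re]
  rw [h1, Complex.re_ofReal_mul, h2]
  unfold disc
  rw [UU_pt Λ hΛ hd3 hd j _ lam hl.le]
  have h3 := star Λ hΛ hd3 j lam hl.le
  have h4 := mul_lt_mul_of_pos_left h3 hε
  linarith

end Helper112.Kc
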