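import Pool.Agent.Helper112.Kc.Defs2
import Pool.Agent.Helper112.Kc.KA2
import Pool.Agent.Helper112.Kc.M3

set_option autoImplicit false

namespace Helper112.Kc

open Finset Filter Topology

/-! TO PROVE -/

theorem ztb_GG_le (j : ℕ) : GG j ≤ (1 / 100 : ℝ) ^ j := by
  have h := GG_le 0 j
  rw [zero_add] at h
  have h0 : GG 0 = 1 := by
    unfold GG
    simp
  rw [h0, one_mul] at h
  exact h

theorem ztb_bz (d j : ℕ) : ‖bz d j‖ ≤ (d : ℝ) + 1 := by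
  rw [EuclideanSpace.norm_eq]
  apply Real.sqrt_le_iff.2
  refine ⟨by positivity, ?_⟩
  have h1 : ∀ i ∈ (Finset.univ : Finset (Fin (d + 1))), ‖(bz d j) i‖ ^ 2 ≤ (1 : ℝ) := by
    intro i _
    have h2 : (bz d j) i = ((ZZ d j i : ℝ) : ℂ) := rfl
    rw [h2, Complex.norm_real, Real.norm_eq_abs, sq_abs]
    obtain ⟨h3, h4⟩ := ZZ_mem d j i
    nlinarith
  refine (Finset.sum_le_sum h1).trans ?_
  rw [Finset.sum_const, nsmul_eq_mul, mul_one, Finset.card_univ, Fintype.card_fin]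
  push_cast
  nlinarith [Nat.cast_nonneg (α := ℝ) d]

theorem ztb_geom : HasSum (fun l : ℕ => (1 / 100 : ℝ) ^ l) (100 / 99) := by
  have h := hasSum_geometric_of_lt_one (show (0 : ℝ) ≤ 1 / 100 by norm_num)
    (show (1 / 100 : ℝ) < 1 by norm_num)
  have h2 : (1 - 1 / 100 : ℝ)⁻¹ = 100 / 99 := by norm_num
  rw [h2] at h
  exact h

theorem ztb_dep (Λ : ℂ → ℝ) (hΛ : IsLam Λ) {d : ℕ} (hd3 : 3 ≤ d) (j : ℕ) :
    |dep Λ d j| ≤ 6 := by
  have h0 : ∀ l, 0 ≤ Dl Λ d (j + l) := by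
    intro l
    have h1 := Dl_pos Λ hΛ hd3 (j + l)
    have h2 := GG_pos (j + l)
    linarith
  have h1 : ∀ l, Dl Λ d (j + l) ≤ 3 * (1 / 100 : ℝ) ^ l := by
    intro l
    have h2 := Dl_upper Λ hΛ hd3 (j + l)
    have h3 := GG_le j l
    have h4 := ztb_GG_le j
    have h5 : (1 / 100 : ℝ) ^ j ≤ 1 := pow_le_one₀ (by norm_num) (by norm_num)
    have h6 : GG j ≤ 1 := h4.trans h5
    have h7 : 0 ≤ (1 / 100 : ℝ) ^ l := by positivity
    have h8 : GG j * (1 / 100) ^ l ≤ 1 * (1 / 100) ^ l := mul_le_mul_of_nonneg_right h6 h7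
    linarith
  have hg : HasSum (fun l : ℕ => 3 * (1 / 100 : ℝ) ^ l) (3 * (100 / 99)) := ztb_geom.mul_left 3
  have hs : Summable (fun l => Dl Λ d (j + l)) := Summable.of_nonneg_of_le h0 h1 hg.summable
  have h9 : dep Λ d j ≤ 3 * (100 / 99) := by
    unfold dep
    rw [← hg.tsum_eq]
    exact hs.tsum_le_tsum h1 hg.summable
  have h10 : 0 ≤ dep Λ d j := tsum_nonneg h0
  rw [abs_of_nonneg h10]
  refine h9.trans ?_
  norm_num

theorem zt_bound (Λ : ℂ → ℝ) (hΛ : IsLam Λ) {d : ℕ} (hd3 : 3 ≤ d) (hd : 0 < d)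
    (hdiff : Differentiable ℝ (UU Λ d hd)) (S : ℝ) (hS : ∀ p, ‖fderiv ℝ (UU Λ d hd) p‖ ≤ S) :
    ∃ M : ℝ, 0 ≤ M ∧ ∀ j lam, ‖lam‖ ≤ 1 → ‖zt Λ d j hd lam‖ ≤ M := by
  have hS0 : 0 ≤ S := (norm_nonneg _).trans (hS 0)
  refine ⟨|UU Λ d hd 0| + S * ((d : ℝ) + 1) + 6 + 2, by positivity, ?_⟩
  intro j lam hlam
  have h1 : |UU Λ d hd (bz d j)| ≤ |UU Λ d hd 0| + S * ((d : ℝ) + 1) := by
    have h2 := (convex_univ (𝕜 := ℝ) (E := EuclideanSpace ℂ (Fin (d + 1)))).norm_image_sub_le_of_norm_fderiv_le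
      (𝕜 := ℝ) (f := UU Λ d hd) (fun x _ => hdiff x) (fun x _ => hS x) (Set.mem_univ 0)
      (Set.mem_univ (bz d j))
    rw [sub_zero, Real.norm_eq_abs] at h2
    have h3 : S * ‖bz d j‖ ≤ S * ((d : ℝ) + 1) := mul_le_mul_of_nonneg_left (ztb_bz d j) hS0
    have h4 : |UU Λ d hd (bz d j)| ≤ |UU Λ d hd (bz d j) - UU Λ d hd 0| + |UU Λ d hd 0| := by
      have := abs_add_le (UU Λ d hd (bz d j) - UU Λ d hd 0) (UU Λ d hd 0)
      rw [sub_add_cancel] at this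
      exact this
    linarith
  have h5 := ztb_dep Λ hΛ hd3 j
  have h6 : ‖∑ l ∈ (range j).filter (fun l => l % d = j % d),
      (mm l : ℂ) * Complex.log (1 + (RR d j : ℂ) * lam / ((pp d j - pp d l : ℝ) : ℂ))‖ ≤ 2 := by
    refine (norm_sum_le _ _).trans ?_
    have h7 : ∀ l ∈ (range j).filter (fun l => l % d = j % d),
        ‖(mm l : ℂ) * Complex.log (1 + (RR d j : ℂ) * lam / ((pp d j - pp d l : ℝ) : ℂ))‖ ≤
        (1 / 100 : ℝ) ^ l := by
      intro l hl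
      obtain ⟨hl1, hl2⟩ := Finset.mem_filter.1 hl
      rw [Finset.mem_range] at hl1
      have h8 := ratio_le hd hl1 hl2 lam
      have h9 : ‖(RR d j : ℂ) * lam / ((pp d j - pp d l : ℝ) : ℂ)‖ ≤ 1 / 2 := by linarith
      have h10 := Complex.norm_log_one_add_half_le_self h9
      have h11 : ‖Complex.log (1 + (RR d j : ℂ) * lam / ((pp d j - pp d l : ℝ) : ℂ))‖ ≤ 1 := by
        linarith
      rw [norm_mul, Complex.norm_real, Real.norm_eq_abs, abs_of_pos (mm_pos l)]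
      calc mm l * ‖Complex.log (1 + (RR d j : ℂ) * lam / ((pp d j - pp d l : ℝ) : ℂ))‖
          ≤ mm l * 1 := mul_le_mul_of_nonneg_left h11 (mm_pos l).le
        _ = mm l := mul_one _
        _ ≤ GG l := mm_le l
        _ ≤ _ := ztb_GG_le l
    refine (Finset.sum_le_sum h7).trans ?_
    refine (ztb_geom.summable.sum_le_tsum _ (fun l _ => by positivity)).trans ?_
    rw [ztb_geom.tsum_eq]
    norm_num
  unfold zt
  have h12 : ‖(UU Λ d hd (bz d j) : ℂ)‖ = |UU Λ d hd (bz d j)| := by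
    rw [Complex.norm_real, Real.norm_eq_abs]
  have h13 : ‖(dep Λ d j : ℂ)‖ = |dep Λ d j| := by
    rw [Complex.norm_real, Real.norm_eq_abs]
  have h14 := norm_sub_le (-(UU Λ d hd (bz d j) : ℂ) - (dep Λ d j : ℂ))
    (∑ l ∈ (range j).filter (fun l => l % d = j % d),
      (mm l : ℂ) * Complex.log (1 + (RR d j : ℂ) * lam / ((pp d j - pp d l : ℝ) : ℂ)))
  have h15 := norm_sub_le (-(UU Λ d hd (bz d j) : ℂ)) (dep Λ d j : ℂ)
  rw [norm_neg, h12, h13] at h15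
  linarith
end Helper112.Kc
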