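import Pool.Agent.Helper112.Kc.Defs2
import Pool.Agent.Helper112.Kc.JB5

set_option autoImplicit false

namespace Helper112.Kc

open Finset Filter Topology

/-! TO PROVE -/

theorem disc_norm (Λ : ℂ → ℝ) {d : ℕ} (hd : 0 < d) (ε : ℝ) (j : ℕ) (lam : ℂ) (hl : ‖lam‖ ≤ 1)
    (hz : ‖(ε : ℂ) * zt Λ d j hd lam‖ ≤ 1) : ‖disc Λ d hd ε j lam‖ ≤ 2 * (d + 1) := by
  have hpp : 0 ≤ pp d j ∧ pp d j ≤ 1 := by
    rw [← ZZ_ix hd]
    exact ZZ_mem d j _
  have hcoord : ∀ i, ‖disc Λ d hd ε j lam i‖ ≤ 2 := by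
    intro i
    have e : disc Λ d hd ε j lam i = if i = Fin.last d then (ε : ℂ) * zt Λ d j hd lam
      else if i = ix d j hd then (pp d j : ℂ) + (RR d j : ℂ) * lam else (ZZ d j i : ℂ) := rfl
    rw [e]
    split_ifs
    · linarith
    · refine (norm_add_le _ _).trans ?_
      rw [norm_mul, Complex.norm_real, Complex.norm_real, Real.norm_eq_abs, Real.norm_eq_abs,
        abs_of_nonneg hpp.1, abs_of_pos (RR_pos d j)]
      have h1 : RR d j * ‖lam‖ ≤ 1 * 1 :=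
        mul_le_mul (RR_le_one d j) hl (norm_nonneg _) zero_le_one
      linarith [hpp.2]
    · have h1 := ZZ_mem d j i
      rw [Complex.norm_real, Real.norm_eq_abs, abs_of_nonneg h1.1]
      linarith [h1.2]
  rw [EuclideanSpace.norm_eq]
  refine Real.sqrt_le_iff.2 ⟨by positivity, ?_⟩
  calc ∑ i, ‖disc Λ d hd ε j lam i‖ ^ 2 ≤ ∑ _i : Fin (d + 1), (2 : ℝ) ^ 2 :=
        Finset.sum_le_sum fun i _ => pow_le_pow_left₀ (norm_nonneg _) (hcoord i) 2
    _ = ((d : ℝ) + 1) * 4 := by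
        rw [Finset.sum_const, Finset.card_univ, Fintype.card_fin, nsmul_eq_mul]
        push_cast
        ring
    _ ≤ (2 * ((d : ℝ) + 1)) ^ 2 := by
        have : (0 : ℝ) ≤ d := Nat.cast_nonneg d
        nlinarith

end Helper112.Kc
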