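import Pool.Agent.Helper112.Kc.Defs2
import Pool.Agent.Helper112.Kc.M3
import Pool.Agent.Helper112.Kc.KA2

set_option autoImplicit false

namespace Helper112.Kc

open Finset Filter Topology

/-! TO PROVE -/

theorem ix_ne_last_352 {d : ℕ} (hd : 0 < d) (j : ℕ) : ix d j hd ≠ Fin.last d := by
  intro h
  have h1 := congrArg Fin.val h
  have h2 : j % d < d := Nat.mod_lt j hd
  simp only [ix, Fin.val_last] at h1
  omega

theorem xx_eq_352 (Λ : ℂ → ℝ) {d : ℕ} (hd : 0 < d) (ε : ℝ) (j : ℕ) :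
    xx Λ d hd ε j = WithLp.toLp 2 (fun i => if i = Fin.last d then
      (ε : ℂ) * (-(UU Λ d hd (bz d j) : ℂ) - (dep Λ d j : ℂ)) else (ZZ d j i : ℂ)) := by
  unfold xx pt
  congr 1
  funext i
  by_cases h : i = Fin.last d
  · rw [if_pos h, if_pos h]
  · rw [if_neg h, if_neg h]
    by_cases h2 : i = ix d j hd
    · rw [if_pos h2, h2, ZZ_ix hd]
    · rw [if_neg h2]

theorem dep_tendsto_352 (Λ : ℂ → ℝ) (d : ℕ) : Tendsto (dep Λ d) atTop (𝓝 0) := by
  have h := tendsto_sum_nat_add (Dl Λ d)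
  refine h.congr fun j => ?_
  unfold dep
  exact tsum_congr fun l => by rw [add_comm]

theorem xx_limit (Λ : ℂ → ℝ) (hΛ : IsLam Λ) {d : ℕ} (hd3 : 3 ≤ d) (hd : 0 < d) (ε : ℝ)
    (hcont : Continuous (UU Λ d hd)) :
    ∃ xs : EuclideanSpace ℂ (Fin (d + 1)), Tendsto (xx Λ d hd ε) atTop (𝓝 xs) ∧
      (xs (Fin.last d)).re + ε * UU Λ d hd xs = 0 := by
  have hL : ∀ i : Fin (d + 1), Tendsto (fun j => ZZ d j i) atTop (𝓝 (⨆ j, ZZ d j i)) := by
    intro i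
    refine tendsto_atTop_ciSup (fun j j' h => ZZ_mono h i) ⟨1, ?_⟩
    rintro _ ⟨j, rfl⟩
    exact (ZZ_mem d j i).2
  set L : Fin (d + 1) → ℝ := fun i => ⨆ j, ZZ d j i with hLdef
  set b : EuclideanSpace ℂ (Fin (d + 1)) := WithLp.toLp 2 (fun i => (L i : ℂ)) with hb
  have hLc : ∀ i : Fin (d + 1), Tendsto (fun j => (ZZ d j i : ℂ)) atTop (𝓝 (L i : ℂ)) := fun i =>
    (Complex.continuous_ofReal.tendsto _).comp (hL i)
  have hbz : Tendsto (fun j => bz d j) atTop (𝓝 b) :=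
    ((PiLp.continuous_toLp 2 (fun _ : Fin (d + 1) => ℂ)).tendsto _).comp
      (tendsto_pi_nhds.2 hLc)
  have hU : Tendsto (fun j => UU Λ d hd (bz d j)) atTop (𝓝 (UU Λ d hd b)) :=
    (hcont.tendsto b).comp hbz
  have hUc : Tendsto (fun j => (UU Λ d hd (bz d j) : ℂ)) atTop (𝓝 (UU Λ d hd b : ℂ)) :=
    (Complex.continuous_ofReal.tendsto _).comp hU
  have hDc : Tendsto (fun j => (dep Λ d j : ℂ)) atTop (𝓝 ((0 : ℝ) : ℂ)) :=
    (Complex.continuous_ofReal.tendsto _).comp (dep_tendsto_352 Λ d)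
  refine ⟨WithLp.toLp 2 (fun i => if i = Fin.last d then
      (ε : ℂ) * (-(UU Λ d hd b : ℂ) - ((0 : ℝ) : ℂ)) else (L i : ℂ)), ?_, ?_⟩
  · have h1 : xx Λ d hd ε = fun j => WithLp.toLp 2 (fun i => if i = Fin.last d then
      (ε : ℂ) * (-(UU Λ d hd (bz d j) : ℂ) - (dep Λ d j : ℂ)) else (ZZ d j i : ℂ)) :=
      funext fun j => xx_eq_352 Λ hd ε j
    rw [h1]
    refine ((PiLp.continuous_toLp 2 (fun _ : Fin (d + 1) => ℂ)).tendsto _).comp
      (tendsto_pi_nhds.2 fun i => ?_)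
    by_cases h : i = Fin.last d
    · simp only [if_pos h]
      exact (hUc.neg.sub hDc).const_mul _
    · simp only [if_neg h]
      exact hLc i
  · have h2 : UU Λ d hd (WithLp.toLp 2 (fun i => if i = Fin.last d then
      (ε : ℂ) * (-(UU Λ d hd b : ℂ) - ((0 : ℝ) : ℂ)) else (L i : ℂ))) = UU Λ d hd b := by
      unfold UU
      refine tsum_congr fun j => ?_
      congr 1
      show (if ix d j hd = Fin.last d then _ else (L (ix d j hd) : ℂ)) = (L (ix d j hd) : ℂ)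
      rw [if_neg (ix_ne_last_352 hd j)]
    rw [h2]
    show (if Fin.last d = Fin.last d then
      (ε : ℂ) * (-(UU Λ d hd b : ℂ) - ((0 : ℝ) : ℂ)) else (L (Fin.last d) : ℂ)).re +
        ε * UU Λ d hd b = 0
    rw [if_pos rfl]
    have h3 : (ε : ℂ) * (-(UU Λ d hd b : ℂ) - ((0 : ℝ) : ℂ)) =
        ((ε * (-(UU Λ d hd b) - 0) : ℝ) : ℂ) := by push_cast; ring
    rw [h3, Complex.ofReal_re]
    ring

end Helper112.Kc
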