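import Pool.Agent.Helper112.Kc.JA1
import Pool.Agent.Helper112.Kc.JA2
import Pool.Agent.Helper112.Kc.JA3

set_option autoImplicit false

namespace Helper112.Kc

open Finset Filter Topology

theorem exists_Lam : ∃ Λ : ℂ → ℝ, IsLam Λ := by
  obtain ⟨φ, h1, h2, h3, h4, h5⟩ := exists_phi
  obtain ⟨g1, g2⟩ := Lam_of_phi φ h1 h3 h5
  have hlog : ∀ w : ℂ, 1 ≤ ‖w‖ → φ (‖w‖ ^ 2) = Real.log ‖w‖ := by
    intro w hw
    rw [h2 _ (by nlinarith), Real.log_pow]; push_cast; ring_nf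
  refine ⟨fun w => φ (‖w‖ ^ 2), g1, hlog, ?_, ?_, ?_, g2, fun i hi => Lam_bdd _ g1 hlog i hi⟩
  · intro w; apply h3; simp
  · simpa using h4
  · intro w hw
    have : φ (‖w‖ ^ 2) ≤ φ 1 := h3 (by nlinarith [norm_nonneg w])
    rw [h2 1 le_rfl] at this; simpa using this

end Helper112.Kc
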