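import Pool.Agent.Helper112.Kc.JB8
import Pool.Agent.Helper112.Kc.JC1
import Pool.Agent.Helper112.Kc.JC2
import Pool.Agent.Helper112.Kc.JC3

set_option autoImplicit false

namespace Helper112.Kc

open Finset Filter Topology

theorem UU_facts (Λ : ℂ → ℝ) (hΛ : IsLam Λ) {k d : ℕ} (hk : 2 ≤ k) (hkd : 12 * k ≤ d)
    (hd : 0 < d) :
    ContDiff ℝ k (UU Λ d hd) ∧
    (∃ S : ℝ, 0 ≤ S ∧ ∀ p, ‖fderiv ℝ (UU Λ d hd) p‖ ≤ S) ∧
    (∀ p w, 0 ≤ fderiv ℝ (fderiv ℝ (UU Λ d hd)) p w w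
        + fderiv ℝ (fderiv ℝ (UU Λ d hd)) p (Complex.I • w) (Complex.I • w)) := by
  have hd3 : 3 ≤ d := by omega
  -- constants
  choose! C hC0 hC using hΛ.bdd
  have hterm : ∀ j, _ := fun j => term_facts Λ hΛ (ix d j hd) (pp d j : ℂ) (rr d j) (mm j)
    (Real.log (rr d j)) (rr_pos d j) (mm_pos j).le
  have key := tsum_contDiff k hk (fun j (p : EuclideanSpace ℂ (Fin (d + 1))) =>
      FF Λ d j (p (ix d j hd))) (fun i j => C i * (mm j / rr d j ^ i))
    (fun j => ((hterm j).1).of_le (by exact_mod_cast le_top))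
    (by
      have := summable_FF Λ hΛ hd3 (fun _ => 0) 0 (by simp)
      simpa using this)
    (fun i hi hik => (summable_mass hkd hd3 i hik).mul_left _)
    (fun i j x hi hik => (hterm j).2.1 i (C i) hi (hC0 i hi) (hC i hi) x)
  refine ⟨key.2.1, ⟨∑' j, C 1 * (mm j / rr d j ^ 1), ?_, key.2.2.1⟩, ?_⟩
  · apply tsum_nonneg
    intro j
    have := rr_pos d j
    have := mm_pos j
    have := hC0 1 le_rfl
    positivity
  · intro p w
    have h1 := key.2.2.2 p w
    have h2 := key.2.2.2 p (Complex.I • w)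
    show 0 ≤ fderiv ℝ (fderiv ℝ (fun x => ∑' j, FF Λ d j (x (ix d j hd)))) p w w
        + fderiv ℝ (fderiv ℝ (fun x => ∑' j, FF Λ d j (x (ix d j hd)))) p (Complex.I • w)
          (Complex.I • w)
    rw [h1.2, h2.2, ← h1.1.tsum_add h2.1]
    apply tsum_nonneg
    intro j
    exact (hterm j).2.2 p w

end Helper112.Kc
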