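import Pool.Agent.Helper112.Kc.Defs2

set_option autoImplicit false

namespace Helper112.Kc

open Finset Filter Topology

theorem disc_zero (Λ : ℂ → ℝ) {d : ℕ} (hd : 0 < d) (ε : ℝ) (j : ℕ) :
    disc Λ d hd ε j 0 = xx Λ d hd ε j := by
  unfold disc xx zt
  simp


end Helper112.Kc
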